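import Mathlib
import Pool.Agent.Helper682.HU.H0

set_option autoImplicit false

namespace Pool.Agent.Helper682.HU.LA

open MeasureTheory Finset


/-- finite trigonometric sums -/
def IsTrig (f : ℝ → ℂ) : Prop := ∃ c : ℤ →₀ ℂ, ∀ t : ℝ, f t = c.sum fun n a => a * ee (n * t)

lemma IsTrig.add {f g : ℝ → ℂ} (hf : IsTrig f) (hg : IsTrig g) : IsTrig (fun t => f t + g t) := by
  obtain ⟨c, hc⟩ := hf
  obtain ⟨c', hc'⟩ := hg
  refine ⟨c + c', fun t => ?_⟩
  simp only [hc, hc']
  rw [Finsupp.sum_add_index']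
  · intro a; simp
  · intro a b₁ b₂; ring

lemma IsTrig.const (z : ℂ) : IsTrig (fun _ => z) := by
  refine ⟨Finsupp.single 0 z, fun t => ?_⟩
  rw [Finsupp.sum_single_index (by simp)]
  simp [ee]

lemma IsTrig.const_mul {f : ℝ → ℂ} (hf : IsTrig f) (z : ℂ) : IsTrig (fun t => z * f t) := by
  obtain ⟨c, hc⟩ := hf
  refine ⟨z • c, fun t => ?_⟩
  simp only [hc]
  rw [Finsupp.sum_smul_index (by intro i; simp), Finsupp.sum, Finsupp.sum, Finset.mul_sum]
  exact Finset.sum_congr rfl fun n _ => by ring

lemma ee_add (a b : ℂ) : ee (a + b) = ee a * ee b := by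
  unfold ee; rw [← Complex.exp_add]; congr 1; ring

lemma IsTrig.mul_ee {f : ℝ → ℂ} (hf : IsTrig f) (k : ℤ) : IsTrig (fun t => f t * ee (k * t)) := by
  obtain ⟨c, hc⟩ := hf
  refine ⟨c.mapDomain (· + k), fun t => ?_⟩
  simp only [hc]
  rw [Finsupp.sum_mapDomain_index_inj (add_left_injective k), Finsupp.sum, Finsupp.sum,
    Finset.sum_mul]
  refine Finset.sum_congr rfl fun n _ => ?_
  push_cast
  rw [add_mul, ee_add]; ring

lemma sin_eq_ee (t : ℝ) : ((Real.sin (2 * Real.pi * t) : ℝ) : ℂ)
    = (-Complex.I / 2) * ee (((1 : ℤ) : ℂ) * t) + (Complex.I / 2) * ee (((-1 : ℤ) : ℂ) * t) := by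
  unfold ee
  rw [Complex.ofReal_sin, Complex.sin]
  have h1 : -((2 * Real.pi * t : ℝ) : ℂ) * Complex.I = 2 * Real.pi * Complex.I * (((-1 : ℤ) : ℂ) * t) := by
    push_cast; ring
  have h2 : ((2 * Real.pi * t : ℝ) : ℂ) * Complex.I = 2 * Real.pi * Complex.I * (((1 : ℤ) : ℂ) * t) := by
    push_cast; ring
  rw [h1, h2]; ring

lemma IsTrig.mul_sin {f : ℝ → ℂ} (hf : IsTrig f) :
    IsTrig (fun t => f t * ((Real.sin (2 * Real.pi * t) : ℝ) : ℂ)) := by
  have h := ((hf.mul_ee 1).const_mul (-Complex.I / 2)).add ((hf.mul_ee (-1)).const_mul (Complex.I / 2))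
  have he : (fun t => f t * ((Real.sin (2 * Real.pi * t) : ℝ) : ℂ))
      = fun t => (-Complex.I / 2) * (f t * ee (((1 : ℤ) : ℂ) * t))
          + (Complex.I / 2) * (f t * ee (((-1 : ℤ) : ℂ) * t)) := by
    funext t
    rw [sin_eq_ee]; ring
  rw [he]
  exact h

lemma IsTrig.poly (p : Polynomial ℝ) :
    IsTrig (fun t => ((p.eval (Real.sin (2 * Real.pi * t)) : ℝ) : ℂ)) := by
  induction p using Polynomial.induction_on' with
  | add p q hp hq =>
    have := hp.add hq
    simpa using this
  | monomial n a =>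
    induction n with
    | zero =>
      have := IsTrig.const (a : ℂ)
      simpa using this
    | succ n ih =>
      have := ih.mul_sin
      have he : (fun t => (((Polynomial.monomial (n + 1) a).eval (Real.sin (2 * Real.pi * t)) : ℝ) : ℂ))
          = fun t => (((Polynomial.monomial n a).eval (Real.sin (2 * Real.pi * t)) : ℝ) : ℂ)
            * ((Real.sin (2 * Real.pi * t) : ℝ) : ℂ) := by
        funext t
        rw [Polynomial.eval_monomial, Polynomial.eval_monomial]
        push_cast; ring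
      rw [he]; exact this

lemma IsTrig.exists_Icc {f : ℝ → ℂ} (hf : IsTrig f) :
    ∃ (N : ℕ) (c : ℤ → ℂ), ∀ t : ℝ, f t = ∑ n ∈ Icc (-(N : ℤ)) N, c n * ee (n * t) := by
  obtain ⟨c, hc⟩ := hf
  refine ⟨c.support.sup Int.natAbs, c, fun t => ?_⟩
  rw [hc, Finsupp.sum]
  apply Finset.sum_subset
  · intro n hn
    have h1 : n.natAbs ≤ c.support.sup Int.natAbs := Finset.le_sup (f := Int.natAbs) hn
    rw [Finset.mem_Icc]
    omega
  · intro n _ hn
    rw [Finsupp.notMem_support_iff.mp hn, zero_mul]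

/-- truncated linear function -/
noncomputable def GG (k : ℕ) (x : ℝ) : ℝ := max 0 (min 1 (k * x))

lemma GG_nonneg (k : ℕ) (x : ℝ) : 0 ≤ GG k x := le_max_left _ _

lemma GG_le_one (k : ℕ) (x : ℝ) : GG k x ≤ 1 := max_le zero_le_one (min_le_left _ _)

lemma GG_cont (k : ℕ) : Continuous (GG k) := by unfold GG; fun_prop

lemma step_meas : Measurable (fun t : ℝ => if t < 1 / 2 then (1 : ℝ) else 0) :=
  Measurable.ite measurableSet_Iio measurable_const measurable_const

lemma bdd_intInt (h : ℝ → ℝ) (hm : Measurable h) (C : ℝ) (hC : ∀ t, |h t| ≤ C) :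
    IntervalIntegrable h volume 0 1 := by
  rw [intervalIntegrable_iff]
  refine Measure.integrableOn_of_bounded (M := C) ?_ hm.aestronglyMeasurable ?_
  · simp
  · exact Filter.Eventually.of_forall fun t => hC t

lemma GG_tendsto : Filter.Tendsto (fun k : ℕ => ∫ t in (0 : ℝ)..1,
    |GG k (Real.sin (2 * Real.pi * t)) - (if t < 1 / 2 then 1 else 0)|) Filter.atTop (nhds 0) := by
  suffices hs : Filter.Tendsto (fun k : ℕ => ∫ t in (0 : ℝ)..1,
      |GG k (Real.sin (2 * Real.pi * t)) - (if t < 1 / 2 then 1 else 0)|) Filter.atTop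
      (nhds (∫ t in (0 : ℝ)..1, (0 : ℝ))) by simpa using hs
  refine intervalIntegral.tendsto_integral_filter_of_dominated_convergence (l := Filter.atTop)
    (F := fun (k : ℕ) t => |GG k (Real.sin (2 * Real.pi * t)) - (if t < 1 / 2 then (1 : ℝ) else 0)|)
    (fun _ => (1 : ℝ)) ?_ ?_ ?_ ?_
  · refine Filter.Eventually.of_forall fun k => ?_
    apply Measurable.aestronglyMeasurable
    have h1 : Measurable fun t : ℝ => GG k (Real.sin (2 * Real.pi * t)) :=
      ((GG_cont k).comp (by fun_prop)).measurable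
    exact (h1.sub step_meas).abs
  · refine Filter.Eventually.of_forall fun k => Filter.Eventually.of_forall fun t _ => ?_
    rw [Real.norm_eq_abs, abs_abs, abs_le]
    have h1 := GG_nonneg k (Real.sin (2 * Real.pi * t))
    have h2 := GG_le_one k (Real.sin (2 * Real.pi * t))
    split_ifs <;> constructor <;> linarith
  · simp
  · refine Filter.Eventually.of_forall fun t ht => ?_
    rw [Set.uIoc_of_le zero_le_one] at ht
    obtain ⟨ht0, ht1⟩ := ht
    have hpi := Real.pi_pos
    by_cases h : t < 1 / 2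
    · have hs : 0 < Real.sin (2 * Real.pi * t) := by
        apply Real.sin_pos_of_pos_of_lt_pi
        · positivity
        · nlinarith
      obtain ⟨K, hK⟩ := exists_nat_gt (1 / Real.sin (2 * Real.pi * t))
      apply Filter.Tendsto.congr' (f₁ := fun _ => (0 : ℝ)) _ tendsto_const_nhds
      filter_upwards [Filter.eventually_ge_atTop K] with k hk
      have h1 : 1 ≤ k * Real.sin (2 * Real.pi * t) := by
        have h2 : 1 / Real.sin (2 * Real.pi * t) ≤ k := hK.le.trans (by exact_mod_cast hk)
        rwa [div_le_iff₀ hs] at h2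
      rw [if_pos h, GG, min_eq_left h1, max_eq_right zero_le_one]
      simp
    · have h' : 1 / 2 ≤ t := not_lt.mp h
      have hs : Real.sin (2 * Real.pi * t) ≤ 0 := by
        have h1 : Real.sin (2 * Real.pi * t) = - Real.sin (2 * Real.pi * t - Real.pi) := by
          rw [Real.sin_sub_pi]; ring
        rw [h1]
        have h2 : 0 ≤ Real.sin (2 * Real.pi * t - Real.pi) := by
          apply Real.sin_nonneg_of_nonneg_of_le_pi <;> nlinarith
        linarith
      apply Filter.Tendsto.congr' (f₁ := fun _ => (0 : ℝ)) _ tendsto_const_nhds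
      refine Filter.Eventually.of_forall fun k => ?_
      have h3 : (k : ℝ) * Real.sin (2 * Real.pi * t) ≤ 0 :=
        mul_nonpos_of_nonneg_of_nonpos (Nat.cast_nonneg k) hs
      have h4 : GG k (Real.sin (2 * Real.pi * t)) = 0 := by
        unfold GG
        exact max_eq_left ((min_le_right _ _).trans h3)
      simp only [if_neg h, h4]
      simp

theorem trig_approx (ε : ℝ) (hε : 0 < ε) : ∃ (N : ℕ) (c : ℤ → ℂ) (P : ℝ → ℝ),
    (∀ t : ℝ, (P t : ℂ) = ∑ n ∈ Icc (-(N : ℤ)) N, c n * ee (n * t)) ∧ (∀ t, 0 ≤ P t ∧ P t ≤ 1) ∧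
    ∫ t in (0 : ℝ)..1, |P t - (if t < 1 / 2 then 1 else 0)| ≤ ε := by
  obtain ⟨k, hk⟩ : ∃ k : ℕ, ∫ t in (0 : ℝ)..1,
      |GG k (Real.sin (2 * Real.pi * t)) - (if t < 1 / 2 then 1 else 0)| < ε / 2 := by
    have := GG_tendsto.eventually (gt_mem_nhds (show (0 : ℝ) < ε / 2 by positivity))
    exact this.exists
  set η : ℝ := ε / 8 with hη
  have hη0 : 0 < η := by positivity
  obtain ⟨p, hp⟩ := exists_polynomial_near_of_continuousOn (-1) 1 (GG k) (GG_cont k).continuousOn η hη0
  have hsin : ∀ t : ℝ, Real.sin (2 * Real.pi * t) ∈ Set.Icc (-1 : ℝ) 1 := fun t =>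
    ⟨Real.neg_one_le_sin _, Real.sin_le_one _⟩
  set P : ℝ → ℝ := fun t => (p.eval (Real.sin (2 * Real.pi * t)) + η) / (1 + 2 * η) with hP
  have hTrig : IsTrig (fun t => ((P t : ℝ) : ℂ)) := by
    have h1 := ((IsTrig.poly p).add (IsTrig.const (η : ℂ))).const_mul (((1 + 2 * η : ℝ) : ℂ)⁻¹)
    have he : (fun t => ((P t : ℝ) : ℂ)) = fun t => (((1 + 2 * η : ℝ) : ℂ)⁻¹)
        * (((p.eval (Real.sin (2 * Real.pi * t)) : ℝ) : ℂ) + (η : ℂ)) := by
      funext t
      simp only [hP]
      push_cast
      ring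
    rw [he]; exact h1
  obtain ⟨N, c, hc⟩ := hTrig.exists_Icc
  have hden : 0 < 1 + 2 * η := by positivity
  have hPG : ∀ t, |P t - GG k (Real.sin (2 * Real.pi * t))| ≤ 2 * η := by
    intro t
    have h1 := hp _ (hsin t)
    have h2 := GG_nonneg k (Real.sin (2 * Real.pi * t))
    have h3 := GG_le_one k (Real.sin (2 * Real.pi * t))
    rw [abs_lt] at h1
    set G := GG k (Real.sin (2 * Real.pi * t)) with hG
    set p0 := p.eval (Real.sin (2 * Real.pi * t)) with hp0
    have h4 : P t - G = (p0 - G + η * (1 - 2 * G)) / (1 + 2 * η) := by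
      simp only [hP]
      rw [← hp0]
      field_simp
      ring
    rw [h4, abs_div, abs_of_pos hden, div_le_iff₀ hden, abs_le]
    constructor <;> nlinarith
  refine ⟨N, c, P, hc, ?_, ?_⟩
  · intro t
    have h1 := hp _ (hsin t)
    have h2 := GG_nonneg k (Real.sin (2 * Real.pi * t))
    have h3 := GG_le_one k (Real.sin (2 * Real.pi * t))
    rw [abs_lt] at h1
    simp only [hP]
    constructor
    · apply div_nonneg _ hden.le
      linarith
    · rw [div_le_one hden]
      linarith
  · have hGm : Measurable fun t : ℝ => GG k (Real.sin (2 * Real.pi * t)) :=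
      ((GG_cont k).comp (by fun_prop)).measurable
    have hPm : Measurable P := by
      have : Continuous P := by
        simp only [hP]
        fun_prop
      exact this.measurable
    have hP01 : ∀ t, |P t - GG k (Real.sin (2 * Real.pi * t))|
        + |GG k (Real.sin (2 * Real.pi * t)) - (if t < 1 / 2 then 1 else 0)| ≤ 2 * η + 1 := by
      intro t
      have h1 := GG_nonneg k (Real.sin (2 * Real.pi * t))
      have h2 := GG_le_one k (Real.sin (2 * Real.pi * t))
      have h3 : |GG k (Real.sin (2 * Real.pi * t)) - (if t < 1 / 2 then 1 else 0)| ≤ 1 := by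
        rw [abs_le]
        split_ifs <;> constructor <;> linarith
      exact add_le_add (hPG t) h3
    have hi1 : IntervalIntegrable (fun t => |P t - (if t < 1 / 2 then 1 else 0)|) volume 0 1 := by
      refine bdd_intInt _ (hPm.sub step_meas).abs (2 * η + 1) fun t => ?_
      rw [abs_abs]
      refine le_trans ?_ (hP01 t)
      exact abs_sub_le _ _ _
    have hi2 : IntervalIntegrable (fun t => |GG k (Real.sin (2 * Real.pi * t))
        - (if t < 1 / 2 then 1 else 0)|) volume 0 1 := by
      refine bdd_intInt _ (hGm.sub step_meas).abs (2 * η + 1) fun t => ?_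
      rw [abs_abs]
      refine le_trans ?_ (hP01 t)
      exact le_add_of_nonneg_left (abs_nonneg _)
    calc ∫ t in (0 : ℝ)..1, |P t - (if t < 1 / 2 then 1 else 0)|
        ≤ ∫ t in (0 : ℝ)..1, (2 * η + |GG k (Real.sin (2 * Real.pi * t))
          - (if t < 1 / 2 then 1 else 0)|) := by
          apply intervalIntegral.integral_mono_on zero_le_one hi1
          · exact (intervalIntegrable_const).add hi2
          · intro t _
            exact (abs_sub_le _ (GG k (Real.sin (2 * Real.pi * t))) _).trans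
              (add_le_add (hPG t) le_rfl)
      _ = 2 * η + ∫ t in (0 : ℝ)..1, |GG k (Real.sin (2 * Real.pi * t))
          - (if t < 1 / 2 then 1 else 0)| := by
          rw [intervalIntegral.integral_add (intervalIntegrable_const) hi2]
          simp
      _ ≤ ε := by
          rw [hη]; linarith

end Pool.Agent.Helper682.HU.LA
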