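import Mathlib
import Pool.Agent.Helper682.HU.H0

set_option autoImplicit false

namespace Pool.Agent.Helper682.HU.LC

open MeasureTheory Finset



theorem fract_mp1 (R : ℕ) (hR : 0 < R) : MeasurePreserving (fun t : ℝ => Int.fract ((R : ℝ) * t))
    (volume.restrict (Set.Ico (0:ℝ) 1)) (volume.restrict (Set.Ico (0:ℝ) 1)) := by
  have hmeas : Measurable (fun t : ℝ => Int.fract ((R:ℝ) * t)) :=
    measurable_fract.comp (measurable_const.mul measurable_id)
  refine ⟨hmeas, ?_⟩
  ext A hA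
  rw [Measure.map_apply hmeas hA, Measure.restrict_apply (hmeas hA), Measure.restrict_apply hA]
  have hR' : (0:ℝ) < R := by exact_mod_cast hR
  have hBm : MeasurableSet (A ∩ Set.Ico (0:ℝ) 1) := hA.inter measurableSet_Ico
  have key : (fun t : ℝ => Int.fract ((R:ℝ) * t)) ⁻¹' A ∩ Set.Ico 0 1 =
      ⋃ k ∈ Finset.range R, (fun t : ℝ => (R:ℝ) * t) ⁻¹' ((fun s : ℝ => s - (k:ℝ)) ⁻¹' (A ∩ Set.Ico 0 1)) := by
    ext t
    simp only [Set.mem_inter_iff, Set.mem_preimage, Set.mem_iUnion, Finset.mem_range, Set.mem_Ico,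
      exists_prop]
    constructor
    · rintro ⟨hA', h0, h1⟩
      have hfl0 : 0 ≤ ⌊(R:ℝ) * t⌋ := Int.floor_nonneg.mpr (by positivity)
      have hflt : ⌊(R:ℝ) * t⌋ < R := by
        apply Int.floor_lt.mpr
        push_cast
        nlinarith
      refine ⟨⌊(R:ℝ) * t⌋.toNat, by omega, ?_⟩
      have e1 : (R:ℝ) * t - (⌊(R:ℝ) * t⌋.toNat : ℝ) = Int.fract ((R:ℝ) * t) := by
        have : ((⌊(R:ℝ) * t⌋.toNat : ℕ) : ℝ) = ((⌊(R:ℝ) * t⌋ : ℤ) : ℝ) := by
          have := Int.toNat_of_nonneg hfl0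
          exact_mod_cast congrArg (Int.cast (R := ℝ)) this
        rw [this]; rfl
      rw [e1]
      exact ⟨hA', Int.fract_nonneg _, Int.fract_lt_one _⟩
    · rintro ⟨k, hk, hA', h0, h1⟩
      have hfl : ⌊(R:ℝ) * t⌋ = k := by
        rw [Int.floor_eq_iff]
        push_cast
        constructor <;> linarith
      have e1 : Int.fract ((R:ℝ) * t) = (R:ℝ) * t - k := by
        rw [Int.fract, hfl]; push_cast; ring
      rw [e1]
      refine ⟨hA', ?_, ?_⟩
      · have : (0:ℝ) ≤ (R:ℝ) * t := by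
          have : (0:ℝ) ≤ k := Nat.cast_nonneg k
          linarith
        by_contra hneg
        push Not at hneg
        nlinarith
      · have hk' : (k:ℝ) + 1 ≤ R := by exact_mod_cast hk
        by_contra hneg
        push Not at hneg
        nlinarith
  rw [key, measure_biUnion_finset]
  · have e2 : ∀ k ∈ Finset.range R, volume ((fun t : ℝ => (R:ℝ) * t) ⁻¹' ((fun s : ℝ => s - (k:ℝ)) ⁻¹' (A ∩ Set.Ico 0 1)))
        = ENNReal.ofReal |(R:ℝ)⁻¹| * volume (A ∩ Set.Ico (0:ℝ) 1) := by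
      intro k _
      rw [Real.volume_preimage_mul_left hR'.ne']
      congr 1
      have := measure_preimage_add_right volume (-(k:ℝ)) (A ∩ Set.Ico (0:ℝ) 1)
      simpa [sub_eq_add_neg] using this
    rw [Finset.sum_congr rfl e2, Finset.sum_const, Finset.card_range, nsmul_eq_mul, ← mul_assoc]
    have : (R : ENNReal) * ENNReal.ofReal |(R:ℝ)⁻¹| = 1 := by
      rw [abs_of_pos (inv_pos.mpr hR'), ← ENNReal.ofReal_natCast, ← ENNReal.ofReal_mul hR'.le,
        mul_inv_cancel₀ hR'.ne', ENNReal.ofReal_one]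
    rw [this, one_mul]
  · intro i _ j _ hij
    simp only [Function.onFun]
    rw [Set.disjoint_left]
    rintro t ⟨_, h1, h2⟩ ⟨_, h3, h4⟩
    apply hij
    have h5 : (i:ℝ) < j + 1 := by simp only at h1 h2 h3 h4; linarith
    have h6 : (j:ℝ) < i + 1 := by simp only at h1 h2 h3 h4; linarith
    have h7 : i < j + 1 := by exact_mod_cast h5
    have h8 : j < i + 1 := by exact_mod_cast h6
    omega
  · intro k _
    exact (measurable_const.mul measurable_id) ((measurable_id.sub measurable_const) hBm)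

/-- multiplication by `R` modulo 1 preserves the measure of the cube -/
theorem fract_mp (R : ℕ) (hR : 0 < R) : MeasurePreserving (fun (x : Fin 3 → ℝ) (i : Fin 3) => Int.fract ((R : ℝ) * x i))
    (volume.restrict cube) (volume.restrict cube) := by
  have e : (volume.restrict cube : Measure (Fin 3 → ℝ)) = Measure.pi (fun _ : Fin 3 => (volume : Measure ℝ).restrict (Set.Ico (0:ℝ) 1)) := by
    rw [cube, volume_pi, Measure.restrict_pi_pi]
  rw [e]
  exact measurePreserving_pi _ _ (fun _ => fract_mp1 R hR)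

noncomputable def vv (k : ℤ) : ℝ := 1 / (1 + (if 0 ≤ k then (k:ℝ) else (k:ℝ) + 1) ^ 2)

theorem vv_nonneg (k : ℤ) : 0 ≤ vv k := by unfold vv; positivity

theorem le_vv (k : ℤ) (x : ℝ) (h0 : (k:ℝ) ≤ x) (h1 : x < k + 1) : 1 / (1 + x ^ 2) ≤ vv k := by
  unfold vv
  apply one_div_le_one_div_of_le (by positivity)
  split_ifs with h
  · have : (0:ℝ) ≤ k := by exact_mod_cast h
    nlinarith
  · have : (k:ℝ) + 1 ≤ 0 := by
      have : k + 1 ≤ 0 := by omega
      exact_mod_cast this
    nlinarith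

theorem sum_nat_le (n : ℕ) : ∑ k ∈ Finset.range n, (1 / (1 + (k:ℝ)^2)) ≤ 3 * (1 - 1 / ((n:ℝ)+1)) := by
  induction n with
  | zero => simp
  | succ n ih =>
    rw [Finset.sum_range_succ]
    have : 1 / (1 + (n:ℝ)^2) ≤ 3 * (1 / ((n:ℝ)+1) - 1 / ((n:ℝ)+1+1)) := by
      have e : 3 * (1 / ((n:ℝ)+1) - 1 / ((n:ℝ)+1+1)) = 3 / (((n:ℝ)+1) * ((n:ℝ)+1+1)) := by
        field_simp
        ring
      rw [e, div_le_div_iff₀ (by positivity) (by positivity)]
      rcases Nat.lt_or_ge n 1 with h | h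
      · interval_cases n; norm_num
      · have : (1:ℝ) ≤ n := by exact_mod_cast h
        nlinarith
    push_cast
    linarith

theorem tsum_nat_le : ∑' n : ℕ, ENNReal.ofReal (1 / (1 + (n:ℝ)^2)) ≤ 3 := by
  apply ENNReal.tsum_le_of_sum_range_le
  intro n
  rw [← ENNReal.ofReal_sum_of_nonneg (fun i _ => by positivity)]
  have : (3:ENNReal) = ENNReal.ofReal 3 := by norm_num
  rw [this]
  apply ENNReal.ofReal_le_ofReal
  have h1 := sum_nat_le n
  have h2 : (0:ℝ) ≤ 1 / ((n:ℝ)+1) := by positivity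
  linarith

theorem tsum_vv : ∑' k : ℤ, ENNReal.ofReal (vv k) ≤ 10 := by
  rw [tsum_of_nat_of_neg_add_one ENNReal.summable ENNReal.summable]
  have e1 : (fun n : ℕ => ENNReal.ofReal (vv (n:ℤ))) = fun n : ℕ => ENNReal.ofReal (1 / (1 + (n:ℝ)^2)) := by
    funext n
    simp [vv]
  have e2 : (fun n : ℕ => ENNReal.ofReal (vv (-((n:ℤ) + 1)))) = fun n : ℕ => ENNReal.ofReal (1 / (1 + (n:ℝ)^2)) := by
    funext n
    have : ¬ (0 ≤ -((n:ℤ)+1)) := by omega
    simp only [vv, if_neg this]
    push_cast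
    congr 3
    ring
  rw [e1, e2]
  calc _ ≤ (3:ENNReal) + 3 := add_le_add tsum_nat_le tsum_nat_le
    _ ≤ 10 := by norm_num

theorem tsum_prod_vv : ∑' n : Fin 3 → ℤ, ∏ i, ENNReal.ofReal (vv (n i)) ≤ 1000 := by
  rw [ENNReal.tsum_eq_iSup_sum]
  apply iSup_le
  intro s
  classical
  calc ∑ n ∈ s, ∏ i, ENNReal.ofReal (vv (n i)) ≤ ∑ n ∈ Fintype.piFinset (fun i : Fin 3 => s.image (fun n => n i)), ∏ i, ENNReal.ofReal (vv (n i)) := by
        apply Finset.sum_le_sum_of_subset
        intro n hn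
        rw [Fintype.mem_piFinset]
        intro i
        exact Finset.mem_image_of_mem _ hn
    _ = ∏ i : Fin 3, ∑ k ∈ s.image (fun n => n i), ENNReal.ofReal (vv k) := by
        rw [Finset.prod_univ_sum]
    _ ≤ ∏ i : Fin 3, (10:ENNReal) := by
        apply Finset.prod_le_prod'
        intro i _
        exact (ENNReal.sum_le_tsum _).trans tsum_vv
    _ = 1000 := by simp; norm_num

/-- periodization of the weight -/
theorem period_bound (g : (Fin 3 → ℝ) → ENNReal) (hg : Measurable g)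
    (hper : ∀ (x : Fin 3 → ℝ) (n : Fin 3 → ℤ), g (fun i => x i + n i) = g x) :
    ∫⁻ x : Fin 3 → ℝ, ENNReal.ofReal (∏ i, 1 / (1 + x i ^ 2)) * g x ≤
      ENNReal.ofReal 1000 * ∫⁻ x in cube, g x := by
  classical
  set S : (Fin 3 → ℤ) → Set (Fin 3 → ℝ) := fun n => Set.univ.pi fun i => Set.Ico (n i : ℝ) (n i + 1) with hS
  have hSm : ∀ n, MeasurableSet (S n) := fun n => MeasurableSet.univ_pi (fun i => measurableSet_Ico)
  have hSd : Pairwise (Function.onFun Disjoint S) := by
    intro n m hnm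
    simp only [Function.onFun]
    rw [Set.disjoint_left]
    intro x hx hy
    apply hnm
    funext i
    have h1 := hx i (Set.mem_univ i)
    have h2 := hy i (Set.mem_univ i)
    have h5 : (n i:ℝ) < m i + 1 := lt_of_le_of_lt h1.1 h2.2
    have h6 : (m i:ℝ) < n i + 1 := lt_of_le_of_lt h2.1 h1.2
    have h7 : n i < m i + 1 := by exact_mod_cast h5
    have h8 : m i < n i + 1 := by exact_mod_cast h6
    omega
  have hSu : (⋃ n, S n) = Set.univ := by
    rw [Set.eq_univ_iff_forall]
    intro x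
    rw [Set.mem_iUnion]
    refine ⟨fun i => ⌊x i⌋, fun i _ => ⟨Int.floor_le _, Int.lt_floor_add_one _⟩⟩
  rw [← setLIntegral_univ (fun x : Fin 3 → ℝ => ENNReal.ofReal (∏ i, 1 / (1 + x i ^ 2)) * g x), ← hSu,
    lintegral_iUnion hSm hSd]
  have htrans : ∀ n, ∫⁻ x in S n, g x = ∫⁻ x in cube, g x := by
    intro n
    have hcube : MeasurableSet cube := MeasurableSet.univ_pi (fun i => measurableSet_Ico)
    rw [← lintegral_indicator (hSm n), ← lintegral_indicator hcube]
    rw [← lintegral_add_right_eq_self (fun x => (S n).indicator g x) (fun i => (n i : ℝ))]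
    apply lintegral_congr
    intro x
    have hmem : (x + fun i => (n i : ℝ)) ∈ S n ↔ x ∈ cube := by
      simp only [hS, cube, Set.mem_pi, Set.mem_univ, true_implies, Set.mem_Ico, Pi.add_apply]
      constructor
      · intro h i
        have := h i
        constructor <;> linarith [this.1, this.2]
      · intro h i
        have := h i
        constructor <;> linarith [this.1, this.2]
    by_cases h : x ∈ cube
    · rw [Set.indicator_of_mem (hmem.mpr h), Set.indicator_of_mem h]
      exact hper x n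
    · rw [Set.indicator_of_notMem (fun h' => h (hmem.mp h')), Set.indicator_of_notMem h]
  have hbound : ∀ n, ∫⁻ x in S n, ENNReal.ofReal (∏ i, 1 / (1 + x i ^ 2)) * g x ≤
      (∏ i, ENNReal.ofReal (vv (n i))) * ∫⁻ x in cube, g x := by
    intro n
    rw [← htrans n, ← lintegral_const_mul _ hg]
    apply setLIntegral_mono (measurable_const.mul hg)
    intro x hx
    apply mul_le_mul_left
    rw [← ENNReal.ofReal_prod_of_nonneg (fun i _ => vv_nonneg (n i))]
    apply ENNReal.ofReal_le_ofReal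
    apply Finset.prod_le_prod
    · intro i _; positivity
    · intro i _
      have := hx i (Set.mem_univ i)
      exact le_vv (n i) (x i) this.1 this.2
  calc _ ≤ ∑' n : Fin 3 → ℤ, (∏ i, ENNReal.ofReal (vv (n i))) * ∫⁻ x in cube, g x := ENNReal.tsum_le_tsum hbound
    _ = (∑' n : Fin 3 → ℤ, (∏ i, ENNReal.ofReal (vv (n i)))) * ∫⁻ x in cube, g x := ENNReal.tsum_mul_right
    _ ≤ ENNReal.ofReal 1000 * ∫⁻ x in cube, g x := by
        gcongr
        calc _ ≤ (1000:ENNReal) := tsum_prod_vv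
          _ = ENNReal.ofReal 1000 := by norm_num

end Pool.Agent.Helper682.HU.LC
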