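import Mathlib
import Pool.Agent.Helper682.HU.H0

set_option autoImplicit false

namespace Pool.Agent.Helper682.HU.LF

open MeasureTheory Finset



lemma code_pos_HF (S : List Bool) : 1 ≤ code S := by
  induction S with
  | nil => simp [code]
  | cons d S ih => simp only [code]; omega

lemma code_cons_HF (d : Bool) (S : List Bool) : code S + 1 ≤ code (d :: S) := by
  have := code_pos_HF S
  simp only [code]; omega

theorem th_cons (B : ℕ) (hB : 0 < B) (d : Bool) (S : List Bool) :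
    th B (d :: S) = th B S + (if d then 1 / (B : ℝ) ^ code S else 0) := by
  have hB' : (B : ℝ) ≠ 0 := by exact_mod_cast hB.ne'
  have h1 := code_cons_HF d S
  have h2 : (B : ℝ) ^ code (d :: S) = (B : ℝ) ^ (code (d :: S) - code S) * (B : ℝ) ^ code S := by
    rw [← pow_add]; congr 1; omega
  unfold th
  rw [h2]
  simp only [tau]
  have h3 : (B : ℝ) ^ (code (d :: S) - code S) ≠ 0 := pow_ne_zero _ hB'
  have h4 : (B : ℝ) ^ code S ≠ 0 := pow_ne_zero _ hB'
  cases d
  · push_cast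
    field_simp
    ring
  · push_cast
    simp only [if_true]
    field_simp

theorem dr_Xi (B : ℕ) (hB : 0 < B) (S : List Bool) (t : ℝ) :
    dr (Xi B S) (yv t) = (B : ℝ) ^ (2 * code S) * (t - th B S) ^ 2 := by
  have hB' : (B : ℝ) ≠ 0 := by exact_mod_cast hB.ne'
  have h4 : (B : ℝ) ^ code S ≠ 0 := pow_ne_zero _ hB'
  have h5 : (B : ℝ) ^ (2 * code S) = ((B : ℝ) ^ code S) ^ 2 := by rw [← pow_mul, mul_comm]
  simp only [dr, Fin.sum_univ_three, Xi, yv, th, Matrix.cons_val_zero, Matrix.cons_val_one,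
    Matrix.cons_val]
  push_cast
  rw [h5]
  field_simp
  ring

lemma dr_add_HF (ξ ζ : Fin 3 → ℤ) (y : Fin 3 → ℝ) : dr (ξ + ζ) y = dr ξ y + dr ζ y := by
  simp only [dr, Pi.add_apply, Int.cast_add, add_mul, Finset.sum_add_distrib]

lemma dr_smul_HF (n : ℤ) (ζ : Fin 3 → ℤ) (y : Fin 3 → ℝ) : dr (n • ζ) y = n * dr ζ y := by
  simp only [dr, Pi.smul_apply, smul_eq_mul, Int.cast_mul, Finset.mul_sum, mul_assoc]

set_option maxHeartbeats 4000000 in
/-- expansion of the lower frequency around the direction of the node -/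
theorem reach_form {N B : ℕ} (hB : 4 ≤ B) {S : List Bool} {ξ : Fin 3 → ℤ} {m : ℤ} (h : Reach N B S ξ m) :
    ∃ c b a : ℝ, c = (ξ 2 : ℝ) ∧ (∀ τ : ℝ, dr ξ (yv (th B S + τ)) = c * τ ^ 2 + 2 * b * τ + a) ∧
      |c| ≤ 4 * N * (B : ℝ) ^ (2 * (code S - 1)) ∧ |b| ≤ 4 * N * (B : ℝ) ^ (code S - 1) ∧
      |a - m| ≤ S.length * (16 * N / B) := by
  have hB0 : 0 < B := by omega
  have hBr : (4 : ℝ) ≤ B := by exact_mod_cast hB
  have hN : (0 : ℝ) ≤ N := Nat.cast_nonneg N
  induction h with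
  | nil =>
    refine ⟨0, 0, 0, by simp, ?_, by simp; positivity, by simp; positivity, by simp⟩
    intro τ
    simp [dr]
  | cons d S ξ m n h hn ih =>
    obtain ⟨c, b, a, hc, hQ, hcb, hbb, hab⟩ := ih
    have hcode := code_pos_HF S
    have hcc := code_cons_HF d S
    set C := code S with hC
    set q : ℝ := (B : ℝ) ^ C with hq
    have hq0 : 0 < q := by rw [hq]; positivity
    have hq1 : q = (B : ℝ) ^ (C - 1) * B := by
      rw [hq, ← pow_succ]; congr 1; omega
    have hL : (B : ℝ) ^ (2 * C) = q ^ 2 := by rw [hq, ← pow_mul, mul_comm]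
    have hL2 : (B : ℝ) ^ (2 * (C - 1)) = (q / B) ^ 2 := by
      have : q / B = (B : ℝ) ^ (C - 1) := by
        rw [hq1]; field_simp
      rw [this, ← pow_mul, mul_comm]
    have hL1 : (B : ℝ) ^ (C - 1) = q / B := by rw [hq1]; field_simp
    rw [hL2] at hcb
    rw [hL1] at hbb
    have hn' : |(n : ℝ)| ≤ N := by exact_mod_cast hn
    -- lower bound for the new powers
    have hp1 : q ≤ (B : ℝ) ^ (code (d :: S) - 1) := by
      rw [hq]
      apply pow_le_pow_right₀ (by linarith)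
      omega
    have hp2 : q ^ 2 ≤ (B : ℝ) ^ (2 * (code (d :: S) - 1)) := by
      rw [hq, ← pow_mul]
      apply pow_le_pow_right₀ (by linarith)
      omega
    have hqB : q / B ≤ q / 4 := by
      apply div_le_div_of_nonneg_left hq0.le (by norm_num) hBr
    have hqB0 : 0 ≤ q / B := by positivity
    have hcq : |c| ≤ N * q ^ 2 / 4 := by
      have : (q / B) ^ 2 ≤ (q / 4) ^ 2 := pow_le_pow_left₀ hqB0 hqB 2
      calc |c| ≤ 4 * N * (q / B) ^ 2 := hcb
        _ ≤ 4 * N * (q / 4) ^ 2 := by gcongr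
        _ = N * q ^ 2 / 4 := by ring
    have hbq : |b| ≤ N * q := by
      calc |b| ≤ 4 * N * (q / B) := hbb
        _ ≤ 4 * N * (q / 4) := by gcongr
        _ = N * q := by ring
    have hnL : |(n : ℝ) * q ^ 2| ≤ N * q ^ 2 := by
      rw [abs_mul, abs_of_nonneg (by positivity : (0 : ℝ) ≤ q ^ 2)]
      gcongr
    have hcn : |c + n * q ^ 2| ≤ N * q ^ 2 / 4 + N * q ^ 2 := (abs_add_le _ _).trans (by linarith)
    have hNq : 0 ≤ N * q := by positivity
    have hNq2 : 0 ≤ N * q ^ 2 := by positivity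
    have hexp : ∀ t : ℝ, dr (ξ + n • Xi B S) (yv t) = dr ξ (yv t) + n * (q ^ 2 * (t - th B S) ^ 2) := by
      intro t
      rw [dr_add_HF, dr_smul_HF, dr_Xi B hB0, ← hC, hL]
    have hx2 : ((Xi B S 2 : ℤ) : ℝ) = q ^ 2 := by
      simp only [Xi, Matrix.cons_val]
      push_cast
      rw [← hC, hL]
    cases d with
    | false =>
      have hth : th B (false :: S) = th B S := by
        rw [th_cons B hB0]; simp
      refine ⟨c + n * q ^ 2, b, a, ?_, ?_, ?_, ?_, ?_⟩
      · simp only [Pi.add_apply, Pi.smul_apply, smul_eq_mul]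
        push_cast
        rw [hc, hx2]
      · intro τ
        rw [hexp, hth, hQ]
        ring
      · calc |c + n * q ^ 2| ≤ N * q ^ 2 / 4 + N * q ^ 2 := hcn
          _ ≤ 4 * N * q ^ 2 := by linarith
          _ ≤ _ := by gcongr
      · calc |b| ≤ N * q := hbq
          _ ≤ 4 * N * q := by linarith
          _ ≤ _ := by gcongr
      · have : |a - (m : ℝ)| ≤ S.length * (16 * N / B) := hab
        have h2 : (0 : ℝ) ≤ 16 * N / B := by positivity
        simp only [Bool.false_eq_true, if_false, add_zero, List.length_cons]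
        push_cast
        nlinarith
    | true =>
      have hth : th B (true :: S) = th B S + 1 / q := by
        rw [th_cons B hB0]; simp [← hC, ← hq]
      refine ⟨c + n * q ^ 2, b + (c + n * q ^ 2) / q, c / q ^ 2 + 2 * b / q + a + n, ?_, ?_, ?_, ?_, ?_⟩
      · simp only [Pi.add_apply, Pi.smul_apply, smul_eq_mul]
        push_cast
        rw [hc, hx2]
      · intro τ
        rw [hexp, hth, add_assoc, hQ]
        field_simp
        ring
      · calc |c + n * q ^ 2| ≤ N * q ^ 2 / 4 + N * q ^ 2 := hcn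
          _ ≤ 4 * N * q ^ 2 := by linarith
          _ ≤ _ := by gcongr
      · have h1 : |(c + n * q ^ 2) / q| ≤ N * q / 4 + N * q := by
          rw [abs_div, abs_of_pos hq0, div_le_iff₀ hq0]
          nlinarith
        calc |b + (c + n * q ^ 2) / q| ≤ |b| + |(c + n * q ^ 2) / q| := abs_add_le _ _
          _ ≤ N * q + (N * q / 4 + N * q) := by gcongr
          _ ≤ 4 * N * q := by linarith
          _ ≤ _ := by gcongr
      · have h2 : (0 : ℝ) ≤ 16 * N / B := by positivity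
        have hBp : (0 : ℝ) < B := by linarith
        have h3 : |c / q ^ 2| ≤ N / B := by
          rw [abs_div, abs_of_pos (by positivity : (0 : ℝ) < q ^ 2), div_le_iff₀ (by positivity)]
          calc |c| ≤ 4 * N * (q / B) ^ 2 := hcb
            _ = (N / B * q ^ 2) * (4 / B) := by field_simp
            _ ≤ (N / B * q ^ 2) * 1 := by
                gcongr
                rw [div_le_one hBp]; exact hBr
            _ = N / B * q ^ 2 := by ring
        have h4 : |2 * b / q| ≤ 8 * N / B := by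
          rw [abs_div, abs_of_pos hq0, div_le_iff₀ hq0, abs_mul, abs_two]
          calc 2 * |b| ≤ 2 * (4 * N * (q / B)) := by gcongr
            _ = 8 * N / B * q := by ring
        simp only [if_true, List.length_cons]
        push_cast
        have h5 : c / q ^ 2 + 2 * b / q + a + n - (m + n) = c / q ^ 2 + 2 * b / q + (a - m) := by ring
        rw [h5]
        calc |c / q ^ 2 + 2 * b / q + (a - m)| ≤ |c / q ^ 2| + |2 * b / q| + |a - m| := abs_add_three _ _ _
          _ ≤ N / B + 8 * N / B + S.length * (16 * N / B) := by gcongr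
          _ ≤ (S.length + 1) * (16 * N / B) := by
              have : N / B + 8 * N / B ≤ 16 * N / (B : ℝ) := by
                rw [← add_div]; gcongr; linarith
              nlinarith

/-- uniform version used below -/
lemma reach_bd_HF {N K : ℕ} {B : ℕ} (hB : 4 ≤ B) (hB1 : 64 * N * (K + 1) ≤ B) {S : List Bool}
    (hS : S.length ≤ K) {ξ : Fin 3 → ℤ} (h : Reach N B S ξ 1) :
    ∃ c b a : ℝ, c = (ξ 2 : ℝ) ∧
      (∀ t : ℝ, dr (Xi B S + ξ) (yv t) =
        (((B : ℝ) ^ code S) ^ 2 + c) * (t - th B S) ^ 2 + 2 * b * (t - th B S) + a) ∧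
      |c| ≤ 4 * N * ((B : ℝ) ^ code S / B) ^ 2 ∧ |b| ≤ 4 * N * ((B : ℝ) ^ code S / B) ∧
      |a - 1| ≤ K * (16 * N / B) ∧ |a - 1| ≤ 1 / 4 := by
  have hB0 : 0 < B := by omega
  have hBr : (4 : ℝ) ≤ B := by exact_mod_cast hB
  have hBp : (0 : ℝ) < B := by linarith
  obtain ⟨c, b, a, hc, hQ, hcb, hbb, hab⟩ := reach_form hB h
  have hcode := code_pos_HF S
  have hL1 : (B : ℝ) ^ (code S - 1) = (B : ℝ) ^ code S / B := by
    have : (B : ℝ) ^ code S = (B : ℝ) ^ (code S - 1) * B := by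
      rw [← pow_succ]; congr 1; omega
    rw [this]; field_simp
  have hL2 : (B : ℝ) ^ (2 * (code S - 1)) = ((B : ℝ) ^ code S / B) ^ 2 := by
    rw [← hL1, ← pow_mul, mul_comm]
  rw [hL2] at hcb
  rw [hL1] at hbb
  have hKS : (S.length : ℝ) ≤ K := by exact_mod_cast hS
  have h1 : |a - 1| ≤ K * (16 * N / B) := by
    have := hab
    push_cast at this
    exact this.trans (by gcongr)
  refine ⟨c, b, a, hc, ?_, hcb, hbb, h1, ?_⟩
  · intro t
    have := hQ (t - th B S)
    rw [add_sub_cancel] at this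
    rw [dr_add_HF, dr_Xi B hB0, this, mul_comm 2 (code S), pow_mul]
    ring
  · refine h1.trans ?_
    have hB1' : (64 : ℝ) * N * (K + 1) ≤ B := by exact_mod_cast hB1
    rw [mul_div_assoc', div_le_iff₀ hBp]
    have : (0 : ℝ) ≤ N := Nat.cast_nonneg N
    nlinarith

/-- frequencies of degree 1 are positive on the cone -/
theorem reach_cone {N K : ℕ} : ∃ B0 : ℕ, ∀ B ≥ B0, ∀ S : List Bool, S.length ≤ K → ∀ ξ : Fin 3 → ℤ,
    Reach N B S ξ 1 → ∀ y : Fin 3 → ℝ, cone y → 0 < dr (Xi B S + ξ) y := by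
  refine ⟨max 4 (64 * N * (K + 1) + 64 * N), ?_⟩
  intro B hB S hS ξ h y hy
  have hB4 : 4 ≤ B := (le_max_left _ _).trans hB
  have hB2 : 64 * N * (K + 1) + 64 * N ≤ B := (le_max_right _ _).trans hB
  have hBr : (4 : ℝ) ≤ B := by exact_mod_cast hB4
  have hBp : (0 : ℝ) < B := by linarith
  have hN : (0 : ℝ) ≤ N := Nat.cast_nonneg N
  have hNB : 64 * (N : ℝ) ≤ B := by
    have : 64 * N ≤ B := by omega
    exact_mod_cast this
  obtain ⟨c, b, a, hc, hQ, hcb, hbb, hab, ha⟩ := reach_bd_HF hB4 (by omega) hS h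
  set q : ℝ := (B : ℝ) ^ code S with hq
  have hq0 : 0 < q := by rw [hq]; positivity
  have hNB' : (N : ℝ) / B ≤ 1 / 64 := by
    rw [div_le_div_iff₀ hBp (by norm_num)]; linarith
  have hNB0 : 0 ≤ (N : ℝ) / B := by positivity
  have hcq : |c| ≤ q ^ 2 / 4 := by
    calc |c| ≤ 4 * N * (q / B) ^ 2 := hcb
      _ = 4 * (N / B) * (q ^ 2 / B) := by field_simp
      _ ≤ 4 * (1 / 64) * (q ^ 2 / 1) := by gcongr; linarith
      _ ≤ q ^ 2 / 4 := by nlinarith [sq_nonneg q]
  have hbq : |b| ≤ q / 4 := by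
    calc |b| ≤ 4 * N * (q / B) := hbb
      _ = 4 * (N / B) * q := by ring
      _ ≤ 4 * (1 / 64) * q := by gcongr
      _ ≤ q / 4 := by linarith
  have ha' : 3 / 4 ≤ a := by
    have := (abs_le.mp ha).1; linarith
  have hc' : 3 / 4 * q ^ 2 ≤ q ^ 2 + c := by
    have := (abs_le.mp hcq).1; linarith
  obtain ⟨hy0, hy1⟩ := hy
  -- positivity of the quadratic
  have hpos : ∀ τ : ℝ, 0 < (q ^ 2 + c) * τ ^ 2 + 2 * b * τ + a := by
    intro τ
    have h1 : 3 / 4 * q ^ 2 * τ ^ 2 ≤ (q ^ 2 + c) * τ ^ 2 := by gcongr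
    have h2 : |b * τ| ≤ q / 4 * |τ| := by rw [abs_mul]; gcongr
    have h3 : q * |τ| * 2 ≤ (q * |τ|) ^ 2 + 1 := by nlinarith [sq_nonneg (q * |τ| - 1)]
    have h4 : (q * |τ|) ^ 2 = q ^ 2 * τ ^ 2 := by rw [mul_pow, sq_abs]
    have h5 := (abs_le.mp h2).1
    nlinarith [sq_nonneg (q * τ)]
  have h6 : dr (Xi B S + ξ) y = y 0 * dr (Xi B S + ξ) (yv (y 1 / y 0)) +
      ((Xi B S + ξ) 2 : ℤ) * (y 2 - y 1 ^ 2 / y 0) := by
    simp only [dr, Fin.sum_univ_three, yv, Matrix.cons_val_zero, Matrix.cons_val_one,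
      Matrix.cons_val]
    field_simp
    ring
  have h7 : (((Xi B S + ξ) 2 : ℤ) : ℝ) = q ^ 2 + c := by
    simp only [Pi.add_apply, Xi, Matrix.cons_val]
    push_cast
    rw [hc, mul_comm 2 (code S), pow_mul]
  rw [h6, h7, hQ]
  have h8 : 0 < y 2 - y 1 ^ 2 / y 0 := by
    rw [sub_pos, div_lt_iff₀ hy0]; linarith
  have h9 := hpos (y 1 / y 0 - th B S)
  have h10 : 0 < q ^ 2 + c := by
    have : 0 < q ^ 2 := by positivity
    linarith
  positivity

/-- later directions are close -/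
lemma th_app_HF {B : ℕ} (hB : 4 ≤ B) (U V : List Bool) :
    0 ≤ th B (U ++ V) - th B V ∧ th B (U ++ V) - th B V ≤ 2 / (B : ℝ) ^ code V - 2 / (B : ℝ) ^ code (U ++ V)  := by
  have hB0 : 0 < B := by omega
  have hBr : (4 : ℝ) ≤ B := by exact_mod_cast hB
  have hBp : (0 : ℝ) < B := by linarith
  induction U with
  | nil => simp
  | cons d U ih =>
    rw [List.cons_append, th_cons B hB0]
    have hc := code_cons_HF d (U ++ V)
    have h1 : 2 / (B : ℝ) ^ code (d :: (U ++ V)) ≤ 1 / (B : ℝ) ^ code (U ++ V) := by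
      rw [div_le_div_iff₀ (by positivity) (by positivity), one_mul]
      calc 2 * (B : ℝ) ^ code (U ++ V) ≤ B * (B : ℝ) ^ code (U ++ V) := by gcongr; linarith
        _ = (B : ℝ) ^ (code (U ++ V) + 1) := by ring
        _ ≤ (B : ℝ) ^ code (d :: (U ++ V)) := pow_le_pow_right₀ (by linarith) hc
    have h2 : 0 < 1 / (B : ℝ) ^ code (U ++ V) := by positivity
    have h3 : 2 / (B : ℝ) ^ code (U ++ V) = 2 * (1 / (B : ℝ) ^ code (U ++ V)) := by ring
    cases d
    · simp only [Bool.false_eq_true, if_false]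
      constructor <;> linarith [ih.1, ih.2]
    · simp only [if_true]
      constructor <;> linarith [ih.1, ih.2]

lemma th_mid_HF {B : ℕ} (hB : 4 ≤ B) (U : List Bool) (d : Bool) (S : List Bool) :
    ∃ r : ℝ, 0 ≤ r ∧ r ≤ 2 / ((B : ℝ) ^ code S * B) ∧
      th B (U ++ d :: S) = th B S + (if d then 1 / (B : ℝ) ^ code S else 0) + r := by
  have hB0 : 0 < B := by omega
  have hBr : (4 : ℝ) ≤ B := by exact_mod_cast hB
  have hBp : (0 : ℝ) < B := by linarith
  have h := th_app_HF hB U (d :: S)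
  refine ⟨th B (U ++ d :: S) - th B (d :: S), h.1, ?_, ?_⟩
  · refine h.2.trans ?_
    have h1 : 0 < 2 / (B : ℝ) ^ code (U ++ d :: S) := by positivity
    have h2 : 2 / (B : ℝ) ^ code (d :: S) ≤ 2 / ((B : ℝ) ^ code S * B) := by
      rw [← pow_succ]
      apply div_le_div_of_nonneg_left (by norm_num) (by positivity)
      exact pow_le_pow_right₀ (by linarith) (code_cons_HF d S)
    linarith
  · rw [th_cons B hB0 d S]; ring

set_option maxHeartbeats 4000000 in
/-- value on the path -/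
theorem reach_on {N K : ℕ} (η : ℝ) (hη : 0 < η) : ∃ B0 : ℕ, ∀ B ≥ B0, ∀ (S U : List Bool) (d : Bool),
    (U ++ d :: S).length ≤ K → ∀ ξ : Fin 3 → ℤ, Reach N B S ξ 1 →
    |dr (Xi B S + ξ) (yv (th B (U ++ d :: S))) - (1 + if d then 1 else 0)| ≤ η := by
  obtain ⟨n0, hn0⟩ := exists_nat_ge ((8 + 60 * N + 16 * N * K) / η)
  refine ⟨max (max 4 (64 * N * (K + 1) + 64 * N)) n0, ?_⟩
  intro B hB S U d hlen ξ h
  have hB4 : 4 ≤ B := ((le_max_left _ _).trans (le_max_left _ _)).trans hB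
  have hB2 : 64 * N * (K + 1) + 64 * N ≤ B := ((le_max_right _ _).trans (le_max_left _ _)).trans hB
  have hBn : (n0 : ℝ) ≤ B := by exact_mod_cast (le_max_right _ _).trans hB
  have hBr : (4 : ℝ) ≤ B := by exact_mod_cast hB4
  have hBp : (0 : ℝ) < B := by linarith
  have hN : (0 : ℝ) ≤ N := Nat.cast_nonneg N
  have hS : S.length ≤ K := by
    rw [List.length_append, List.length_cons] at hlen; omega
  obtain ⟨c, b, a, hc, hQ, hcb, hbb, hab, ha⟩ := reach_bd_HF hB4 (by omega) hS h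
  obtain ⟨r, hr0, hr1, hth⟩ := th_mid_HF hB4 U d S
  set q : ℝ := (B : ℝ) ^ code S with hq
  have hq0 : 0 < q := by rw [hq]; positivity
  set x : ℝ := q * (th B (U ++ d :: S) - th B S) with hx
  set ρ : ℝ := q * r with hρ
  have hρ0 : 0 ≤ ρ := by positivity
  have hρ1 : ρ ≤ 2 / B := by
    calc ρ ≤ q * (2 / (q * B)) := by rw [hρ]; gcongr
      _ = 2 / B := by field_simp
  have hBinv : 1 / (B : ℝ) ≤ 1 / 4 := by
    rw [div_le_div_iff₀ hBp (by norm_num)]; linarith
  have h2B : 2 / (B : ℝ) ≤ 1 / 2 := by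
    have : 2 / (B : ℝ) = 2 * (1 / B) := by ring
    rw [this]; linarith
  have hxe : x = (if d then 1 else 0) + ρ := by
    rw [hx, hth, hρ]
    cases d
    · simp only [Bool.false_eq_true, if_false]; ring
    · simp only [if_true]
      field_simp
      ring
  have hx0 : 0 ≤ x := by rw [hxe]; split <;> linarith
  have hx2 : x ≤ 3 / 2 := by rw [hxe]; split <;> linarith
  have hval : dr (Xi B S + ξ) (yv (th B (U ++ d :: S))) = x ^ 2 + c / q ^ 2 * x ^ 2 + 2 * (b / q) * x + a := by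
    rw [hQ, hx]
    field_simp
  have hsq : |x ^ 2 - (if d then (1:ℝ) else 0)| ≤ 8 / (B : ℝ) := by
    have h1 : 8 / (B : ℝ) = 4 * (2 / B) := by ring
    rw [hxe]
    cases d
    · simp only [Bool.false_eq_true, if_false, zero_add, sub_zero]
      rw [abs_of_nonneg (by positivity), h1]
      nlinarith
    · simp only [if_true]
      have : (1 + ρ) ^ 2 - 1 = ρ * (2 + ρ) := by ring
      rw [this, abs_of_nonneg (by positivity), h1]
      nlinarith
  have hc2 : |c / q ^ 2 * x ^ 2| ≤ 12 * (N : ℝ) / (B : ℝ) := by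
    rw [abs_mul, abs_div, abs_of_pos (by positivity : (0 : ℝ) < q ^ 2), abs_of_nonneg (sq_nonneg x)]
    have h1 : |c| / q ^ 2 ≤ N / B := by
      rw [div_le_iff₀ (by positivity)]
      calc |c| ≤ 4 * N * (q / B) ^ 2 := hcb
        _ = (N / B * q ^ 2) * (4 / B) := by field_simp
        _ ≤ (N / B * q ^ 2) * 1 := by
            gcongr
            rw [div_le_one hBp]; exact hBr
        _ = N / B * q ^ 2 := by ring
    have h2 : x ^ 2 ≤ (3 / 2) ^ 2 := pow_le_pow_left₀ hx0 hx2 2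
    calc |c| / q ^ 2 * x ^ 2 ≤ (N : ℝ) / (B : ℝ) * (3 / 2) ^ 2 := by gcongr
      _ ≤ 12 * (N : ℝ) / (B : ℝ) := by
          have : (0 : ℝ) ≤ N / B := by positivity
          have h3 : 12 * N / (B : ℝ) = 12 * (N / B) := by ring
          rw [h3]; linarith
  have hb2 : |2 * (b / q) * x| ≤ 12 * (N : ℝ) / (B : ℝ) := by
    rw [abs_mul, abs_mul, abs_two, abs_div, abs_of_pos hq0, abs_of_nonneg hx0]
    have h1 : |b| / q ≤ 4 * N / B := by
      rw [div_le_iff₀ hq0]
      calc |b| ≤ 4 * N * (q / B) := hbb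
        _ = 4 * N / B * q := by ring
    calc 2 * (|b| / q) * x ≤ 2 * (4 * N / B) * (3 / 2) := by gcongr
      _ = 12 * N / B := by ring
  have hfin : (8 + 60 * N + 16 * N * K) / (B : ℝ) ≤ η := by
    rw [div_le_iff₀ hBp]
    rw [div_le_iff₀ hη] at hn0
    calc (8 + 60 * N + 16 * N * K : ℝ) ≤ n0 * η := hn0
      _ ≤ B * η := by gcongr
      _ = η * B := by ring
  rw [hval]
  have hsplit : x ^ 2 + c / q ^ 2 * x ^ 2 + 2 * (b / q) * x + a - (1 + if d then 1 else 0) =
      (x ^ 2 - (if d then 1 else 0)) + c / q ^ 2 * x ^ 2 + 2 * (b / q) * x + (a - 1) := by ring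
  rw [hsplit]
  calc _ ≤ |(x ^ 2 - (if d then 1 else 0)) + c / q ^ 2 * x ^ 2 + 2 * (b / q) * x| + |a - 1| := abs_add_le _ _
    _ ≤ (|x ^ 2 - (if d then 1 else 0)| + |c / q ^ 2 * x ^ 2| + |2 * (b / q) * x|) + |a - 1| := by
        gcongr; exact abs_add_three _ _ _
    _ ≤ (8 / B + 12 * N / B + 12 * N / B) + K * (16 * N / B) := by gcongr
    _ = (8 + 24 * N + 16 * N * K) / B := by ring
    _ ≤ (8 + 60 * N + 16 * N * K) / B := by gcongr; norm_num
    _ ≤ η := hfin

lemma common_suffix_HF : ∀ (n : ℕ) (S T : List Bool), S.length = n → S.length ≤ T.length → ¬ (S <:+ T) →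
    ∃ (P S' T' : List Bool) (d1 d2 : Bool), d1 ≠ d2 ∧ S = S' ++ d1 :: P ∧ T = T' ++ d2 :: P := by
  intro n
  induction n with
  | zero =>
    intro S T hS _ h
    have : S = [] := List.length_eq_zero_iff.mp hS
    subst this
    exact absurd (List.nil_suffix) h
  | succ n ih =>
    intro S T hS hST h
    obtain ⟨d, S1, rfl⟩ : ∃ d S1, S = d :: S1 := by
      cases S with
      | nil => simp at hS
      | cons d S1 => exact ⟨d, S1, rfl⟩
    simp only [List.length_cons] at hS hST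
    by_cases h1 : S1 <:+ T
    · obtain ⟨U, rfl⟩ := h1
      -- U nonempty, last element differs from d
      have hU : U ≠ [] := by
        rintro rfl
        simp at hST
      refine ⟨S1, [], U.dropLast, d, U.getLast hU, ?_, by simp, ?_⟩
      · intro hd
        apply h
        refine ⟨U.dropLast, ?_⟩
        rw [hd]
        conv_rhs => rw [← List.dropLast_append_getLast hU]
        simp
      · conv_lhs => rw [← List.dropLast_append_getLast hU]
        simp
    · obtain ⟨P, S', T', d1, d2, hd, hS1, hT1⟩ := ih S1 T (by omega) (by omega) h1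
      exact ⟨P, d :: S', T', d1, d2, hd, by rw [hS1]; rfl, hT1⟩

set_option maxHeartbeats 4000000 in
/-- value off the path -/
theorem reach_off {N K : ℕ} (M : ℝ) : ∃ B0 : ℕ, ∀ B ≥ B0, ∀ (S T : List Bool),
    S.length ≤ K → T.length = K → ¬ (S <:+ T) → ∀ ξ : Fin 3 → ℤ, Reach N B S ξ 1 →
    M ≤ dr (Xi B S + ξ) (yv (th B T)) := by
  obtain ⟨n0, hn0⟩ := exists_nat_ge (16 * M)
  refine ⟨max (max 8 (64 * N * (K + 1) + 64 * N)) n0, ?_⟩
  intro B hB S T hS hT hST ξ h
  have hB8 : 8 ≤ B := ((le_max_left _ _).trans (le_max_left _ _)).trans hB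
  have hB4 : 4 ≤ B := by omega
  have hB2 : 64 * N * (K + 1) + 64 * N ≤ B := ((le_max_right _ _).trans (le_max_left _ _)).trans hB
  have hBn : (n0 : ℝ) ≤ B := by exact_mod_cast (le_max_right _ _).trans hB
  have hBr : (8 : ℝ) ≤ B := by exact_mod_cast hB8
  have hBp : (0 : ℝ) < B := by linarith
  have hN : (0 : ℝ) ≤ N := Nat.cast_nonneg N
  have hNB : 64 * (N : ℝ) ≤ B := by
    have : 64 * N ≤ B := by omega
    exact_mod_cast this
  obtain ⟨c, b, a, hc, hQ, hcb, hbb, hab, ha⟩ := reach_bd_HF hB4 (by omega) hS h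
  obtain ⟨P, S', T', d1, d2, hd, hS1, hT1⟩ := common_suffix_HF _ S T rfl (by omega) hST
  obtain ⟨r1, hr10, hr11, hth1⟩ := th_mid_HF hB4 S' d1 P
  obtain ⟨r2, hr20, hr21, hth2⟩ := th_mid_HF hB4 T' d2 P
  rw [← hS1] at hth1
  rw [← hT1] at hth2
  have hcode : code P + 1 ≤ code S := by
    rw [hS1]
    clear hS1 hth1
    induction S' with
    | nil => exact code_cons_HF d1 P
    | cons d S' ih =>
      have := code_cons_HF d (S' ++ d1 :: P)
      rw [List.cons_append]
      omega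
  set q : ℝ := (B : ℝ) ^ code S with hq
  have hq0 : 0 < q := by rw [hq]; positivity
  set p : ℝ := (B : ℝ) ^ code P with hp
  have hp0 : 0 < p := by rw [hp]; positivity
  have hpq : p * B ≤ q := by
    rw [hp, hq, ← pow_succ]
    exact pow_le_pow_right₀ (by linarith) hcode
  set τ : ℝ := th B T - th B S with hτ
  have hr1' : r1 ≤ 1 / (4 * p) := by
    refine hr11.trans ?_
    rw [div_le_div_iff₀ (by positivity) (by positivity)]
    nlinarith
  have hr2' : r2 ≤ 1 / (4 * p) := by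
    refine hr21.trans ?_
    rw [div_le_div_iff₀ (by positivity) (by positivity)]
    nlinarith
  have h4p : 1 / (4 * p) = (1 / p) / 4 := by field_simp
  rw [h4p] at hr1' hr2'
  have hτabs : 1 / (2 * p) ≤ |τ| := by
    have h2p : 1 / (2 * p) = (1 / p) / 2 := by field_simp
    have hpi : 0 < 1 / p := by positivity
    rw [h2p, hτ, hth1, hth2, le_abs]
    cases d1 <;> cases d2 <;> simp only [Bool.false_eq_true, if_false, if_true] at *
    · exact absurd rfl hd
    · left; linarith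
    · right; linarith
    · exact absurd rfl hd
  set x : ℝ := q * |τ| with hx
  have hxB : B / 2 ≤ x := by
    calc (B : ℝ) / 2 = (p * B) * (1 / (2 * p)) := by field_simp
      _ ≤ q * |τ| := by gcongr
  have hx0 : 0 < x := by linarith
  have hval : dr (Xi B S + ξ) (yv (th B T)) = (q ^ 2 + c) * τ ^ 2 + 2 * b * τ + a := hQ _
  have hNB' : (N : ℝ) / B ≤ 1 / 64 := by
    rw [div_le_div_iff₀ hBp (by norm_num)]; linarith
  have hNB0 : 0 ≤ (N : ℝ) / B := by positivity
  have hcq : |c| ≤ q ^ 2 / 4 := by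
    calc |c| ≤ 4 * N * (q / B) ^ 2 := hcb
      _ = 4 * (N / B) * (q ^ 2 / B) := by field_simp
      _ ≤ 4 * (1 / 64) * (q ^ 2 / 1) := by gcongr; linarith
      _ ≤ q ^ 2 / 4 := by nlinarith [sq_nonneg q]
  have hbq : |b| ≤ q / 16 := by
    calc |b| ≤ 4 * N * (q / B) := hbb
      _ = 4 * (N / B) * q := by ring
      _ ≤ 4 * (1 / 64) * q := by gcongr
      _ = q / 16 := by ring
  have ha' : 3 / 4 ≤ a := by
    have := (abs_le.mp ha).1; linarith
  have hc' : 3 / 4 * q ^ 2 ≤ q ^ 2 + c := by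
    have := (abs_le.mp hcq).1; linarith
  have h1 : 3 / 4 * x ^ 2 ≤ (q ^ 2 + c) * τ ^ 2 := by
    calc 3 / 4 * x ^ 2 = (3 / 4 * q ^ 2) * τ ^ 2 := by rw [hx, mul_pow, sq_abs]; ring
      _ ≤ _ := by gcongr
  have h2 : |b * τ| ≤ x / 16 := by
    rw [abs_mul]
    calc |b| * |τ| ≤ q / 16 * |τ| := by gcongr
      _ = x / 16 := by rw [hx]; ring
  have h3 := (abs_le.mp h2).1
  rw [hval]
  have h4 : (4 : ℝ) ≤ x := by linarith
  have h5 : B / 2 * 4 ≤ x * x := by nlinarith
  have h6 : 16 * M ≤ B := hn0.trans hBn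
  nlinarith

end Pool.Agent.Helper682.HU.LF
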