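import Mathlib
import Pool.Agent.Helper682.HU.H1

set_option autoImplicit false

namespace Pool.Agent.Helper682.HU

open MeasureTheory Finset

/-- data of the selection polynomial -/
structure Sel (N : ℕ) (P : ℝ → ℝ) (c : ℤ → ℂ) : Prop where
  rep : ∀ t : ℝ, (P t : ℂ) = ∑ n ∈ Icc (-(N:ℤ)) N, c n * ee (n * t)
  nonneg : ∀ t, 0 ≤ P t
  le_one : ∀ t, P t ≤ 1

def PP (P : ℝ → ℝ) (d : Bool) (t : ℝ) : ℝ := if d then P t else 1 - P t

def sh (d : Bool) (s : ℝ) : ℝ := if d then s else 0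

noncomputable def cc (c : ℤ → ℂ) (d : Bool) (n : ℤ) : ℂ := if d then c n else (if n = 0 then 1 else 0) - c n

noncomputable def PC (N : ℕ) (c : ℤ → ℂ) (d : Bool) (t : ℂ) : ℂ := ∑ n ∈ Icc (-(N:ℤ)) N, cc c d n * ee (n * t)

noncomputable def AA (N : ℕ) (c : ℤ → ℂ) : ℝ := 1 + ∑ n ∈ Icc (-(N:ℤ)) N, ‖c n‖

theorem AA_one (N : ℕ) (c : ℤ → ℂ) : 1 ≤ AA N c := by
  unfold AA
  have : 0 ≤ ∑ n ∈ Icc (-(N:ℤ)) N, ‖c n‖ := Finset.sum_nonneg fun _ _ => norm_nonneg _
  linarith

theorem cc_sum (N : ℕ) (c : ℤ → ℂ) (d : Bool) : ∑ n ∈ Icc (-(N:ℤ)) N, ‖cc c d n‖ ≤ AA N c := by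
  unfold AA cc
  cases d
  · simp only [Bool.false_eq_true, if_false]
    have h1 : ∑ n ∈ Icc (-(N:ℤ)) N, ‖(if n = 0 then (1:ℂ) else 0) - c n‖ ≤
        ∑ n ∈ Icc (-(N:ℤ)) N, ((if n = 0 then (1:ℝ) else 0) + ‖c n‖) := by
      apply Finset.sum_le_sum
      intro n _
      refine (norm_sub_le _ _).trans ?_
      split_ifs <;> simp
    refine h1.trans ?_
    rw [Finset.sum_add_distrib, Finset.sum_ite_eq']
    split_ifs
    · exact le_rfl
    · linarith
  · simp only [if_true]
    linarith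

section
variable {N : ℕ} {P : ℝ → ℝ} {c : ℤ → ℂ} (hP : Sel N P c)
include hP

theorem PC_real (d : Bool) (t : ℝ) : PC N c d t = (PP P d t : ℂ) := by
  unfold PC PP cc
  cases d
  · simp only [Bool.false_eq_true, if_false, sub_mul]
    rw [Finset.sum_sub_distrib, ← hP.rep]
    push_cast
    congr 1
    have : ∀ n : ℤ, (if n = 0 then (1:ℂ) else 0) * ee (n * t) = if n = 0 then 1 else 0 := by
      intro n
      split_ifs with h
      · rw [h]; simp [ee_zero]
      · simp
    simp only [this]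
    rw [Finset.sum_ite_eq', if_pos]
    simp
  · simp only [if_true]
    exact (hP.rep t).symm

theorem PP_nonneg (d : Bool) (t : ℝ) : 0 ≤ PP P d t := by
  unfold PP
  have := hP.le_one t
  have := hP.nonneg t
  split_ifs <;> linarith

theorem PP_le (d : Bool) (t : ℝ) : PP P d t ≤ 1 := by
  unfold PP
  have := hP.le_one t
  have := hP.nonneg t
  split_ifs <;> linarith

theorem PP_TP (d : Bool) : TP N (fun t => (PP P d t : ℂ)) := by
  refine ⟨{n : ℤ // n ∈ Icc (-(N:ℤ)) N}, inferInstance, fun n => cc c d n.1, fun n => n.1, ?_, ?_⟩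
  · rintro ⟨n, hn⟩
    rw [Finset.mem_Icc] at hn
    exact abs_le.2 hn
  · intro t
    beta_reduce
    rw [← PC_real hP]
    unfold PC
    exact (Finset.sum_coe_sort (Icc (-(N:ℤ)) N) (fun n => cc c d n * ee (n * t))).symm

end

/-- complexified packets -/
noncomputable def GC (N : ℕ) (c : ℤ → ℂ) (B : ℕ) : List Bool → (Fin 3 → ℂ) → ℝ → ℂ
  | [], _, _ => 1
  | d :: S, z, s => GC N c B S z s * PC N c d (dz (Xi B S) z + sh d s)

theorem GC_rep (N : ℕ) (c : ℤ → ℂ) (B : ℕ) (S : List Bool) :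
    ∃ (I : Type) (_ : Fintype I) (a : I → ℂ) (ξ : I → Fin 3 → ℤ) (m : I → ℤ),
      (∀ i, Reach N B S (ξ i) (m i)) ∧ ∑ i, ‖a i‖ ≤ AA N c ^ S.length ∧
      ∀ z s, GC N c B S z s = ∑ i, a i * ee (dz (ξ i) z + m i * s) := by
  induction S with
  | nil =>
    refine ⟨Unit, inferInstance, fun _ => 1, fun _ => 0, fun _ => 0, fun _ => Reach.nil, by simp, ?_⟩
    intro z s
    simp [GC, dz_zero, ee_zero]
  | cons d S ih =>
    obtain ⟨I, hI, a, ξ, m, hR, hA, hrep⟩ := ih
    refine ⟨I × {n : ℤ // n ∈ Icc (-(N:ℤ)) N}, inferInstance, fun p => a p.1 * cc c d p.2.1,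
      fun p => ξ p.1 + p.2.1 • Xi B S, fun p => m p.1 + (if d then p.2.1 else 0), ?_, ?_, ?_⟩
    · rintro ⟨i, n, hn⟩
      rw [Finset.mem_Icc] at hn
      exact Reach.cons d S _ _ n (hR i) (abs_le.2 hn)
    · rw [Fintype.sum_prod_type, List.length_cons, pow_succ]
      simp only [norm_mul]
      have h1 : ∀ i, ∑ n : {n : ℤ // n ∈ Icc (-(N:ℤ)) N}, ‖a i‖ * ‖cc c d n.1‖ =
          ‖a i‖ * ∑ n ∈ Icc (-(N:ℤ)) N, ‖cc c d n‖ := by
        intro i
        rw [← Finset.mul_sum]
        congr 1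
        exact Finset.sum_coe_sort (Icc (-(N:ℤ)) N) (fun n => ‖cc c d n‖)
      simp only [h1]
      rw [← Finset.sum_mul]
      have h2 := cc_sum N c d
      have h3 : 0 ≤ ∑ n ∈ Icc (-(N:ℤ)) N, ‖cc c d n‖ := Finset.sum_nonneg fun _ _ => norm_nonneg _
      have h4 : 0 ≤ AA N c ^ S.length := pow_nonneg (by linarith [AA_one N c]) _
      exact mul_le_mul hA h2 h3 h4
    · intro z s
      simp only [GC]
      rw [hrep]
      unfold PC
      rw [← Finset.sum_coe_sort (Icc (-(N:ℤ)) N), Finset.sum_mul_sum, Fintype.sum_prod_type]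
      congr 1; funext i; congr 1; funext n
      rw [dz_add, dz_smul]
      have : dz (ξ i) z + (n.1 : ℂ) * dz (Xi B S) z + ((m i + (if d then n.1 else 0) : ℤ) : ℂ) * s =
          (dz (ξ i) z + m i * s) + n.1 * (dz (Xi B S) z + sh d s) := by
        unfold sh
        cases d
        · simp; ring
        · simp; ring
      rw [this, ee_add (dz (ξ i) z + m i * s)]
      ring

noncomputable def hC (N : ℕ) (c : ℤ → ℂ) (B : ℕ) (S : List Bool) (z : Fin 3 → ℂ) : ℂ :=
  ∫ s in (0:ℝ)..1, GC N c B S z s * ee (-s)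

theorem hC_rep (N : ℕ) (c : ℤ → ℂ) (B : ℕ) (S : List Bool) :
    ∃ (I : Type) (_ : Fintype I) (a : I → ℂ) (ξ : I → Fin 3 → ℤ),
      (∀ i, Reach N B S (ξ i) 1) ∧ ∑ i, ‖a i‖ ≤ AA N c ^ S.length ∧
      ∀ z, hC N c B S z = ∑ i, a i * ee (dz (ξ i) z) := by
  classical
  obtain ⟨I, hI, a, ξ, m, hR, hA, hrep⟩ := GC_rep N c B S
  refine ⟨{i : I // m i = 1}, inferInstance, fun i => a i.1, fun i => ξ i.1, ?_, ?_, ?_⟩
  · rintro ⟨i, hi⟩
    have := hR i
    rwa [hi] at this
  · refine le_trans ?_ hA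
    have : ∑ i : {i : I // m i = 1}, ‖a i.1‖ = ∑ i ∈ Finset.univ.filter (fun i => m i = 1), ‖a i‖ := by
      symm
      apply Finset.sum_subtype
      intro x; simp
    rw [this]
    exact Finset.sum_le_sum_of_subset_of_nonneg (Finset.filter_subset _ _) fun _ _ _ => norm_nonneg _
  · intro z
    have hec := ee_cont
    unfold hC
    have h1 : ∀ s : ℝ, GC N c B S z s * ee (-s) = ∑ i, a i * ee (dz (ξ i) z) * ee (((m i - 1 : ℤ) : ℂ) * s) := by
      intro s
      rw [hrep, Finset.sum_mul]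
      congr 1; funext i
      rw [mul_assoc, mul_assoc, ← ee_add, ← ee_add]
      congr 2
      push_cast
      ring
    simp only [h1]
    rw [intervalIntegral.integral_finsetSum]
    · simp only [intervalIntegral.integral_const_mul, int_ee]
      have h2 : ∀ i, a i * ee (dz (ξ i) z) * (if m i - 1 = 0 then (1:ℂ) else 0) =
          if m i = 1 then a i * ee (dz (ξ i) z) else 0 := by
        intro i
        by_cases h : m i = 1
        · simp [h]
        · have : ¬ (m i - 1 = 0) := by omega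
          simp [h, this]
      simp only [h2]
      rw [← Finset.sum_filter]
      apply Finset.sum_subtype
      intro x; simp
    · intro i _
      apply Continuous.intervalIntegrable
      fun_prop

/-- the test function -/
noncomputable def FF (N : ℕ) (c : ℤ → ℂ) (B K : ℕ) (z : Fin 3 → ℂ) : ℂ :=
  Complex.I * ∑ k ∈ range K, ∑ S ∈ Bk k, ee (dz (Xi B S) z) * hC N c B S z

/-- frequencies of the test function -/
def Good (N B K : ℕ) (ξ : Fin 3 → ℤ) : Prop :=
  ∃ (S : List Bool) (ζ : Fin 3 → ℤ), S.length < K ∧ Reach N B S ζ 1 ∧ ξ = Xi B S + ζ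

def ES (Q : (Fin 3 → ℤ) → Prop) (F : (Fin 3 → ℂ) → ℂ) : Prop :=
  ∃ (I : Type) (_ : Fintype I) (a : I → ℂ) (ξ : I → Fin 3 → ℤ), (∀ i, Q (ξ i)) ∧ ∀ z, F z = ∑ i, a i * ee (dz (ξ i) z)

theorem ES.zero {Q : (Fin 3 → ℤ) → Prop} : ES Q (fun _ => 0) :=
  ⟨Empty, inferInstance, fun i => i.elim, fun i => i.elim, fun i => i.elim, fun z => by simp⟩

theorem ES.add {Q : (Fin 3 → ℤ) → Prop} {F G : (Fin 3 → ℂ) → ℂ} (hF : ES Q F) (hG : ES Q G) : ES Q (fun z => F z + G z) := by
  obtain ⟨I, hI, a, n, hn, hf⟩ := hF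
  obtain ⟨J, hJ, b, m, hm, hg⟩ := hG
  refine ⟨I ⊕ J, inferInstance, Sum.elim a b, Sum.elim n m, ?_, ?_⟩
  · rintro (i | j)
    · exact hn i
    · exact hm j
  · intro t
    beta_reduce
    rw [hf, hg, Fintype.sum_sum_type]
    rfl

theorem ES.const_mul {Q : (Fin 3 → ℤ) → Prop} {F : (Fin 3 → ℂ) → ℂ} (hF : ES Q F) (w : ℂ) : ES Q (fun z => w * F z) := by
  obtain ⟨I, hI, a, n, hn, hf⟩ := hF
  refine ⟨I, hI, fun i => w * a i, n, hn, fun z => ?_⟩
  beta_reduce
  rw [hf, Finset.mul_sum]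
  congr 1; funext i; ring

theorem ES.sum {Q : (Fin 3 → ℤ) → Prop} {α : Type} (s : Finset α) (F : α → (Fin 3 → ℂ) → ℂ)
    (hF : ∀ i ∈ s, ES Q (F i)) : ES Q (fun z => ∑ i ∈ s, F i z) := by
  classical
  induction s using Finset.induction_on with
  | empty => simpa using ES.zero
  | insert a s ha ih =>
    have h1 := (hF a (Finset.mem_insert_self _ _)).add (ih fun i hi => hF i (Finset.mem_insert_of_mem hi))
    have h2 : (fun z => ∑ i ∈ insert a s, F i z) = fun z => F a z + ∑ i ∈ s, F i z := by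
      funext z; rw [Finset.sum_insert ha]
    rw [h2]; exact h1

theorem FF_rep (N : ℕ) (c : ℤ → ℂ) (B K : ℕ) : ES (Good N B K) (FF N c B K) := by
  unfold FF
  apply ES.const_mul
  apply ES.sum
  intro k hk
  apply ES.sum
  intro S hS
  obtain ⟨I, hI, a, ξ, hR, hA, hrep⟩ := hC_rep N c B S
  refine ⟨I, hI, a, fun i => Xi B S + ξ i, ?_, ?_⟩
  · intro i
    refine ⟨S, ξ i, ?_, hR i, rfl⟩
    rw [mem_Bk.1 hS]
    exact Finset.mem_range.1 hk
  · intro z
    beta_reduce
    rw [hrep, Finset.mul_sum]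
    congr 1; funext i
    rw [dz_add, ee_add]
    ring

/-- weights along a path -/
noncomputable def wt : List Bool → List Bool → ℝ
  | [], _ => 0
  | d :: T, S => if S = T then Real.exp (-(2 * Real.pi * (1 + if d then 1 else 0))) else wt T S

theorem wt_cases (T S : List Bool) : (∃ (U : List Bool) (d : Bool), T = U ++ d :: S ∧
    wt T S = Real.exp (-(2 * Real.pi * (1 + if d then 1 else 0)))) ∨ ((S = T ∨ ¬ S <:+ T) ∧ wt T S = 0) := by
  induction T with
  | nil =>
    right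
    refine ⟨?_, rfl⟩
    cases S with
    | nil => left; rfl
    | cons a S => right; simp
  | cons d T ih =>
    by_cases hST : S = T
    · left
      refine ⟨[], d, by simp [hST], ?_⟩
      simp [wt, hST]
    · have e : wt (d :: T) S = wt T S := by simp [wt, hST]
      rw [e]
      rcases ih with ⟨U, d', hU, hw⟩ | ⟨hS, hw⟩
      · left
        exact ⟨d :: U, d', by simp [hU], hw⟩
      · right
        refine ⟨?_, hw⟩
        rcases hS with hS | hS
        · exact absurd hS hST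
        · by_cases h2 : S = d :: T
          · left; exact h2
          · right
            intro h3
            rw [List.suffix_cons_iff] at h3
            rcases h3 with h3 | h3
            · exact h2 h3
            · exact hS h3

theorem wt_len {T S : List Bool} (h : T.length ≤ S.length) : wt T S = 0 := by
  induction T with
  | nil => rfl
  | cons d T ih =>
    have h1 : S ≠ T := by rintro rfl; simp at h
    simp only [wt, h1, if_false]
    exact ih (by simp at h; omega)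

end Pool.Agent.Helper682.HU
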