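import Mathlib
import Pool.Agent.Helper682.HU.H3

set_option autoImplicit false

namespace Pool.Agent.Helper682.HU
open MeasureTheory Finset

theorem code_inj_aux_HN : ∀ S T : List Bool, code S = code T → S = T := by
  intro S
  induction S with
  | nil =>
    intro T h
    cases T with
    | nil => rfl
    | cons d T =>
      have := code_pos T
      simp only [code] at h
      omega
  | cons d S ih =>
    intro T h
    cases T with
    | nil =>
      have := code_pos S
      simp only [code] at h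
      omega
    | cons e T =>
      simp only [code] at h
      cases d <;> cases e
      · simp only [Bool.false_eq_true, if_false, add_zero] at h
        rw [ih T (by omega)]
      · simp only [Bool.false_eq_true, if_false, if_true, add_zero] at h
        omega
      · simp only [Bool.false_eq_true, if_false, if_true, add_zero] at h
        omega
      · simp only [if_true] at h
        rw [ih T (by omega)]

theorem freq_lt_HN {N B : ℕ} (hB2 : 4 ≤ B) (hB : 16 * N + 16 < B ^ 2) {S S1 : List Bool}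
    (hc : code S < code S1) {ξ η : Fin 3 → ℤ} (h : Reach N B S ξ 1) (h1 : Reach N B S1 η 1) :
    (((Xi B S + ξ) 2 : ℤ) : ℝ) < (((Xi B S1 + η) 2 : ℤ) : ℝ) := by
  obtain ⟨c, -, -, hc1, -, hc2, -, -⟩ := reach_form hB2 h
  obtain ⟨c', -, -, hc1', -, hc2', -, -⟩ := reach_form hB2 h1
  have e1 : ((Xi B S + ξ) 2 : ℤ) = (B : ℤ) ^ (2 * code S) + ξ 2 := by simp [Xi]
  have e2 : ((Xi B S1 + η) 2 : ℤ) = (B : ℤ) ^ (2 * code S1) + η 2 := by simp [Xi]
  rw [e1, e2]
  push_cast
  rw [← hc1, ← hc1']
  have hp := code_pos S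
  set Y : ℝ := (B : ℝ) ^ (2 * (code S - 1)) with hY
  set X : ℝ := (B : ℝ) ^ (2 * (code S1 - 1)) with hX
  have hBr : (4 : ℝ) ≤ B := by exact_mod_cast hB2
  have f1 : (B : ℝ) ^ (2 * code S) = (B : ℝ) ^ 2 * Y := by
    rw [hY, ← pow_add]; congr 1; omega
  have f2 : (B : ℝ) ^ (2 * code S1) = (B : ℝ) ^ 2 * X := by
    rw [hX, ← pow_add]; congr 1; omega
  have f3 : (B : ℝ) ^ 2 * Y ≤ X := by
    rw [← f1, hX]
    exact pow_le_pow_right₀ (by linarith) (by omega)
  have hBN : (16 : ℝ) * N + 16 < (B : ℝ) ^ 2 := by exact_mod_cast hB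
  have hN : (0 : ℝ) ≤ N := by positivity
  have hY0 : 0 < Y := by positivity
  have hX0 : 0 < X := by positivity
  rw [f1, f2]
  have g1 := (abs_le.1 hc2).2
  have g2 := (abs_le.1 hc2').1
  have hYX : Y ≤ X := by nlinarith
  have g3 : (16 * N + 16 : ℝ) * X < (B : ℝ) ^ 2 * X := mul_lt_mul_of_pos_right hBN hX0
  have g4 : (N : ℝ) * Y ≤ N * X := mul_le_mul_of_nonneg_left hYX hN
  have g5 : 0 ≤ (N : ℝ) * X := by positivity
  nlinarith

theorem freq_ne_HN {N B : ℕ} (hB2 : 4 ≤ B) (hB : 16 * N + 16 < B ^ 2) {S S1 : List Bool}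
    (hne : S ≠ S1) {ξ η : Fin 3 → ℤ} (h : Reach N B S ξ 1) (h1 : Reach N B S1 η 1) :
    Xi B S + ξ ≠ Xi B S1 + η := by
  intro heq
  rcases lt_trichotomy (code S) (code S1) with hlt | heqc | hgt
  · have := freq_lt_HN hB2 hB hlt h h1
    rw [heq] at this
    exact lt_irrefl _ this
  · exact hne (code_inj_aux_HN _ _ heqc)
  · have := freq_lt_HN hB2 hB hgt h1 h
    rw [heq] at this
    exact lt_irrefl _ this

section
variable {N : ℕ} {P : ℝ → ℝ} {c : ℤ → ℂ} (hP : Sel N P c)
include hP

noncomputable def uS_HN (P : ℝ → ℝ) (B : ℕ) (S : List Bool) (x : Fin 3 → ℝ) : ℂ :=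
  ee (dr (Xi B S) x) * hR P B S x

theorem uS_cont_HN (B : ℕ) (S : List Bool) : Continuous (uS_HN P B S) := by
  have h1 := hR_cont hP B S
  have h2 : Continuous fun x => ee (dr (Xi B S) x) := by
    have := ee_cont
    have := dr_cont (Xi B S)
    fun_prop
  exact h2.mul h1

theorem uS_norm_HN (B : ℕ) (S : List Bool) (x : Fin 3 → ℝ) : ‖uS_HN P B S x‖ ≤ gR P B S x := by
  unfold uS_HN
  rw [norm_mul, ee_norm_real, one_mul]
  exact hR_le hP B S x

theorem uS_rep_HN (B : ℕ) (S : List Bool) :
    ∃ (I : Type) (_ : Fintype I) (a : I → ℂ) (ξ : I → Fin 3 → ℤ),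
      (∀ i, Reach N B S (ξ i) 1) ∧ ∀ x, uS_HN P B S x = ∑ i, a i * ee (dr (Xi B S + ξ i) x) := by
  obtain ⟨I, hI, a, ξ, hR1, -, hrep⟩ := hC_rep N c B S
  refine ⟨I, hI, a, ξ, hR1, fun x => ?_⟩
  unfold uS_HN
  rw [← hC_real hP, hrep, Finset.mul_sum]
  apply Finset.sum_congr rfl
  intro i _
  rw [dz_real, dr_add]
  push_cast
  rw [ee_add]
  ring

theorem orth_uS_HN {B : ℕ} (hB2 : 4 ≤ B) (hB : 16 * N + 16 < B ^ 2) {S S1 : List Bool} (hne : S ≠ S1) :
    ∫ x in cube, uS_HN P B S x * (starRingEnd ℂ) (uS_HN P B S1 x) = 0 := by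
  obtain ⟨I, hI, a, ξ, hξ, hr⟩ := uS_rep_HN hP B S
  obtain ⟨J, hJ, b, η, hη, hr'⟩ := uS_rep_HN hP B S1
  have h1 : ∀ x : Fin 3 → ℝ, uS_HN P B S x * (starRingEnd ℂ) (uS_HN P B S1 x) =
      ∑ i, ∑ j, (a i * (starRingEnd ℂ) (b j)) * ee (dr ((Xi B S + ξ i) - (Xi B S1 + η j)) x) := by
    intro x
    rw [hr, hr', map_sum, Finset.sum_mul_sum]
    apply Finset.sum_congr rfl
    intro i _
    apply Finset.sum_congr rfl
    intro j _
    rw [map_mul, ← LE.ee_conj]
    ring
  simp only [h1]
  have hint : ∀ ζ : Fin 3 → ℤ, IntegrableOn (fun x : Fin 3 → ℝ => ee (dr ζ x)) cube := fun ζ =>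
    LE.intOn (LE.cont_ee ζ)
  rw [integral_finsetSum]
  · apply Finset.sum_eq_zero
    intro i _
    rw [integral_finsetSum]
    · apply Finset.sum_eq_zero
      intro j _
      rw [integral_const_mul, orth, if_neg, mul_zero]
      exact sub_ne_zero.2 (freq_ne_HN hB2 hB hne (hξ i) (hη j))
    · intro j _
      exact (hint _).const_mul _
  · intro i _
    exact integrable_finsetSum _ fun j _ => (hint _).const_mul _

theorem pythag_HN {B : ℕ} (hB2 : 4 ≤ B) (hB : 16 * N + 16 < B ^ 2) (Z : Finset (List Bool)) :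
    ∫ x in cube, ‖∑ S ∈ Z, uS_HN P B S x‖ ^ 2 = ∑ S ∈ Z, ∫ x in cube, ‖uS_HN P B S x‖ ^ 2 := by
  have hcont := uS_cont_HN hP B
  have h1 : ∀ x : Fin 3 → ℝ, ((‖∑ S ∈ Z, uS_HN P B S x‖ ^ 2 : ℝ) : ℂ) =
      ∑ S ∈ Z, ∑ S1 ∈ Z, uS_HN P B S x * (starRingEnd ℂ) (uS_HN P B S1 x) := by
    intro x
    rw [← Complex.normSq_eq_norm_sq, ← Complex.mul_conj, map_sum, Finset.sum_mul_sum]
  have hint : ∀ S S1, IntegrableOn (fun x => uS_HN P B S x * (starRingEnd ℂ) (uS_HN P B S1 x)) cube := by
    intro S S1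
    apply LE.intOn
    exact (hcont S).mul (Complex.continuous_conj.comp (hcont S1))
  have h2 : ((∫ x in cube, ‖∑ S ∈ Z, uS_HN P B S x‖ ^ 2 : ℝ) : ℂ) =
      ((∑ S ∈ Z, ∫ x in cube, ‖uS_HN P B S x‖ ^ 2 : ℝ) : ℂ) := by
    rw [← integral_complex_ofReal]
    simp only [h1]
    rw [integral_finsetSum]
    · push_cast
      apply Finset.sum_congr rfl
      intro S hS
      rw [integral_finsetSum]
      · rw [Finset.sum_eq_single S]
        · rw [← integral_complex_ofReal]
          apply integral_congr_ae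
          apply Filter.Eventually.of_forall
          intro x
          beta_reduce
          rw [Complex.mul_conj, Complex.normSq_eq_norm_sq]
        · intro S1 _ hne
          exact orth_uS_HN hP hB2 hB hne.symm
        · intro h
          exact absurd hS h
      · intro S1 _
        exact hint S S1
    · intro S _
      exact integrable_finsetSum _ fun S1 _ => hint S S1
  exact_mod_cast h2

/-- the sum over one generation of the squares of the packets -/
theorem gen_bound_HN {B : ℕ} (hB2 : 4 ≤ B) (hB : 16 * N + 16 < B ^ 2) (k : ℕ) :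
    ∑ S ∈ Bk k, ∫ x in cube, gR P B S x ^ 2 = bb P k := by
  have hPc := P_cont hP
  have hgc : ∀ S, Continuous (gR P B S) := gR_cont hP B
  -- joint continuity
  have hH3 : ∀ S, Continuous fun p : ((Fin 3 → ℝ) × ℝ) × ℝ =>
      GR P B (fun _ => p.1.2) S p.1.1 * GR P B (fun _ => p.2) S p.1.1 := by
    intro S
    have h := GR_cont' hP B S
    have a1 : Continuous fun p : ((Fin 3 → ℝ) × ℝ) × ℝ => GR P B (fun _ => p.1.2) S p.1.1 :=
      h.comp continuous_fst
    have a2 : Continuous fun p : ((Fin 3 → ℝ) × ℝ) × ℝ => GR P B (fun _ => p.2) S p.1.1 :=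
      h.comp ((continuous_fst.comp continuous_fst).prodMk continuous_snd)
    exact a1.mul a2
  set H : (Fin 3 → ℝ) → ℝ → ℝ → ℝ := fun x s t =>
    ∑ S ∈ Bk k, GR P B (fun _ => s) S x * GR P B (fun _ => t) S x with hH
  have hHc : Continuous fun p : ((Fin 3 → ℝ) × ℝ) × ℝ => H p.1.1 p.1.2 p.2 :=
    continuous_finsetSum _ fun S _ => hH3 S
  have e1 : ∑ S ∈ Bk k, ∫ x in cube, gR P B S x ^ 2 = ∫ x in cube, ∑ S ∈ Bk k, gR P B S x ^ 2 := by
    rw [integral_finsetSum]
    intro S _
    exact cint ((hgc S).pow 2)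
  have e2 : ∀ x, ∑ S ∈ Bk k, gR P B S x ^ 2 = ∫ s in (0:ℝ)..1, ∫ t in (0:ℝ)..1, H x s t := by
    intro x
    have k1 : ∀ s, ∫ t in (0:ℝ)..1, H x s t = ∑ S ∈ Bk k, GR P B (fun _ => s) S x * gR P B S x := by
      intro s
      rw [hH]
      simp only
      rw [intervalIntegral.integral_finsetSum]
      · apply Finset.sum_congr rfl
        intro S _
        rw [intervalIntegral.integral_const_mul]
        rfl
      · intro S _
        apply Continuous.intervalIntegrable
        exact (hH3 S).comp (Continuous.prodMk_right (x, s))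
    simp only [k1]
    rw [intervalIntegral.integral_finsetSum]
    · apply Finset.sum_congr rfl
      intro S _
      rw [intervalIntegral.integral_mul_const, sq]
      rfl
    · intro S _
      apply Continuous.intervalIntegrable
      exact ((GR_cont' hP B S).comp (Continuous.prodMk_right x)).mul continuous_const
  have e3 : ∫ x in cube, ∑ S ∈ Bk k, gR P B S x ^ 2 =
      ∫ s in (0:ℝ)..1, ∫ t in (0:ℝ)..1, ∫ x in cube, H x s t := by
    simp only [e2]
    rw [swap (fun x s => ∫ t in (0:ℝ)..1, H x s t)]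
    · congr 1
      funext s
      apply swap (fun x t => H x s t)
      exact hHc.comp ((continuous_fst.prodMk continuous_const).prodMk continuous_snd)
    · exact par_cont (fun (p : (Fin 3 → ℝ) × ℝ) t => H p.1 p.2 t) hHc
  have e4 : ∀ s t : ℝ, ∫ x in cube, H x s t = aa P (t - s) ^ k := by
    intro s t
    rw [hH]
    simp only
    rw [integral_finsetSum]
    swap
    · intro S _
      apply cint
      exact (hH3 S).comp ((continuous_id.prodMk continuous_const).prodMk continuous_const)
    have k1 : ∀ S x, GR P B (fun _ => s) S x * GR P B (fun _ => t) S x =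
        Wf B (fun _ d r => PP P d (r + sh d s) * PP P d (r + sh d t)) S x := by
      intro S x
      unfold GR
      rw [Wf_mul]
    simp only [k1]
    have hTP : ∀ (j : ℕ) (d : Bool), TP (N + N)
        (fun r => ((PP P d (r + sh d s) * PP P d (r + sh d t) : ℝ) : ℂ)) := by
      intro j d
      have := ((PP_TP hP d).shift (sh d s)).mul ((PP_TP hP d).shift (sh d t))
      simpa using this
    rw [prod_formula_real (by omega) (by omega : 2 * (N + N) < B ^ 2) hTP k]
    rw [Finset.prod_const, Finset.card_range]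
    congr 1
    unfold aa
    congr 1
    · apply intervalIntegral.integral_congr
      intro r _
      simp [PP, sh]
    · simp only [PP, sh, if_true]
      have hper : Function.Periodic (fun r => P r * P (r + (t - s))) 1 := by
        intro r
        simp only
        rw [show r + 1 + (t - s) = (r + (t - s)) + 1 by ring, P_per hP, P_per hP]
      have k2 : ∀ r, P (r + s) * P (r + t) = (fun r => P r * P (r + (t - s))) (r + s) := by
        intro r
        simp only
        rw [show r + s + (t - s) = r + t by ring]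
      simp only [k2]
      rw [intervalIntegral.integral_comp_add_right (fun r => P r * P (r + (t - s)))]
      have := hper.intervalIntegral_add_eq (0 + s) 0
      rw [zero_add, zero_add] at this
      rw [zero_add, add_comm 1 s]
      exact this
  rw [e1, e3]
  simp only [e4]
  have e5 : ∀ s : ℝ, ∫ t in (0:ℝ)..1, aa P (t - s) ^ k = bb P k := by
    intro s
    have hper : Function.Periodic (fun r => aa P r ^ k) 1 := by
      intro r
      simp only
      rw [aa_per hP]
    rw [intervalIntegral.integral_comp_sub_right (fun r => aa P r ^ k)]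
    have := hper.intervalIntegral_add_eq (0 - s) 0
    rw [zero_add] at this
    unfold bb
    rw [show (1 : ℝ) - s = (0 - s) + 1 by ring]
    exact this
  simp only [e5]
  simp

end

/-- L^2 norm of the test function -/
theorem norm_bound {N B : ℕ} {P : ℝ → ℝ} {c : ℤ → ℂ} (hP : Sel N P c) (hB2 : 4 ≤ B) (hB : 16 * N + 16 < B ^ 2) (K : ℕ) :
    ∫ x in cube, ‖FF N c B K (fun j => (x j : ℂ))‖ ^ 2 ≤ ∑ k ∈ range K, bb P k := by
  classical
  have hdis : (↑(range K) : Set ℕ).PairwiseDisjoint Bk := by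
    intro i _ j _ hij
    rw [Function.onFun, Finset.disjoint_left]
    intro S h1 h2
    exact hij ((mem_Bk.1 h1).symm.trans (mem_Bk.1 h2))
  have h1 : ∀ x : Fin 3 → ℝ, ‖FF N c B K (fun j => (x j : ℂ))‖ ^ 2 =
      ‖∑ S ∈ (range K).biUnion Bk, uS_HN P B S x‖ ^ 2 := by
    intro x
    unfold FF
    rw [norm_mul, Complex.norm_I, one_mul, Finset.sum_biUnion hdis]
    congr 3
    funext k
    apply Finset.sum_congr rfl
    intro S _
    rw [dz_real, hC_real hP]
    rfl
  simp only [h1]
  rw [pythag_HN hP hB2 hB, Finset.sum_biUnion hdis]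
  apply Finset.sum_le_sum
  intro k _
  rw [← gen_bound_HN hP hB2 hB k]
  apply Finset.sum_le_sum
  intro S _
  apply setIntegral_mono_on
  · exact cint ((uS_cont_HN hP B S).norm.pow 2)
  · exact cint ((gR_cont hP B S).pow 2)
  · exact cube_meas
  · intro x _
    have := uS_norm_HN hP B S x
    gcongr

end Pool.Agent.Helper682.HU
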