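import Mathlib
import Pool.Agent.Helper682.HU.H4
import Pool.Agent.Helper682.HU.HP

set_option autoImplicit false

namespace Pool.Agent.Helper682.HU

open MeasureTheory Finset

theorem ES.fin {Q : (Fin 3 → ℤ) → Prop} {F : (Fin 3 → ℂ) → ℂ} (h : ES Q F) :
    ∃ (n : ℕ) (ξ : Fin n → Fin 3 → ℤ) (a : Fin n → ℂ), (∀ i, Q (ξ i)) ∧ ∀ z, F z = EF a ξ z := by
  obtain ⟨I, hI, a, ξ, hQ, hF⟩ := h
  let e := Fintype.equivFin I
  refine ⟨Fintype.card I, fun i => ξ (e.symm i), fun i => a (e.symm i), fun i => hQ _, fun z => ?_⟩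
  rw [hF]
  unfold EF
  exact (Equiv.sum_comp e.symm (fun i => a i * ee (dz (ξ i) z))).symm

theorem EF_cplx {n : ℕ} (a : Fin n → ℂ) (ξ : Fin n → Fin 3 → ℤ) (x y : Fin 3 → ℝ) :
    EF a ξ (cplx x y) = ∑ i, a i * ((Real.exp (-(2 * Real.pi * dr (ξ i) y)) : ℂ) * ee (dr (ξ i) x)) := by
  unfold EF
  apply Finset.sum_congr rfl
  intro i _
  have : dz (ξ i) (cplx x y) = dr (ξ i) x + dr (ξ i) y * Complex.I := dz_im _ _ _
  rw [this, ee_im]

theorem dr_add_y (ξ : Fin 3 → ℤ) (y y' : Fin 3 → ℝ) : dr ξ (y + y') = dr ξ y + dr ξ y' := by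
  unfold dr
  rw [← Finset.sum_add_distrib]
  apply Finset.sum_congr rfl
  intro i _
  simp only [Pi.add_apply]
  ring

theorem dr_smul_y (ξ : Fin 3 → ℤ) (r : ℝ) (y : Fin 3 → ℝ) : dr ξ (r • y) = r * dr ξ y := by
  unfold dr
  rw [Finset.mul_sum]
  apply Finset.sum_congr rfl
  intro i _
  simp only [Pi.smul_apply, smul_eq_mul]
  ring

theorem cone_yv (t δ : ℝ) (hδ : 0 < δ) : cone (yv t + δ • e1) := by
  unfold cone yv e1
  simp
  constructor
  · linarith
  · nlinarith [sq_nonneg t]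

theorem dr_yv_nonneg {ξ : Fin 3 → ℤ} (h : ∀ y, cone y → 0 < dr ξ y) (t : ℝ) : 0 ≤ dr ξ (yv t) := by
  by_contra hneg
  push Not at hneg
  have h1 : 0 < -(dr ξ (yv t)) / (|dr ξ e1| + 1) := by
    apply div_pos (by linarith)
    positivity
  have h2 := h _ (cone_yv t _ h1)
  rw [dr_add_y, dr_smul_y] at h2
  have h3 : -(dr ξ (yv t)) / (|dr ξ e1| + 1) * dr ξ e1 ≤ -(dr ξ (yv t)) := by
    rw [div_mul_eq_mul_div, div_le_iff₀ (by positivity)]
    have h4 : 0 < -(dr ξ (yv t)) := by linarith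
    have h5 := le_abs_self (dr ξ e1)
    nlinarith
  linarith

/-- moving slightly inside the cone -/
theorem push_in {n : ℕ} (a : Fin n → ℂ) (ξ : Fin n → Fin 3 → ℤ) (hξ : ∀ i y, cone y → 0 < dr (ξ i) y) (η : ℝ) (hη : 0 < η) :
    ∃ δ : ℝ, 0 < δ ∧ ∀ (t : ℝ) (x : Fin 3 → ℝ), ‖EF a ξ (cplx x (yv t + δ • e1)) - EF a ξ (cplx x (yv t))‖ ≤ η := by
  have hpi := Real.pi_pos
  set M : ℝ := ∑ i, ‖a i‖ * (2 * Real.pi * |dr (ξ i) e1|) with hM
  have hM0 : 0 ≤ M := Finset.sum_nonneg fun i _ => by positivity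
  refine ⟨η / (M + 1), by positivity, fun t x => ?_⟩
  set δ := η / (M + 1) with hδ
  have hδ0 : 0 < δ := by positivity
  rw [EF_cplx, EF_cplx, ← Finset.sum_sub_distrib]
  refine (norm_sum_le _ _).trans ?_
  have h1 : ∀ i ∈ (Finset.univ : Finset (Fin n)), ‖a i * ((Real.exp (-(2 * Real.pi * dr (ξ i) (yv t + δ • e1))) : ℂ) * ee (dr (ξ i) x)) -
      a i * ((Real.exp (-(2 * Real.pi * dr (ξ i) (yv t))) : ℂ) * ee (dr (ξ i) x))‖ ≤
        ‖a i‖ * (2 * Real.pi * |dr (ξ i) e1|) * δ := by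
    intro i _
    have e : a i * ((Real.exp (-(2 * Real.pi * dr (ξ i) (yv t + δ • e1))) : ℂ) * ee (dr (ξ i) x)) -
      a i * ((Real.exp (-(2 * Real.pi * dr (ξ i) (yv t))) : ℂ) * ee (dr (ξ i) x)) =
      a i * (((Real.exp (-(2 * Real.pi * dr (ξ i) (yv t + δ • e1))) - Real.exp (-(2 * Real.pi * dr (ξ i) (yv t))) : ℝ) : ℂ) *
        ee (dr (ξ i) x)) := by push_cast; ring
    rw [e, norm_mul, norm_mul, ee_norm_real, mul_one, Complex.norm_real, Real.norm_eq_abs,
      show ‖a i‖ * (2 * Real.pi * |dr (ξ i) e1|) * δ = ‖a i‖ * (2 * Real.pi * |dr (ξ i) e1| * δ) by ring]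
    apply mul_le_mul_of_nonneg_left _ (norm_nonneg _)
    have h2 := exp_diff (a := 2 * Real.pi * dr (ξ i) (yv t + δ • e1)) (b := 2 * Real.pi * dr (ξ i) (yv t))
      (mul_nonneg (by positivity) (hξ i _ (cone_yv t δ hδ0)).le) (mul_nonneg (by positivity) (dr_yv_nonneg (hξ i) t))
    refine h2.trans ?_
    rw [dr_add_y, dr_smul_y]
    have : 2 * Real.pi * (dr (ξ i) (yv t) + δ * dr (ξ i) e1) - 2 * Real.pi * dr (ξ i) (yv t) =
        2 * Real.pi * dr (ξ i) e1 * δ := by ring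
    rw [this, abs_mul, abs_mul, abs_of_pos (by positivity : (0:ℝ) < 2 * Real.pi), abs_of_pos hδ0]
  refine (Finset.sum_le_sum h1).trans ?_
  rw [← Finset.sum_mul, ← hM, hδ, mul_div_assoc', div_le_iff₀ (by positivity)]
  nlinarith

noncomputable def kap : ℝ := (wd false - wd true) / (64 * Real.pi)

theorem kap_pos : 0 < kap := by
  unfold kap wd
  have hpi := Real.pi_pos
  apply div_pos _ (by positivity)
  rw [sub_pos]
  apply Real.exp_lt_exp.2
  simp only [Bool.false_eq_true, if_false, if_true]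
  nlinarith

/-- existence of the humps -/
theorem KT (C : ℝ) : ∃ (n : ℕ) (ξ : Fin n → Fin 3 → ℤ) (a : Fin n → ℂ) (Y : Finset (Fin 3 → ℝ)),
      (∀ i y, cone y → 0 < dr (ξ i) y) ∧ (∀ y ∈ Y, cone y) ∧
      (∀ y, cone y → ∫ x in cube, ‖EF a ξ (cplx x y)‖ ^ 2 ≤ 1) ∧
      ENNReal.ofReal (kap ^ 2 / 108) ≤ volume {x | x ∈ cube ∧ ∃ y ∈ Y, C < ‖EF a ξ (cplx x y)‖} := by
  classical
  have hk := kap_pos
  -- choice of K
  obtain ⟨K, hK⟩ : ∃ K : ℕ, max 4 ((5 * (|C| + 1) / kap) ^ 2) ≤ ∑ k ∈ range K, 1 / ((k : ℝ) + 1) := by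
    have h := Real.tendsto_sum_range_one_div_nat_succ_atTop
    exact (h.eventually_ge_atTop _).exists
  set L : ℝ := ∑ k ∈ range K, 1 / ((k : ℝ) + 1) with hL
  have hL4 : 4 ≤ L := (le_max_left _ _).trans hK
  have hLC : (5 * (|C| + 1) / kap) ^ 2 ≤ L := (le_max_right _ _).trans hK
  obtain ⟨N, c, P, hP, hbb, hmean⟩ := choose_P K hL4
  rw [← hL] at hbb hmean
  set E : ℝ := kap * L with hE
  have hE0 : 0 < E := by positivity
  obtain ⟨B1, hB1⟩ := reach_cone (N := N) (K := K)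
  obtain ⟨B2, hB2⟩ := err_bound hP K (E / 16) (by positivity)
  set B := max (max B1 B2) (16 * N + 17) with hBdef
  have hBB1 : B1 ≤ B := (le_max_left _ _).trans (le_max_left _ _)
  have hBB2 : B2 ≤ B := (le_max_right _ _).trans (le_max_left _ _)
  have hB17 : 16 * N + 17 ≤ B := le_max_right _ _
  have hBsq : 16 * N + 17 ≤ B ^ 2 := by nlinarith
  obtain ⟨n, ξ, a, hg, hrep⟩ := (FF_rep N c B K).fin
  have hcone : ∀ i y, cone y → 0 < dr (ξ i) y := by
    intro i y hy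
    obtain ⟨S, ζ, hS, hR, he⟩ := hg i
    rw [he]
    exact hB1 B hBB1 S hS.le ζ hR y hy
  obtain ⟨δ, hδ, hpush⟩ := push_in a ξ hcone (E / 16) (by positivity)
  set w : ℝ := 1 / Real.sqrt (3 * L) with hw
  have hw0 : 0 < w := by positivity
  have hw2 : w ^ 2 = 1 / (3 * L) := by
    rw [hw, div_pow, one_pow, Real.sq_sqrt (by positivity)]
  have hscale : ∀ z, EF (fun i => (w : ℂ) * a i) ξ z = w * EF a ξ z := by
    intro z
    unfold EF
    rw [Finset.mul_sum]
    apply Finset.sum_congr rfl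
    intro i _
    ring
  refine ⟨n, ξ, fun i => (w : ℂ) * a i, (Bk K).image (fun T => yv (th B T) + δ • e1), hcone, ?_, ?_, ?_⟩
  · intro y hy
    rw [Finset.mem_image] at hy
    obtain ⟨T, _, rfl⟩ := hy
    exact cone_yv _ _ hδ
  · intro y hy
    have h1 := slice_mono ξ a y (fun i => (hcone i y hy).le)
    have h2 := norm_bound hP (B := B) (by omega) (by omega) K
    have h3 : ∀ x, ‖EF (fun i => (w : ℂ) * a i) ξ (cplx x y)‖ ^ 2 = w ^ 2 * ‖∑ i, a i * ee (dz (ξ i) (fun j => (x j : ℂ) + y j * Complex.I))‖ ^ 2 := by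
      intro x
      rw [hscale, norm_mul, mul_pow, Complex.norm_real, Real.norm_of_nonneg hw0.le]
      rfl
    simp only [h3]
    rw [integral_const_mul, hw2]
    have h4 : ∀ x : Fin 3 → ℝ, ‖∑ i, a i * ee (dr (ξ i) x)‖ ^ 2 = ‖FF N c B K (fun j => (x j : ℂ))‖ ^ 2 := by
      intro x
      rw [hrep]
      unfold EF
      congr 2
      apply Finset.sum_congr rfl
      intro i _
      rw [dz_real]
    simp only [h4] at h1
    have h5 := (h1.trans h2).trans hbb
    rw [one_div, inv_mul_le_iff₀ (by positivity)]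
    linarith
  · have hm := mean_formula hP (B := B) (by omega) (by omega) K
    have hs := second_moment hP (B := B) (by omega) (by omega) K
    have hmean' : E ≤ ‖∑ T ∈ Bk K, ∫ x in cube, (pT P B T x : ℂ) * Ft P B T x‖ := by
      rw [hm, hE]; exact hmean
    have hbb0 : 0 ≤ ∑ k ∈ range K, bb P k := Finset.sum_nonneg fun k _ => bb_nonneg hP k
    have hs' : ∑ T ∈ Bk K, ∫ x in cube, pT P B T x * gs P B T x ^ 2 ≤ 27 * L ^ 2 := by
      refine hs.trans ?_
      nlinarith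
    have hpz := pz (Bk K) (fun T => pT P B T) (fun T => Ft P B T) (fun T => gs P B T)
      (fun T _ => pT_cont hP B T) (fun T _ => Ft_cont hP B T) (fun T _ => gs_cont hP B T)
      (fun T _ x => pT_nonneg hP B T x) (fun x => pT_sum hP B K x) (fun T _ x => Ft_le hP B T x)
      E (27 * L ^ 2) hE0 (by positivity) hmean' hs'
    have he : E ^ 2 / (4 * (27 * L ^ 2)) = kap ^ 2 / 108 := by
      rw [hE]
      field_simp
      norm_num
    rw [he] at hpz
    refine hpz.trans (measure_mono ?_)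
    rintro x ⟨hx, T, hT, hTx⟩
    refine ⟨hx, yv (th B T) + δ • e1, Finset.mem_image_of_mem _ hT, ?_⟩
    rw [hscale, norm_mul, Complex.norm_real, Real.norm_of_nonneg hw0.le]
    have h1 := hpush (th B T) x
    have h2 := hB2 B hBB2 T (mem_Bk.1 hT) x
    rw [hrep] at h2
    have h3 : ‖Ft P B T x‖ ≤ ‖EF a ξ (cplx x (yv (th B T) + δ • e1))‖ +
        ‖EF a ξ (cplx x (yv (th B T) + δ • e1)) - EF a ξ (cplx x (yv (th B T)))‖ +
        ‖EF a ξ (cplx x (yv (th B T))) - Ft P B T x‖ := by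
      have : Ft P B T x = EF a ξ (cplx x (yv (th B T) + δ • e1)) -
        (EF a ξ (cplx x (yv (th B T) + δ • e1)) - EF a ξ (cplx x (yv (th B T)))) -
        (EF a ξ (cplx x (yv (th B T))) - Ft P B T x) := by ring
      calc ‖Ft P B T x‖ = ‖EF a ξ (cplx x (yv (th B T) + δ • e1)) -
        (EF a ξ (cplx x (yv (th B T) + δ • e1)) - EF a ξ (cplx x (yv (th B T)))) -
        (EF a ξ (cplx x (yv (th B T))) - Ft P B T x)‖ := by rw [← this]
        _ ≤ _ := (norm_sub_le _ _).trans (add_le_add (norm_sub_le _ _) le_rfl)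
    have h4 : 3 / 8 * E < ‖EF a ξ (cplx x (yv (th B T) + δ • e1))‖ := by linarith
    -- size of w E
    have h5 : |C| + 1 ≤ w * (3 / 8 * E) := by
      set r := Real.sqrt L with hr
      have hr0 : 0 < r := by positivity
      have hr2 : r ^ 2 = L := Real.sq_sqrt (by positivity)
      have h6 : 5 * (|C| + 1) / kap ≤ r := by
        rw [hr]
        exact Real.le_sqrt_of_sq_le hLC
      have h7 : 5 * (|C| + 1) ≤ kap * r := by
        rw [div_le_iff₀ hk] at h6
        linarith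
      have h8 : Real.sqrt (3 * L) ≤ 15 / 8 * r := by
        rw [Real.sqrt_le_left (by positivity)]
        nlinarith
      have h9 : w * (15 / 8 * r) ≥ 1 := by
        rw [hw, ge_iff_le, one_div, le_inv_mul_iff₀ (by positivity)]
        linarith
      have h10 : 3 / 8 * E = 3 / 8 * (kap * r) * r := by rw [hE, ← hr2]; ring
      rw [h10]
      have h11 : w * (3 / 8 * (kap * r) * r) = (w * (15 / 8 * r)) * ((kap * r) / 5) := by ring
      rw [h11]
      have h12 : |C| + 1 ≤ kap * r / 5 := by linarith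
      have h13 : 0 ≤ |C| := abs_nonneg C
      nlinarith
    have h6 : w * (3 / 8 * E) < w * ‖EF a ξ (cplx x (yv (th B T) + δ • e1))‖ := mul_lt_mul_of_pos_left h4 hw0
    have h7 := le_abs_self C
    linarith

end Pool.Agent.Helper682.HU
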