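import Mathlib
import Pool.Agent.Helper682.HU.G0

set_option autoImplicit false

namespace Pool.Agent.Helper682.HU

open MeasureTheory Finset


/-- the linear form -/
noncomputable def LL (ξ : Fin 3 → ℤ) : (Fin 3 → ℂ) →L[ℂ] ℂ :=
  ∑ k, (ξ k : ℂ) • (ContinuousLinearMap.proj k : (Fin 3 → ℂ) →L[ℂ] ℂ)

theorem LL_apply (ξ : Fin 3 → ℤ) (z : Fin 3 → ℂ) : LL ξ z = dz ξ z := by
  simp [LL, dz]

theorem LL_norm (ξ : Fin 3 → ℤ) : ‖LL ξ‖ ≤ ∑ k, |(ξ k : ℝ)| := by
  refine ContinuousLinearMap.opNorm_le_bound _ (Finset.sum_nonneg (fun _ _ => abs_nonneg _)) ?_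
  intro z
  rw [LL_apply, dz, Finset.sum_mul]
  refine (norm_sum_le _ _).trans (Finset.sum_le_sum (fun k _ => ?_))
  rw [norm_mul, Complex.norm_intCast]
  exact mul_le_mul_of_nonneg_left (norm_le_pi_norm z k) (abs_nonneg _)

theorem g3_dz_smul (ξ : Fin 3 → ℤ) (R : ℕ) (z : Fin 3 → ℂ) :
    dz ξ (fun k => (R : ℂ) * z k) = (R : ℂ) * dz ξ z := by
  simp only [dz, Finset.mul_sum]
  exact Finset.sum_congr rfl (fun k _ => by ring)

theorem g3_norm_ee (ξ : Fin 3 → ℤ) (R : ℕ) (z : Fin 3 → ℂ) :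
    ‖ee (dz ξ (fun k => (R : ℂ) * z k))‖ =
      Real.exp (-(2 * Real.pi * R * dr ξ (fun j => (z j).im))) := by
  rw [ee, Complex.norm_exp, g3_dz_smul]
  congr 1
  have h1 : (2 * Real.pi * Complex.I * ((R : ℂ) * dz ξ z)).re = -(2 * Real.pi * R * (dz ξ z).im) := by
    have : 2 * (Real.pi : ℂ) * Complex.I * ((R : ℂ) * dz ξ z) =
        ((2 * Real.pi * R : ℝ) : ℂ) * (Complex.I * dz ξ z) := by
      push_cast
      ring
    rw [this, Complex.re_ofReal_mul]
    simp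
  rw [h1]
  congr 2
  simp [dz, dr]

theorem dr_mono {h : Fin 3 → ℤ} (hc : ∀ y, cone y → 0 < dr h y) {y y' : Fin 3 → ℝ}
    (hy : cone (fun k => y k - y' k)) : dr h y' ≤ dr h y := by
  have h1 := hc _ hy
  have h2 : dr h (fun k => y k - y' k) = dr h y - dr h y' := by
    simp only [dr, ← Finset.sum_sub_distrib]
    exact Finset.sum_congr rfl (fun k _ => by ring)
  rw [h2] at h1
  linarith

theorem cone_add_e1 {y : Fin 3 → ℝ} (hy : cone y) {t : ℝ} (ht : 0 ≤ t) :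
    cone (fun k => y k + t * e1 k) := by
  obtain ⟨h1, h2⟩ := hy
  have h3 : 0 < y 2 := by
    by_contra h
    push Not at h
    nlinarith [sq_nonneg (y 1)]
  refine ⟨?_, ?_⟩
  · simp [e1]
    linarith
  · simp [e1]
    nlinarith

/-- domains -/
def UU (m : ℕ) : Set (Fin 3 → ℂ) := {z | cone (fun k => (z k).im - e1 k / (m + 1))}

theorem mem_UU {m : ℕ} {z : Fin 3 → ℂ} : z ∈ UU m ↔ cone (fun k => (z k).im - e1 k / (m + 1)) := Iff.rfl

theorem UU_open (m : ℕ) : IsOpen (UU m) := by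
  have h1 : UU m = {z : Fin 3 → ℂ | 0 < (z 0).im - e1 0 / (m + 1)} ∩
      {z : Fin 3 → ℂ | ((z 1).im - e1 1 / (m + 1)) ^ 2 <
        ((z 0).im - e1 0 / (m + 1)) * ((z 2).im - e1 2 / (m + 1))} := by
    ext z
    rfl
  rw [h1]
  have hc : ∀ k : Fin 3, Continuous (fun z : Fin 3 → ℂ => (z k).im) :=
    fun k => Complex.continuous_im.comp (continuous_apply k)
  apply IsOpen.inter
  · exact isOpen_lt continuous_const ((hc 0).sub continuous_const)
  · exact isOpen_lt (((hc 1).sub continuous_const).pow 2)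
      (((hc 0).sub continuous_const).mul ((hc 2).sub continuous_const))

theorem cone_convex {y y' : Fin 3 → ℝ} (h : cone y) (h' : cone y') {a b : ℝ} (ha : 0 ≤ a)
    (hb : 0 ≤ b) (hab : a + b = 1) : cone (fun k => a * y k + b * y' k) := by
  obtain ⟨h1, h2⟩ := h
  obtain ⟨h1', h2'⟩ := h'
  have h3 : 0 < y 2 := by
    by_contra h
    push Not at h
    nlinarith [sq_nonneg (y 1)]
  have h3' : 0 < y' 2 := by
    by_contra h
    push Not at h
    nlinarith [sq_nonneg (y' 1)]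
  have hpos : 0 < a ∨ 0 < b := by
    rcases ha.lt_or_eq with h | h
    · exact Or.inl h
    · right
      linarith
  constructor
  · rcases hpos with h | h
    · nlinarith [mul_pos h h1, mul_nonneg hb h1'.le]
    · nlinarith [mul_nonneg ha h1.le, mul_pos h h1']
  · -- Cauchy–Schwarz
    have h4 : 2 * (y 1 * y' 1) ≤ y 0 * y' 2 + y' 0 * y 2 := by
      have h5 : (y 1 * y' 1) ^ 2 ≤ (y 0 * y' 2) * (y' 0 * y 2) := by
        calc (y 1 * y' 1) ^ 2 = y 1 ^ 2 * y' 1 ^ 2 := by ring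
          _ ≤ (y 0 * y 2) * (y' 0 * y' 2) := by
            apply mul_le_mul h2.le h2'.le (sq_nonneg _) (by positivity)
          _ = _ := by ring
      have h6 : (2 * (y 1 * y' 1)) ^ 2 ≤ (y 0 * y' 2 + y' 0 * y 2) ^ 2 := by
        nlinarith [sq_nonneg (y 0 * y' 2 - y' 0 * y 2)]
      exact (le_abs_self _).trans (abs_le_of_sq_le_sq h6 (by positivity))
    have h7 : 0 ≤ a * b := mul_nonneg ha hb
    have h8 : 0 ≤ a ^ 2 * (y 0 * y 2 - y 1 ^ 2) := mul_nonneg (sq_nonneg a) (by linarith)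
    have h9 : 0 ≤ b ^ 2 * (y' 0 * y' 2 - y' 1 ^ 2) := mul_nonneg (sq_nonneg b) (by linarith)
    have h10 : 0 < a ^ 2 * (y 0 * y 2 - y 1 ^ 2) + b ^ 2 * (y' 0 * y' 2 - y' 1 ^ 2) := by
      rcases hpos with h | h
      · have := mul_pos (pow_pos h 2) (sub_pos.2 h2)
        linarith
      · have := mul_pos (pow_pos h 2) (sub_pos.2 h2')
        linarith
    nlinarith [mul_le_mul_of_nonneg_left h4 h7]

theorem UU_convex (m : ℕ) : Convex ℝ (UU m) := by
  intro z hz w hw a b ha hb hab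
  have h := cone_convex (mem_UU.1 hz) (mem_UU.1 hw) ha hb hab
  have h2 : (fun k => a * ((z k).im - e1 k / (m + 1)) + b * ((w k).im - e1 k / (m + 1))) =
      fun k => ((a • z + b • w) k).im - e1 k / (m + 1) := by
    funext k
    simp only [Pi.add_apply, Pi.smul_apply, Complex.add_im, Complex.real_smul, Complex.im_ofReal_mul]
    have : b = 1 - a := by linarith
    rw [this]
    ring
  rw [h2] at h
  exact h

theorem exists_UU {z : Fin 3 → ℂ} (hz : z ∈ tube) : ∃ m : ℕ, z ∈ UU m := by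
  have hc : ∀ k : Fin 3, Filter.Tendsto (fun m : ℕ => (z k).im - e1 k / ((m : ℝ) + 1)) Filter.atTop
      (nhds ((z k).im)) := by
    intro k
    have h1 : Filter.Tendsto (fun m : ℕ => e1 k * (1 / ((m : ℝ) + 1))) Filter.atTop (nhds (e1 k * 0)) :=
      tendsto_one_div_add_atTop_nhds_zero_nat.const_mul _
    have h2 := (tendsto_const_nhds (x := (z k).im)).sub h1
    simpa [div_eq_mul_inv] using h2
  obtain ⟨h1, h2⟩ := hz
  have e1' := (hc 0).eventually (lt_mem_nhds h1)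
  have h3 := ((hc 0).mul (hc 2)).sub ((hc 1).pow 2)
  have e2' := h3.eventually (lt_mem_nhds (sub_pos.2 h2))
  obtain ⟨m, hm1, hm2⟩ := (e1'.and e2').exists
  exact ⟨m, hm1, by simpa using hm2⟩

theorem UU_mono {m j : ℕ} (h : m ≤ j) {z : Fin 3 → ℂ} (hz : z ∈ UU m) : z ∈ UU j := by
  have ht : 0 ≤ 1 / ((m : ℝ) + 1) - 1 / ((j : ℝ) + 1) := by
    rw [sub_nonneg]
    apply one_div_le_one_div_of_le (by positivity)
    have : (m : ℝ) ≤ j := by exact_mod_cast h
    linarith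
  have h1 := cone_add_e1 (mem_UU.1 hz) ht
  have h2 : (fun k => (z k).im - e1 k / (m + 1) + (1 / ((m : ℝ) + 1) - 1 / ((j : ℝ) + 1)) * e1 k) =
      fun k => (z k).im - e1 k / (j + 1) := by
    funext k
    ring
  rw [h2] at h1
  exact h1

theorem UU_tube {m : ℕ} {z : Fin 3 → ℂ} (hz : z ∈ UU m) : z ∈ tube := by
  have h1 := cone_add_e1 (mem_UU.1 hz) (t := 1 / ((m : ℝ) + 1)) (by positivity)
  have h2 : (fun k => (z k).im - e1 k / (m + 1) + (1 / ((m : ℝ) + 1)) * e1 k) =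
      fun k => (z k).im := by
    funext k
    ring
  rw [h2] at h1
  exact h1

/-- derivative of the dilated sum -/
noncomputable def Hump.G' (h : Hump) (z : Fin 3 → ℂ) : (Fin 3 → ℂ) →L[ℂ] ℂ :=
  ∑ i, (h.a i * ee (dz (h.ξ i) (fun k => (h.R : ℂ) * z k)) * (2 * Real.pi * Complex.I * h.R)) • LL (h.ξ i)

theorem Hump.hasFDerivAt (h : Hump) (z : Fin 3 → ℂ) : HasFDerivAt h.G (h.G' z) z := by
  unfold Hump.G Hump.G' EF
  refine HasFDerivAt.fun_sum (fun i _ => ?_)
  have h1 : HasFDerivAt (fun z : Fin 3 → ℂ => 2 * (Real.pi : ℂ) * Complex.I * (h.R : ℂ) * LL (h.ξ i) z)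
      ((2 * (Real.pi : ℂ) * Complex.I * (h.R : ℂ)) • LL (h.ξ i)) z :=
    ((LL (h.ξ i)).hasFDerivAt).const_mul _
  have h2 := (h1.cexp).const_mul (h.a i)
  have h3 : (fun z : Fin 3 → ℂ => h.a i * ee (dz (h.ξ i) (fun k => (h.R : ℂ) * z k))) =
      fun z => h.a i * Complex.exp (2 * (Real.pi : ℂ) * Complex.I * (h.R : ℂ) * LL (h.ξ i) z) := by
    funext z
    rw [ee, g3_dz_smul, LL_apply]
    congr 2
    ring
  rw [h3]
  refine h2.congr_fderiv ?_
  rw [ee, g3_dz_smul, ← LL_apply, smul_smul, smul_smul]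
  congr 1
  have h4 : 2 * (Real.pi : ℂ) * Complex.I * ((h.R : ℂ) * LL (h.ξ i) z) =
    2 * (Real.pi : ℂ) * Complex.I * (h.R : ℂ) * LL (h.ξ i) z := by ring
  rw [h4]


theorem Hump.G_norm (h : Hump) (hcn : ∀ i y, cone y → 0 < dr (h.ξ i) y) {z : Fin 3 → ℂ}
    {y : Fin 3 → ℝ} (hy : cone (fun k => (z k).im - y k)) : ‖h.G z‖ ≤ h.dec y := by
  unfold Hump.G Hump.dec EF
  refine (norm_sum_le _ _).trans (Finset.sum_le_sum (fun i _ => ?_))
  rw [norm_mul, g3_norm_ee]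
  have h1 : dr (h.ξ i) y ≤ dr (h.ξ i) (fun j => (z j).im) := dr_mono (hcn i) hy
  have h2 : 0 ≤ 2 * Real.pi * (h.R : ℝ) := by positivity
  have h3 : Real.exp (-(2 * Real.pi * h.R * dr (h.ξ i) (fun j => (z j).im))) ≤
      Real.exp (-(2 * Real.pi * h.R * dr (h.ξ i) y)) := by
    apply Real.exp_le_exp.2
    have := mul_le_mul_of_nonneg_left h1 h2
    linarith
  have h4 : 0 ≤ 2 * Real.pi * (h.R : ℝ) * ∑ k, |(h.ξ i k : ℝ)| :=
    mul_nonneg h2 (Finset.sum_nonneg (fun _ _ => abs_nonneg _))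
  calc ‖h.a i‖ * Real.exp (-(2 * Real.pi * h.R * dr (h.ξ i) (fun j => (z j).im)))
      ≤ ‖h.a i‖ * Real.exp (-(2 * Real.pi * h.R * dr (h.ξ i) y)) :=
        mul_le_mul_of_nonneg_left h3 (norm_nonneg _)
    _ ≤ ‖h.a i‖ * (1 + 2 * Real.pi * h.R * ∑ k, |(h.ξ i k : ℝ)|) *
        Real.exp (-(2 * Real.pi * h.R * dr (h.ξ i) y)) := by
        apply mul_le_mul_of_nonneg_right _ (Real.exp_pos _).le
        exact le_mul_of_one_le_right (norm_nonneg _) (by linarith)

theorem Hump.G'_norm (h : Hump) (hcn : ∀ i y, cone y → 0 < dr (h.ξ i) y) {z : Fin 3 → ℂ}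
    {y : Fin 3 → ℝ} (hy : cone (fun k => (z k).im - y k)) : ‖h.G' z‖ ≤ h.dec y := by
  unfold Hump.G' Hump.dec
  refine (norm_sum_le _ _).trans (Finset.sum_le_sum (fun i _ => ?_))
  rw [norm_smul, norm_mul, norm_mul, g3_norm_ee]
  have h1 : dr (h.ξ i) y ≤ dr (h.ξ i) (fun j => (z j).im) := dr_mono (hcn i) hy
  have h2 : 0 ≤ 2 * Real.pi * (h.R : ℝ) := by positivity
  have h3 : Real.exp (-(2 * Real.pi * h.R * dr (h.ξ i) (fun j => (z j).im))) ≤
      Real.exp (-(2 * Real.pi * h.R * dr (h.ξ i) y)) := by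
    apply Real.exp_le_exp.2
    have := mul_le_mul_of_nonneg_left h1 h2
    linarith
  have hS : 0 ≤ ∑ k, |(h.ξ i k : ℝ)| := Finset.sum_nonneg (fun _ _ => abs_nonneg _)
  have h5 : ‖2 * (Real.pi : ℂ) * Complex.I * (h.R : ℂ)‖ = 2 * Real.pi * h.R := by
    rw [norm_mul, norm_mul, norm_mul, Complex.norm_I, Complex.norm_real, Complex.norm_natCast]
    simp [Real.pi_pos.le, abs_of_pos Real.pi_pos]
  rw [h5]
  calc ‖h.a i‖ * Real.exp (-(2 * Real.pi * h.R * dr (h.ξ i) (fun j => (z j).im))) *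
        (2 * Real.pi * h.R) * ‖LL (h.ξ i)‖
      ≤ ‖h.a i‖ * Real.exp (-(2 * Real.pi * h.R * dr (h.ξ i) y)) *
        (2 * Real.pi * h.R) * ∑ k, |(h.ξ i k : ℝ)| := by
        apply mul_le_mul _ (LL_norm _) (norm_nonneg _) (by positivity)
        exact mul_le_mul_of_nonneg_right (mul_le_mul_of_nonneg_left h3 (norm_nonneg _)) h2
    _ = ‖h.a i‖ * (2 * Real.pi * h.R * ∑ k, |(h.ξ i k : ℝ)|) *
        Real.exp (-(2 * Real.pi * h.R * dr (h.ξ i) y)) := by ring
    _ ≤ ‖h.a i‖ * (1 + 2 * Real.pi * h.R * ∑ k, |(h.ξ i k : ℝ)|) *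
        Real.exp (-(2 * Real.pi * h.R * dr (h.ξ i) y)) := by
        apply mul_le_mul_of_nonneg_right _ (Real.exp_pos _).le
        apply mul_le_mul_of_nonneg_left _ (norm_nonneg _)
        linarith

theorem Hump.dec_nonneg (h : Hump) (y : Fin 3 → ℝ) : 0 ≤ h.dec y := by
  unfold Hump.dec
  refine Finset.sum_nonneg (fun i _ => ?_)
  have : 0 ≤ ∑ k, |(h.ξ i k : ℝ)| := Finset.sum_nonneg (fun _ _ => abs_nonneg _)
  positivity

/-- the infinite sum converges and is holomorphic -/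
theorem SS_diff (H : ℕ → Hump) (hcn : ∀ j i y, cone y → 0 < dr ((H j).ξ i) y)
    (hdec : ∀ j : ℕ, (H j).dec (fun k => e1 k / (j + 1)) ≤ 1) :
    DifferentiableOn ℂ (SS H) tube ∧ ∀ z ∈ tube, Summable fun j : ℕ => ‖(1 / 2 : ℂ) ^ j * (H j).G z‖ := by
  have hgeo : Summable (fun j : ℕ => (1 / 2 : ℝ) ^ j) := summable_geometric_two
  have hn : ∀ j : ℕ, ‖(1 / 2 : ℂ) ^ j‖ = (1 / 2 : ℝ) ^ j := by
    intro j
    rw [norm_pow]
    norm_num
  have hsum : ∀ z ∈ tube, Summable fun j : ℕ => ‖(1 / 2 : ℂ) ^ j * (H j).G z‖ := by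
    intro z hz
    obtain ⟨m, hm⟩ := exists_UU hz
    rw [← summable_nat_add_iff m]
    refine Summable.of_nonneg_of_le (fun j => norm_nonneg _) (fun j => ?_)
      ((summable_nat_add_iff m).2 hgeo)
    rw [norm_mul, hn]
    have h1 := (H (j + m)).G_norm (hcn (j + m)) (mem_UU.1 (UU_mono (Nat.le_add_left m j) hm))
    exact mul_le_of_le_one_right (by positivity) (h1.trans (hdec (j + m)))
  refine ⟨?_, hsum⟩
  intro z hz
  obtain ⟨m, hm⟩ := exists_UU hz
  apply DifferentiableAt.differentiableWithinAt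
  -- bounds for the derivatives
  have hu : Summable (fun j : ℕ => (1 / 2 : ℝ) ^ j + (if j < m then (H j).dec 0 else 0)) := by
    refine hgeo.add ?_
    refine summable_of_ne_finset_zero (s := Finset.range m) ?_
    intro j hj
    rw [Finset.mem_range] at hj
    simp [hj]
  have key := hasFDerivAt_tsum_of_isPreconnected (𝕜 := ℂ) (f := fun (j : ℕ) z => (1 / 2 : ℂ) ^ j * (H j).G z)
    (f' := fun (j : ℕ) z => (1 / 2 : ℂ) ^ j • (H j).G' z) hu (UU_open m)
    (UU_convex m).isPreconnected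
    (fun j w _ => ((H j).hasFDerivAt w).const_mul _)
    (fun j w hw => by
      rw [norm_smul, hn]
      by_cases hj : j < m
      · simp only [hj, if_true]
        have h0 : cone (fun k => (w k).im - (0 : Fin 3 → ℝ) k) := by
          have := UU_tube hw
          simpa [tube] using this
        have h1 := (H j).G'_norm (hcn j) h0
        have h2 : (1 / 2 : ℝ) ^ j ≤ 1 := pow_le_one₀ (by norm_num) (by norm_num)
        have h3 : (1 / 2 : ℝ) ^ j * ‖(H j).G' w‖ ≤ 1 * (H j).dec 0 :=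
          mul_le_mul h2 h1 (norm_nonneg _) zero_le_one
        have h4 : (0 : ℝ) ≤ (1 / 2 : ℝ) ^ j := by positivity
        linarith
      · simp only [hj, if_false, add_zero]
        have h1 := (H j).G'_norm (hcn j) (mem_UU.1 (UU_mono (not_lt.1 hj) hw))
        exact mul_le_of_le_one_right (by positivity) (h1.trans (hdec j)))
    hm (hsum z hz).of_norm hm
  exact key.differentiableAt

end Pool.Agent.Helper682.HU
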