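import Mathlib
import Pool.Agent.Helper682.HU.H6

set_option autoImplicit false

namespace Pool.Agent.Helper682.HU

open MeasureTheory Finset

/-- the conclusion of the three dimensional construction for the exponent `p` -/
def Wild3 (p : ℝ) : Prop := ∃ u : (Fin 3 → ℂ) → ℂ, DifferentiableOn ℂ u tube ∧
    (∃ C : ℝ, ∀ y : Fin 3 → ℝ, cone y → ∫⁻ x : Fin 3 → ℝ, ‖u (cplx x y)‖ₑ ^ p ≤ ENNReal.ofReal C) ∧
    ∃ E : Set (Fin 3 → ℝ), MeasurableSet E ∧ 0 < volume E ∧ ∀ x ∈ E, ∀ M δ : ℝ, 0 < δ →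
      ∃ y : Fin 3 → ℝ, cone y ∧ ‖y‖ < δ ∧ M < ‖u (cplx x y)‖

/-- splitting of the coordinates -/
def eS (m : ℕ) : Fin 3 ⊕ Fin m ≃ Fin (m + 3) := finSumFinEquiv.trans (finCongr (by omega))

theorem eS_inl_0 (m : ℕ) : eS m (Sum.inl 0) = 0 := by ext; simp [eS]
theorem eS_inl_1 (m : ℕ) : eS m (Sum.inl 1) = 1 := by ext; simp [eS]
theorem eS_inl_2 (m : ℕ) : eS m (Sum.inl 2) = 2 := by
  ext
  simp only [eS, Equiv.trans_apply, finSumFinEquiv_apply_left, finCongr_apply, Fin.val_cast, Fin.val_castAdd]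
  rfl
theorem eS_inr (m : ℕ) (j : Fin m) : (eS m (Sum.inr j)).val = 3 + j.val := by simp [eS]; omega

/-- the linear change of variables -/
def Afun {R : Type*} [Ring R] (m : ℕ) (x : Fin (m + 3) → R) : Fin (m + 3) → R := fun i =>
  if i = 0 then x 0 + x 1 else if i = 1 then x 2 else if i = 2 then x 0 - x 1 else x 0 + x i

theorem one_ne_zero' (m : ℕ) : (1 : Fin (m + 3)) ≠ 0 := by
  intro h; have := congrArg Fin.val h; simp at this
theorem two_val (m : ℕ) : ((2 : Fin (m + 3)) : ℕ) = 2 := rfl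
theorem one_val (m : ℕ) : ((1 : Fin (m + 3)) : ℕ) = 1 := rfl
theorem two_ne_zero' (m : ℕ) : (2 : Fin (m + 3)) ≠ 0 := by
  intro h; have := congrArg Fin.val h; rw [two_val] at this; simp at this
theorem two_ne_one' (m : ℕ) : (2 : Fin (m + 3)) ≠ 1 := by
  intro h; have := congrArg Fin.val h; rw [two_val, one_val] at this; simp at this

section
variable {R : Type*} [Ring R] {m : ℕ} (x : Fin (m + 3) → R)
theorem Afun_0 : Afun m x 0 = x 0 + x 1 := by simp [Afun]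
theorem Afun_1 : Afun m x 1 = x 2 := by simp [Afun]
theorem Afun_2 : Afun m x 2 = x 0 - x 1 := by
  simp only [Afun, two_ne_zero' m, two_ne_one' m, if_false, if_true]
theorem Afun_r (j : Fin m) : Afun m x (eS m (Sum.inr j)) = x 0 + x (eS m (Sum.inr j)) := by
  have h := eS_inr m j
  have h0 : eS m (Sum.inr j) ≠ 0 := by intro h'; rw [h'] at h; simp at h; omega
  have h1 : eS m (Sum.inr j) ≠ 1 := by intro h'; rw [h', one_val] at h; omega
  have h2 : eS m (Sum.inr j) ≠ 2 := by intro h'; rw [h', two_val] at h; omega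
  simp only [Afun, h0, h1, h2, if_false]
end

/-- the change of variables as a linear map -/
def Alin (m : ℕ) : (Fin (m + 3) → ℝ) →ₗ[ℝ] (Fin (m + 3) → ℝ) where
  toFun := Afun m
  map_add' x y := by
    funext i
    simp only [Afun, Pi.add_apply]
    split_ifs <;> ring
  map_smul' r x := by
    funext i
    simp only [Afun, Pi.smul_apply, smul_eq_mul, RingHom.id_apply]
    split_ifs <;> ring

theorem Alin_apply (m : ℕ) (x : Fin (m + 3) → ℝ) : Alin m x = Afun m x := rfl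

theorem Alin_inj (m : ℕ) : Function.Injective (Alin m) := by
  rw [← LinearMap.ker_eq_bot, LinearMap.ker_eq_bot']
  intro x hx
  have h0 := congrFun hx 0
  have h1 := congrFun hx 1
  have h2 := congrFun hx 2
  rw [Alin_apply, Pi.zero_apply] at h0 h1 h2
  rw [Afun_0] at h0
  rw [Afun_1] at h1
  rw [Afun_2] at h2
  have h00 : x 0 = 0 := by linarith
  have h01 : x 1 = 0 := by linarith
  funext i
  obtain ⟨s, rfl⟩ := (eS m).surjective i
  rcases s with i | j
  · fin_cases i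
    · rw [show eS m (Sum.inl ((fun i => i) ⟨0, by omega⟩)) = 0 from eS_inl_0 m]; exact h00
    · rw [show eS m (Sum.inl ((fun i => i) ⟨1, by omega⟩)) = 1 from eS_inl_1 m]; exact h01
    · rw [show eS m (Sum.inl ((fun i => i) ⟨2, by omega⟩)) = 2 from eS_inl_2 m]; exact h1
  · have h3 := congrFun hx (eS m (Sum.inr j))
    rw [Alin_apply, Afun_r, Pi.zero_apply, h00, zero_add] at h3
    exact h3

theorem Alin_det (m : ℕ) : LinearMap.det (Alin m) ≠ 0 := by
  have h : IsUnit (Alin m) := (LinearMap.isUnit_iff_ker_eq_bot _).2 (LinearMap.ker_eq_bot.2 (Alin_inj m))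
  exact (LinearMap.isUnit_det _ h).ne_zero

/-- forward light cone -/
def LC (m : ℕ) : Set (Fin (m + 3) → ℝ) := {y | 0 < y 0 ∧ 0 < y 0 ^ 2 - ∑ j : Fin (m + 2), y j.succ ^ 2}

theorem LC_sum {m : ℕ} {y : Fin (m + 3) → ℝ} (hy : y ∈ LC m) : 0 < y 0 ∧ y 1 ^ 2 + y 2 ^ 2 < y 0 ^ 2 ∧
    ∀ j : Fin m, 0 < y 0 + y (eS m (Sum.inr j)) := by
  obtain ⟨h0, h1⟩ := hy
  have hsub : ∀ s : Finset (Fin (m + 2)), ∑ j ∈ s, y j.succ ^ 2 ≤ ∑ j : Fin (m + 2), y j.succ ^ 2 := fun s =>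
    Finset.sum_le_sum_of_subset_of_nonneg (Finset.subset_univ _) fun _ _ _ => sq_nonneg _
  have e1 : (0 : Fin (m + 2)).succ = (1 : Fin (m + 3)) := rfl
  have e2 : (1 : Fin (m + 2)).succ = (2 : Fin (m + 3)) := rfl
  refine ⟨h0, ?_, ?_⟩
  · have h2 := hsub {0, 1}
    rw [Finset.sum_pair (by intro h; have := congrArg Fin.val h; simp at this), e1, e2] at h2
    linarith
  · intro j
    have hv := eS_inr m j
    obtain ⟨k, hk⟩ : ∃ k : Fin (m + 2), k.succ = eS m (Sum.inr j) := by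
      refine ⟨⟨2 + j.val, by omega⟩, ?_⟩
      ext
      rw [hv]
      simp
      omega
    have h2 := hsub {k}
    rw [Finset.sum_singleton, hk] at h2
    have h3 : y (eS m (Sum.inr j)) ^ 2 < y 0 ^ 2 := by linarith
    have h4 := abs_lt_of_sq_lt_sq h3 h0.le
    have h5 := (abs_lt.1 h4).1
    linarith
where
  abs_lt_of_sq_lt_sq {a b : ℝ} (h : a ^ 2 < b ^ 2) (hb : 0 ≤ b) : |a| < b := by
    rw [← sq_abs a] at h
    exact lt_of_pow_lt_pow_left₀ 2 hb h

theorem LC_cone {m : ℕ} {y : Fin (m + 3) → ℝ} (hy : y ∈ LC m) : cone (fun i => Afun m y (eS m (Sum.inl i))) := by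
  obtain ⟨h0, h1, _⟩ := LC_sum hy
  unfold cone
  beta_reduce
  rw [eS_inl_0, eS_inl_1, eS_inl_2, Afun_0, Afun_1, Afun_2]
  constructor
  · have h3 : y 1 ^ 2 < y 0 ^ 2 := by nlinarith [sq_nonneg (y 2)]
    have h4 := LC_sum.abs_lt_of_sq_lt_sq h3 h0.le
    have h5 := (abs_lt.1 h4).1
    linarith
  · nlinarith

theorem LC_pos {m : ℕ} {y : Fin (m + 3) → ℝ} (hy : y ∈ LC m) (j : Fin m) : 0 < Afun m y (eS m (Sum.inr j)) := by
  rw [Afun_r]
  exact (LC_sum hy).2.2 j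

/-- lift of a direction -/
noncomputable def lf (m : ℕ) (y : Fin 3 → ℝ) : Fin (m + 3) → ℝ := fun i =>
  if i = 0 then (y 0 + y 2) / 2 else if i = 1 then (y 0 - y 2) / 2 else if i = 2 then y 1 else 0

theorem lf_0 (m : ℕ) (y : Fin 3 → ℝ) : lf m y 0 = (y 0 + y 2) / 2 := by simp [lf]
theorem lf_1 (m : ℕ) (y : Fin 3 → ℝ) : lf m y 1 = (y 0 - y 2) / 2 := by simp [lf]
theorem lf_2 (m : ℕ) (y : Fin 3 → ℝ) : lf m y 2 = y 1 := by
  simp only [lf, two_ne_zero' m, two_ne_one' m, if_false, if_true]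
theorem lf_r (m : ℕ) (y : Fin 3 → ℝ) (j : Fin m) : lf m y (eS m (Sum.inr j)) = 0 := by
  have h := eS_inr m j
  have h0 : eS m (Sum.inr j) ≠ 0 := by intro h'; rw [h'] at h; simp at h; omega
  have h1 : eS m (Sum.inr j) ≠ 1 := by intro h'; rw [h', one_val] at h; omega
  have h2 : eS m (Sum.inr j) ≠ 2 := by intro h'; rw [h', two_val] at h; omega
  simp only [lf, h0, h1, h2, if_false]

theorem Afun_lf_l (m : ℕ) (y : Fin 3 → ℝ) (i : Fin 3) : Afun m (lf m y) (eS m (Sum.inl i)) = y i := by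
  fin_cases i
  · rw [show eS m (Sum.inl ((fun i => i) ⟨0, by omega⟩)) = 0 from eS_inl_0 m, Afun_0, lf_0, lf_1]
    show _ = y 0
    ring
  · rw [show eS m (Sum.inl ((fun i => i) ⟨1, by omega⟩)) = 1 from eS_inl_1 m, Afun_1, lf_2]
    rfl
  · rw [show eS m (Sum.inl ((fun i => i) ⟨2, by omega⟩)) = 2 from eS_inl_2 m, Afun_2, lf_0, lf_1]
    show _ = y 2
    ring

theorem Afun_lf_r (m : ℕ) (y : Fin 3 → ℝ) (j : Fin m) : Afun m (lf m y) (eS m (Sum.inr j)) = (y 0 + y 2) / 2 := by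
  rw [Afun_r, lf_0, lf_r, add_zero]

theorem lf_norm (m : ℕ) (y : Fin 3 → ℝ) : ‖lf m y‖ ≤ ‖y‖ := by
  have h0 := norm_le_pi_norm y 0
  have h1 := norm_le_pi_norm y 1
  have h2 := norm_le_pi_norm y 2
  rw [Real.norm_eq_abs] at h0 h1 h2
  have h0' := abs_le.1 h0
  have h2' := abs_le.1 h2
  rw [pi_norm_le_iff_of_nonneg (norm_nonneg _)]
  intro i
  rw [Real.norm_eq_abs]
  simp only [lf]
  split_ifs
  · rw [abs_le]; constructor <;> linarith
  · rw [abs_le]; constructor <;> linarith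
  · exact h1
  · simp

theorem lf_mem (m : ℕ) {y : Fin 3 → ℝ} (hy : cone y) : lf m y ∈ LC m := by
  obtain ⟨h0, h1⟩ := hy
  have h2 : 0 < y 2 := by
    by_contra h
    push Not at h
    nlinarith [sq_nonneg (y 1)]
  refine ⟨by rw [lf_0]; linarith, ?_⟩
  have hs : ∑ j : Fin (m + 2), lf m y j.succ ^ 2 = ((y 0 - y 2) / 2) ^ 2 + y 1 ^ 2 := by
    rw [Fin.sum_univ_succ, Fin.sum_univ_succ]
    have e1 : (0 : Fin (m + 2)).succ = (1 : Fin (m + 3)) := rfl
    have e2 : (0 : Fin (m + 1)).succ.succ = (2 : Fin (m + 3)) := rfl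
    rw [e1, e2, lf_1, lf_2]
    have e3 : ∑ i : Fin m, lf m y i.succ.succ.succ ^ 2 = 0 := by
      apply Finset.sum_eq_zero
      intro i _
      have : i.succ.succ.succ = eS m (Sum.inr i) := by
        ext
        rw [eS_inr]
        simp
        omega
      rw [this, lf_r]
      simp
    rw [e3]
    ring
  rw [hs, lf_0]
  nlinarith

end Pool.Agent.Helper682.HU
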