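import Mathlib
import Pool.Agent.Helper682.HU.H8

set_option autoImplicit false

namespace Pool.Agent.Helper682.HU

open MeasureTheory Finset

theorem norm_inv_le (a b : ℝ) (hb : 0 ≤ b) : ‖(1 : ℂ) / ((a : ℂ) + b * Complex.I + Complex.I)‖ ^ 2 ≤ 1 / (1 + a ^ 2) := by
  have e : (a : ℂ) + b * Complex.I + Complex.I = ⟨a, b + 1⟩ := by
    apply Complex.ext <;> simp
  rw [e, norm_div, norm_one, div_pow, one_pow]
  have h : ‖(⟨a, b + 1⟩ : ℂ)‖ ^ 2 = a ^ 2 + (b + 1) ^ 2 := by
    rw [← Complex.normSq_eq_norm_sq, Complex.normSq_apply]; ring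
  rw [h]
  apply one_div_le_one_div_of_le (by positivity)
  nlinarith

theorem norm_inv_ge (a b : ℝ) (ha : |a| ≤ 1) (hb : 0 ≤ b) (hb1 : b ≤ 1) :
    1 / 3 ≤ ‖(1 : ℂ) / ((a : ℂ) + b * Complex.I + Complex.I)‖ := by
  have e : (a : ℂ) + b * Complex.I + Complex.I = (a : ℂ) + ((b + 1 : ℝ) : ℂ) * Complex.I := by push_cast; ring
  rw [e, norm_div, norm_one]
  have h1 : ‖(a : ℂ) + ((b + 1 : ℝ) : ℂ) * Complex.I‖ ≤ 3 := by
    refine (norm_add_le _ _).trans ?_
    rw [norm_mul, Complex.norm_I, mul_one, Complex.norm_real, Complex.norm_real, Real.norm_eq_abs, Real.norm_eq_abs,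
      abs_of_nonneg (by linarith : (0:ℝ) ≤ b + 1)]
    linarith
  have h2 : 0 < ‖(a : ℂ) + ((b + 1 : ℝ) : ℂ) * Complex.I‖ := by
    rw [norm_pos_iff]
    intro h
    have := congrArg Complex.im h
    simp at this
    linarith
  exact one_div_le_one_div_of_le h2 h1

/-- the function on the tube over the light cone -/
noncomputable def FL (m N : ℕ) (u : (Fin 3 → ℂ) → ℂ) (z : Fin (m + 3) → ℂ) : ℂ :=
  u (fun i => Afun m z (eS m (Sum.inl i))) * ∏ j : Fin m, (1 / (Afun m z (eS m (Sum.inr j)) + Complex.I)) ^ N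

theorem Afun_cplx (m : ℕ) (x y : Fin (m + 3) → ℝ) (i : Fin (m + 3)) :
    Afun m (fun k => (x k : ℂ) + (y k : ℂ) * Complex.I) i = ((Afun m x i : ℝ) : ℂ) + ((Afun m y i : ℝ) : ℂ) * Complex.I := by
  simp only [Afun]
  split_ifs <;> push_cast <;> ring

theorem Afun_im (m : ℕ) (z : Fin (m + 3) → ℂ) (i : Fin (m + 3)) :
    (Afun m z i).im = Afun m (fun k => (z k).im) i := by
  simp only [Afun]
  split_ifs <;> simp

theorem FL_diff (m N : ℕ) (u : (Fin 3 → ℂ) → ℂ) (hu : DifferentiableOn ℂ u tube) :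
    DifferentiableOn ℂ (FL m N u) {z | (fun k => (z k).im) ∈ LC m} := by
  have hA : ∀ i, Differentiable ℂ (fun z : Fin (m + 3) → ℂ => Afun m z i) := by
    intro i
    simp only [Afun]
    split_ifs <;> fun_prop
  unfold FL
  apply DifferentiableOn.mul
  · apply hu.comp
    · apply Differentiable.differentiableOn
      rw [differentiable_pi]
      intro i
      exact hA _
    · intro z hz
      have h1 := LC_cone (y := fun k => (z k).im) hz
      have h2 : (fun i : Fin 3 => (Afun m z (eS m (Sum.inl i))).im) = fun i => Afun m (fun k => (z k).im) (eS m (Sum.inl i)) := by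
        funext i
        exact Afun_im _ _ _
      have h3 : cone (fun i : Fin 3 => (Afun m z (eS m (Sum.inl i))).im) := by rw [h2]; exact h1
      exact h3
  · have hprod : ∀ (s : Finset (Fin m)) (f : Fin m → (Fin (m + 3) → ℂ) → ℂ) (U : Set (Fin (m + 3) → ℂ)),
        (∀ j ∈ s, DifferentiableOn ℂ (f j) U) → DifferentiableOn ℂ (fun z => ∏ j ∈ s, f j z) U := by
      intro s f U
      classical
      induction s using Finset.induction_on with
      | empty => intro _; simp only [Finset.prod_empty]; exact differentiableOn_const _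
      | insert a s ha ih =>
        intro h
        have e : (fun z => ∏ j ∈ insert a s, f j z) = fun z => f a z * ∏ j ∈ s, f j z := by
          funext z; rw [Finset.prod_insert ha]
        rw [e]
        exact (h a (Finset.mem_insert_self _ _)).mul (ih fun j hj => h j (Finset.mem_insert_of_mem hj))
    apply hprod
    intro j _
    apply DifferentiableOn.pow
    simp only [one_div]
    apply DifferentiableOn.inv
    · exact ((hA _).add_const _).differentiableOn
    · intro z hz h0
      have h1 := LC_pos (y := fun k => (z k).im) hz j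
      rw [← Afun_im] at h1
      have := congrArg Complex.im h0
      simp at this
      linarith

/-- measure preserving identification -/
noncomputable def Psi (m : ℕ) : (Fin 3 → ℝ) × (Fin m → ℝ) ≃ᵐ (Fin (m + 3) → ℝ) :=
  (MeasurableEquiv.sumPiEquivProdPi (fun _ : Fin 3 ⊕ Fin m => ℝ)).symm.trans
    (MeasurableEquiv.piCongrLeft (fun _ : Fin (m + 3) => ℝ) (eS m))

theorem Psi_mp (m : ℕ) : MeasurePreserving (Psi m) volume volume :=
  (volume_measurePreserving_sumPiEquivProdPi_symm (fun _ : Fin 3 ⊕ Fin m => ℝ)).trans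
    (volume_measurePreserving_piCongrLeft (fun _ : Fin (m + 3) => ℝ) (eS m))

theorem Psi_apply (m : ℕ) (q : (Fin 3 → ℝ) × (Fin m → ℝ)) (s : Fin 3 ⊕ Fin m) :
    Psi m q (eS m s) = Sum.elim q.1 q.2 s := by
  unfold Psi
  rw [MeasurableEquiv.trans_apply]
  have := Equiv.piCongrLeft_apply_apply (fun _ : Fin (m + 3) => ℝ) (eS m)
    ((MeasurableEquiv.sumPiEquivProdPi (fun _ : Fin 3 ⊕ Fin m => ℝ)).symm q) s
  rw [MeasurableEquiv.coe_piCongrLeft, this]
  rcases s with i | j <;> rfl

theorem cplx_cont' (y : Fin 3 → ℝ) : Continuous (fun x => cplx x y) := by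
  unfold cplx
  fun_prop

theorem u_cont {u : (Fin 3 → ℂ) → ℂ} (hu : DifferentiableOn ℂ u tube) {y : Fin 3 → ℝ} (hy : cone y) :
    Continuous fun x => u (cplx x y) := by
  have h1 : ContinuousOn u tube := hu.continuousOn
  apply h1.comp_continuous (cplx_cont' y)
  intro x
  have h2 : (fun j => (cplx x y j).im) = y := by
    funext j; simp [cplx]
  have h3 : cone (fun j => (cplx x y j).im) := by rw [h2]; exact hy
  exact h3

/-- the lift to the light cone -/
theorem lift (m : ℕ) (p : ℝ) (hp : 0 < p) (h3 : Wild3 p) : ∃ F : (Fin (m + 3) → ℂ) → ℂ,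
    DifferentiableOn ℂ F {z | (fun k => (z k).im) ∈ LC m} ∧
    (∃ C : ℝ, ∀ y ∈ LC m, ∫⁻ x : Fin (m + 3) → ℝ, ‖F (fun k => (x k : ℂ) + (y k : ℂ) * Complex.I)‖ₑ ^ p ≤ ENNReal.ofReal C) ∧
    ∃ E : Set (Fin (m + 3) → ℝ), MeasurableSet E ∧ 0 < volume E ∧ ∀ x ∈ E, ∀ M δ : ℝ, 0 < δ →
      ∃ y ∈ LC m, ‖y‖ < δ ∧ M < ‖F (fun k => (x k : ℂ) + (y k : ℂ) * Complex.I)‖ := by
  obtain ⟨u, hu, ⟨C, hC⟩, E, hEm, hEv, hE⟩ := h3
  obtain ⟨N, hN⟩ : ∃ N : ℕ, 2 / p ≤ N := exists_nat_ge _
  have hNp : 2 ≤ N * p := by rwa [div_le_iff₀ hp] at hN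
  have hdet := Alin_det m
  set κ : ENNReal := ENNReal.ofReal |(LinearMap.det (Alin m))⁻¹| with hκ
  have hκ0 : 0 < κ := ENNReal.ofReal_pos.2 (abs_pos.2 (inv_ne_zero hdet))
  have hκt : κ ≠ ⊤ := ENNReal.ofReal_ne_top
  have hcvm : Measure.map (Alin m) volume = κ • (volume : Measure (Fin (m + 3) → ℝ)) :=
    Measure.map_linearMap_addHaar_eq_smul_addHaar volume hdet
  have hAcont : Continuous (Alin m) := LinearMap.continuous_of_finiteDimensional _
  refine ⟨FL m N u, FL_diff m N u hu, ?_, ?_⟩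
  · -- the norm
    set J : ENNReal := ∫⁻ b : Fin m → ℝ, ENNReal.ofReal (∏ j, 1 / (1 + b j ^ 2)) with hJ
    have hJt : J < ⊤ := by
      have h1 : Integrable (fun b : Fin m → ℝ => ∏ j, 1 / (1 + b j ^ 2)) := by
        apply Integrable.fintype_prod (f := fun (_ : Fin m) (t : ℝ) => 1 / (1 + t ^ 2))
        intro _
        simpa only [one_div] using integrable_inv_one_add_sq
      exact h1.lintegral_lt_top
    refine ⟨(κ * (ENNReal.ofReal C * J)).toReal, fun y hy => ?_⟩
    rw [ENNReal.ofReal_toReal (ENNReal.mul_lt_top hκt.lt_top (ENNReal.mul_lt_top ENNReal.ofReal_lt_top hJt)).ne]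
    set y3 : Fin 3 → ℝ := fun i => Afun m y (eS m (Sum.inl i)) with hy3
    have hy3c : cone y3 := LC_cone hy
    have hucont := u_cont hu hy3c
    set g : (Fin (m + 3) → ℝ) → ENNReal := fun w =>
      ‖u (cplx (fun i => w (eS m (Sum.inl i))) y3)‖ₑ ^ p * ENNReal.ofReal (∏ j : Fin m, 1 / (1 + w (eS m (Sum.inr j)) ^ 2)) with hg
    have hpt : ∀ x : Fin (m + 3) → ℝ, ‖FL m N u (fun k => (x k : ℂ) + (y k : ℂ) * Complex.I)‖ₑ ^ p ≤ g (Alin m x) := by
      intro x
      unfold FL
      rw [enorm_mul, ENNReal.mul_rpow_of_nonneg _ _ hp.le]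
      simp only [Afun_cplx]
      apply mul_le_mul'
      · rfl
      · rw [enorm_eq_nnnorm, ← ENNReal.coe_rpow_of_nonneg _ hp.le]
        rw [ENNReal.ofReal, ENNReal.coe_le_coe]
        rw [← NNReal.coe_le_coe, NNReal.coe_rpow, coe_nnnorm, Real.coe_toNNReal _ (Finset.prod_nonneg fun j _ => by positivity)]
        rw [norm_prod, ← Real.finset_prod_rpow _ _ (fun j _ => norm_nonneg _)]
        apply Finset.prod_le_prod
        · intro j _; positivity
        · intro j _
          have hb := LC_pos hy j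
          have h1 := norm_inv_le (Afun m x (eS m (Sum.inr j))) _ hb.le
          set v := ‖(1 : ℂ) / (((Afun m x (eS m (Sum.inr j)) : ℝ) : ℂ) + ((Afun m y (eS m (Sum.inr j)) : ℝ) : ℂ) * Complex.I + Complex.I)‖ with hv
          have hv0 : 0 ≤ v := norm_nonneg _
          have hv1 : v ≤ 1 := by
            have : (1 : ℝ) / (1 + Afun m x (eS m (Sum.inr j)) ^ 2) ≤ 1 := by
              rw [div_le_one (by positivity)]
              nlinarith [sq_nonneg (Afun m x (eS m (Sum.inr j)))]
            have h2 : v ^ 2 ≤ 1 := h1.trans this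
            nlinarith
          rw [norm_pow, ← hv, ← Real.rpow_natCast, ← Real.rpow_mul hv0]
          have h3 : v ^ ((N : ℝ) * p) ≤ v ^ (2 : ℝ) := by
            rcases eq_or_lt_of_le hv0 with h0 | h0
            · rw [← h0, Real.zero_rpow (by linarith), Real.zero_rpow (by norm_num)]
            · exact Real.rpow_le_rpow_of_exponent_ge h0 hv1 hNp
          refine h3.trans ?_
          rw [Real.rpow_two]
          exact h1
    refine (lintegral_mono hpt).trans ?_
    have hgm : Measurable g := by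
      apply Measurable.mul
      · apply Measurable.pow_const
        apply Measurable.enorm
        apply Continuous.measurable
        exact hucont.comp (by fun_prop)
      · apply Measurable.ennreal_ofReal
        fun_prop
    have h1 : ∫⁻ x, g (Alin m x) = κ * ∫⁻ w, g w := by
      rw [← lintegral_map hgm hAcont.measurable, hcvm, lintegral_smul_measure]
      rfl
    rw [h1]
    apply mul_le_mul' le_rfl
    have h2 : ∫⁻ w, g w = ∫⁻ q : (Fin 3 → ℝ) × (Fin m → ℝ), g (Psi m q) :=
      ((Psi_mp m).lintegral_comp hgm).symm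
    have h3 : ∀ q : (Fin 3 → ℝ) × (Fin m → ℝ), g (Psi m q) =
        ‖u (cplx q.1 y3)‖ₑ ^ p * ENNReal.ofReal (∏ j : Fin m, 1 / (1 + q.2 j ^ 2)) := by
      intro q
      simp only [hg, Psi_apply, Sum.elim_inl, Sum.elim_inr]
    rw [h2]
    simp only [h3]
    rw [show (volume : Measure ((Fin 3 → ℝ) × (Fin m → ℝ))) = (volume : Measure (Fin 3 → ℝ)).prod (volume : Measure (Fin m → ℝ)) from rfl]
    rw [lintegral_prod_mul (f := fun a => ‖u (cplx a y3)‖ₑ ^ p) (g := fun b : Fin m → ℝ => ENNReal.ofReal (∏ j : Fin m, 1 / (1 + b j ^ 2)))]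
    · exact mul_le_mul' (hC y3 hy3c) le_rfl
    · exact ((hucont.measurable.enorm).pow_const _).aemeasurable
    · apply Measurable.aemeasurable
      apply Measurable.ennreal_ofReal
      fun_prop
  · -- the set
    set T : Set ((Fin 3 → ℝ) × (Fin m → ℝ)) := E ×ˢ (Set.univ.pi fun _ => Set.Icc (-1 : ℝ) 1) with hT
    have hTm : MeasurableSet T := hEm.prod (MeasurableSet.univ_pi fun _ => measurableSet_Icc)
    have hTv : 0 < volume T := by
      rw [hT, show (volume : Measure ((Fin 3 → ℝ) × (Fin m → ℝ))) = (volume : Measure (Fin 3 → ℝ)).prod (volume : Measure (Fin m → ℝ)) from rfl,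
        Measure.prod_prod]
      apply ENNReal.mul_pos hEv.ne'
      rw [show (volume : Measure (Fin m → ℝ)) = Measure.pi fun _ => volume from rfl, Measure.pi_pi]
      simp only [Real.volume_Icc]
      rw [Finset.prod_ne_zero_iff]
      intro _ _
      norm_num
    refine ⟨(Alin m) ⁻¹' ((Psi m).symm ⁻¹' T), ?_, ?_, ?_⟩
    · exact hAcont.measurable ((Psi m).symm.measurable hTm)
    · have h1 : volume ((Alin m) ⁻¹' ((Psi m).symm ⁻¹' T)) = κ * volume ((Psi m).symm ⁻¹' T) :=
        Measure.addHaar_preimage_linearMap volume hdet _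
      rw [h1]
      apply ENNReal.mul_pos hκ0.ne'
      have h2 := ((Psi_mp m).symm).measure_preimage hTm.nullMeasurableSet
      rw [h2]
      exact hTv.ne'
    · intro x hx M δ hδ
      have hx' : (Psi m).symm (Alin m x) ∈ T := hx
      set q := (Psi m).symm (Alin m x) with hq
      have hqx : Psi m q = Alin m x := by rw [hq]; exact MeasurableEquiv.apply_symm_apply _ _
      have hl : ∀ i, Afun m x (eS m (Sum.inl i)) = q.1 i := by
        intro i
        have := Psi_apply m q (Sum.inl i)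
        rw [hqx] at this
        exact this
      have hr : ∀ j, Afun m x (eS m (Sum.inr j)) = q.2 j := by
        intro j
        have := Psi_apply m q (Sum.inr j)
        rw [hqx] at this
        exact this
      obtain ⟨hx1, hx2⟩ := hx'
      obtain ⟨y, hy, hyδ, hyM⟩ := hE q.1 hx1 (|M| * 3 ^ (N * m)) (min δ 1) (lt_min hδ one_pos)
      refine ⟨lf m y, lf_mem m hy, lt_of_le_of_lt (lf_norm m y) (lt_of_lt_of_le hyδ (min_le_left _ _)), ?_⟩
      unfold FL
      simp only [Afun_cplx, Afun_lf_l, Afun_lf_r, hl, hr]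
      rw [norm_mul, norm_prod]
      have hprod : (1 / 3 : ℝ) ^ (N * m) ≤ ∏ j : Fin m, ‖((1 : ℂ) / (((q.2 j : ℝ) : ℂ) + (((y 0 + y 2) / 2 : ℝ) : ℂ) * Complex.I + Complex.I)) ^ N‖ := by
        have h4 : ∏ j : Fin m, ((1 / 3 : ℝ) ^ N) = (1 / 3 : ℝ) ^ (N * m) := by
          rw [Finset.prod_const, Finset.card_univ, Fintype.card_fin, ← pow_mul]
        rw [← h4]
        apply Finset.prod_le_prod
        · intro _ _; positivity
        · intro j _
          rw [norm_pow]
          apply pow_le_pow_left₀ (by norm_num)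
          have hy0 := hy.1
          have hy2 : 0 < y 2 := by
            by_contra h
            push Not at h
            nlinarith [sq_nonneg (y 1), hy.2]
          have n0 := norm_le_pi_norm y 0
          have n2 := norm_le_pi_norm y 2
          rw [Real.norm_eq_abs, abs_of_pos hy0] at n0
          rw [Real.norm_eq_abs, abs_of_pos hy2] at n2
          have n3 : ‖y‖ ≤ 1 := (lt_of_lt_of_le hyδ (min_le_right _ _)).le
          apply norm_inv_ge
          · have h5 : q.2 j ∈ Set.Icc (-1 : ℝ) 1 := hx2 j (Set.mem_univ j)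
            exact abs_le.2 h5
          · linarith
          · linarith
      have hu0 : ‖u (fun i : Fin 3 => ((q.1 i : ℝ) : ℂ) + ((y i : ℝ) : ℂ) * Complex.I)‖ = ‖u (cplx q.1 y)‖ := rfl
      rw [hu0]
      have h6 : |M| ≤ |M| * 3 ^ (N * m) * (1 / 3 : ℝ) ^ (N * m) := by
        rw [mul_assoc, ← mul_pow]
        norm_num
      calc M ≤ |M| := le_abs_self M
        _ ≤ |M| * 3 ^ (N * m) * (1 / 3 : ℝ) ^ (N * m) := h6
        _ < ‖u (cplx q.1 y)‖ * (1 / 3 : ℝ) ^ (N * m) := mul_lt_mul_of_pos_right hyM (by positivity)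
        _ ≤ _ := mul_le_mul_of_nonneg_left hprod (norm_nonneg _)

end Pool.Agent.Helper682.HU
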