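import Mathlib
import Pool.Agent.Helper682.HU.H9

set_option autoImplicit false

namespace Pool.Agent.Helper682.HU

open MeasureTheory Filter Topology

theorem no_limit {n : ℕ} (Γ : Set (Fin n → ℝ)) (G : (Fin n → ℝ) → ℂ)
    (h : ∀ M δ : ℝ, 0 < δ → ∃ y ∈ Γ, ‖y‖ < δ ∧ M < ‖G y‖) (l : ℂ) : ¬ Tendsto G (𝓝[Γ] 0) (𝓝 l) := by
  intro ht
  have h1 : ∀ᶠ y in 𝓝[Γ] (0 : Fin n → ℝ), ‖G y‖ < ‖l‖ + 1 := by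
    have h2 := ht.norm
    exact h2.eventually_lt_const (by linarith)
  rw [eventually_nhdsWithin_iff, Metric.eventually_nhds_iff] at h1
  obtain ⟨δ, hδ, h3⟩ := h1
  obtain ⟨y, hy, hyδ, hyM⟩ := h (‖l‖ + 1) δ hδ
  have h4 := h3 (by rwa [dist_zero_right]) hy
  linarith

theorem lift' (m : ℕ) (p : ℝ) (hp : 0 < p) (h3 : Wild3 p) : ∃ F : (Fin (m + 3) → ℂ) → ℂ,
    (DifferentiableOn ℂ F {z | (fun k => (z k).im) ∈ LC m} ∧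
    ∃ C : ℝ, ∀ y ∈ LC m, ∫⁻ x : Fin (m + 3) → ℝ, ‖F (fun k => (x k : ℂ) + (y k : ℂ) * Complex.I)‖ₑ ^ p ≤ ENNReal.ofReal C) ∧
    ∃ E : Set (Fin (m + 3) → ℝ), MeasurableSet E ∧ 0 < volume E ∧ ∀ x ∈ E, (∀ M δ : ℝ, 0 < δ →
      ∃ y ∈ LC m, ‖y‖ < δ ∧ M < ‖F (fun k => (x k : ℂ) + (y k : ℂ) * Complex.I)‖) ∧
      ∀ l : ℂ, ¬ Tendsto (fun y : Fin (m + 3) → ℝ => F (fun k => (x k : ℂ) + (y k : ℂ) * Complex.I)) (𝓝[LC m] 0) (𝓝 l) := by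
  obtain ⟨F, hF, hC, E, hEm, hEv, hE⟩ := lift m p hp h3
  exact ⟨F, ⟨hF, hC⟩, E, hEm, hEv, fun x hx => ⟨hE x hx, fun l => no_limit _ _ (hE x hx) l⟩⟩

theorem main_le_two (m : ℕ) (p : ℝ) (hp : 0 < p) (hp2 : p ≤ 2) : ∃ F : (Fin (m + 3) → ℂ) → ℂ,
    (DifferentiableOn ℂ F {z | (fun k => (z k).im) ∈ LC m} ∧
    ∃ C : ℝ, ∀ y ∈ LC m, ∫⁻ x : Fin (m + 3) → ℝ, ‖F (fun k => (x k : ℂ) + (y k : ℂ) * Complex.I)‖ₑ ^ p ≤ ENNReal.ofReal C) ∧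
    ∃ E : Set (Fin (m + 3) → ℝ), MeasurableSet E ∧ 0 < volume E ∧ ∀ x ∈ E, (∀ M δ : ℝ, 0 < δ →
      ∃ y ∈ LC m, ‖y‖ < δ ∧ M < ‖F (fun k => (x k : ℂ) + (y k : ℂ) * Complex.I)‖) ∧
      ∀ l : ℂ, ¬ Tendsto (fun y : Fin (m + 3) → ℝ => F (fun k => (x k : ℂ) + (y k : ℂ) * Complex.I)) (𝓝[LC m] 0) (𝓝 l) :=
  lift' m p hp (main3 p hp hp2)

end Pool.Agent.Helper682.HU
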