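import Mathlib
import Pool.Agent.Helper682.HU.H6

set_option autoImplicit false

namespace Pool.Agent.Helper682.HU

open MeasureTheory

theorem posDef_two (a b c : ℝ) : (!![a, b; b, c] : Matrix (Fin 2) (Fin 2) ℝ).PosDef ↔ 0 < a ∧ b ^ 2 < a * c := by
  constructor
  · intro h
    have h1 := h.diag_pos (i := 0)
    have h2 := h.det_pos
    rw [Matrix.det_fin_two_of] at h2
    simp at h1
    exact ⟨h1, by nlinarith⟩
  · rintro ⟨ha, hb⟩
    apply Matrix.PosDef.of_dotProduct_mulVec_pos
    · ext i j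
      fin_cases i <;> fin_cases j <;> simp
    · intro x hx
      have e : star x ⬝ᵥ (!![a, b; b, c] : Matrix (Fin 2) (Fin 2) ℝ).mulVec x = a * x 0 ^ 2 + 2 * b * x 0 * x 1 + c * x 1 ^ 2 := by
        simp [dotProduct, Matrix.mulVec, Fin.sum_univ_two]
        ring
      rw [e]
      have hne : x 0 ≠ 0 ∨ x 1 ≠ 0 := by
        by_contra hcon
        push Not at hcon
        apply hx
        ext i
        fin_cases i
        · exact hcon.1
        · exact hcon.2
      have key : a * (a * x 0 ^ 2 + 2 * b * x 0 * x 1 + c * x 1 ^ 2) = (a * x 0 + b * x 1) ^ 2 + (a * c - b ^ 2) * x 1 ^ 2 := by ring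
      have hpos : 0 < a * (a * x 0 ^ 2 + 2 * b * x 0 * x 1 + c * x 1 ^ 2) := by
        rw [key]
        by_cases h1 : x 1 = 0
        · have h0 : x 0 ≠ 0 := by
            rcases hne with h | h
            · exact h
            · exact absurd h1 h
          rw [h1]
          have : 0 < (a * x 0) ^ 2 := by positivity
          nlinarith
        · have : 0 < x 1 ^ 2 := by positivity
          have : 0 < (a * c - b ^ 2) * x 1 ^ 2 := mul_pos (by linarith) this
          nlinarith [sq_nonneg (a * x 0 + b * x 1)]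
      exact pos_of_mul_pos_of_pos_left' hpos ha
where
  pos_of_mul_pos_of_pos_left' {u v : ℝ} (h : 0 < u * v) (hu : 0 < u) : 0 < v := by
    by_contra hv
    push Not at hv
    nlinarith

abbrev Idx : Type := {p : Fin 2 × Fin 2 // p.1 ≤ p.2}

def i00 : Idx := ⟨(0, 0), le_rfl⟩
def i01 : Idx := ⟨(0, 1), by decide⟩
def i11 : Idx := ⟨(1, 1), le_rfl⟩

/-- the three entries -/
def eI : Fin 3 ≃ Idx where
  toFun := ![i00, i01, i11]
  invFun p := if p = i00 then 0 else if p = i01 then 1 else 2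
  left_inv j := by fin_cases j <;> decide
  right_inv := by decide

theorem eI_0 : eI 0 = i00 := rfl
theorem eI_1 : eI 1 = i01 := rfl
theorem eI_2 : eI 2 = i11 := rfl

theorem posDef_iff (y : Idx → ℝ) :
    (Matrix.of (fun (i j : Fin 2) => if h : i ≤ j then y ⟨(i, j), h⟩ else y ⟨(j, i), (not_le.mp h).le⟩)).PosDef ↔
      cone (fun j => y (eI j)) := by
  have e : (Matrix.of (fun (i j : Fin 2) => if h : i ≤ j then y ⟨(i, j), h⟩ else y ⟨(j, i), (not_le.mp h).le⟩)) =
      !![y i00, y i01; y i01, y i11] := by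
    ext i j
    fin_cases i <;> fin_cases j <;> rfl
  rw [e, posDef_two]
  unfold cone
  simp only [eI_0, eI_1, eI_2]

theorem negation :
    ¬ (∀ n : ℕ, ∀ S : ({p : Fin n × Fin n // p.1 ≤ p.2} → ℝ) → Matrix (Fin n) (Fin n) ℝ,
    S = (fun (y : {p : Fin n × Fin n // p.1 ≤ p.2} → ℝ) =>
      Matrix.of (fun (i j : Fin n) =>
        if h : i ≤ j then y ⟨(i, j), h⟩ else y ⟨(j, i), (not_le.mp h).le⟩)) →
    ∀ u : ({p : Fin n × Fin n // p.1 ≤ p.2} → ℂ) → ℂ,
      DifferentiableOn ℂ u
        {z : {p : Fin n × Fin n // p.1 ≤ p.2} → ℂ | (S (fun k => (z k).im)).PosDef} →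
      (∃ C : ℝ, ∀ y : {p : Fin n × Fin n // p.1 ≤ p.2} → ℝ, (S y).PosDef →
        ∫⁻ (x : {p : Fin n × Fin n // p.1 ≤ p.2} → ℝ),
          ‖u (fun k => (x k : ℂ) + (y k : ℂ) * Complex.I)‖ₑ ^ 2 ≤ ENNReal.ofReal C) →
      ∀ᵐ (x : {p : Fin n × Fin n // p.1 ≤ p.2} → ℝ)
          ∂(volume : Measure ({p : Fin n × Fin n // p.1 ≤ p.2} → ℝ)),
        ∃ M : ℝ, ∀ y : {p : Fin n × Fin n // p.1 ≤ p.2} → ℝ, (S y).PosDef →
          ‖u (fun k => (x k : ℂ) + (y k : ℂ) * Complex.I)‖ ≤ M) := by
  intro H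
  obtain ⟨u, hd, ⟨C, hC⟩, E, hEm, hEv, hE⟩ := main3 2 (by norm_num) le_rfl
  have h := H 2 _ rfl (fun z => u (fun j => z (eI j))) ?_ ?_
  · -- transfer the almost everywhere statement
    have hmp := volume_measurePreserving_piCongrLeft (fun _ : Idx => ℝ) eI
    have h2 := hmp.quasiMeasurePreserving.ae h
    have h3 : ∀ᵐ x : Fin 3 → ℝ, x ∉ E := by
      filter_upwards [h2] with x hx hxE
      obtain ⟨M, hM⟩ := hx
      obtain ⟨y, hy, _, hyM⟩ := hE x hxE M 1 one_pos
      have hy3 : cone (fun j => (fun k => y (eI.symm k)) (eI j)) := by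
        simpa only [Equiv.symm_apply_apply] using hy
      have h4 := hM (fun k => y (eI.symm k)) ((posDef_iff (fun k => y (eI.symm k))).2 hy3)
      have h5 : (fun j => ((MeasurableEquiv.piCongrLeft (fun _ : Idx => ℝ) eI x (eI j) : ℝ) : ℂ) +
          ((y (eI.symm (eI j)) : ℝ) : ℂ) * Complex.I) = cplx x y := by
        funext j
        unfold cplx
        rw [Equiv.symm_apply_apply]
        congr 2
        exact Equiv.piCongrLeft_apply_apply (fun _ : Idx => ℝ) eI x j
      beta_reduce at h4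
      rw [h5] at h4
      linarith
    have h4 : volume E = 0 := by
      have := (ae_iff.1 h3)
      simpa using this
    rw [h4] at hEv
    exact lt_irrefl _ hEv
  · -- holomorphy
    apply hd.comp
    · apply Differentiable.differentiableOn
      fun_prop
    · intro z hz
      exact (posDef_iff (fun k => (z k).im)).1 hz
  · refine ⟨C, fun y hy => ?_⟩
    have hy' := (posDef_iff y).1 hy
    have hb := hC _ hy'
    have hmp := volume_measurePreserving_piCongrLeft (fun _ : Idx => ℝ) eI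
    have h1 := hmp.lintegral_comp_emb (MeasurableEquiv.measurableEmbedding _)
      (fun x : Idx → ℝ => ‖u (fun j => (x (eI j) : ℂ) + (y (eI j) : ℂ) * Complex.I)‖ₑ ^ 2)
    beta_reduce at h1 ⊢
    rw [← h1]
    refine le_of_eq_of_le ?_ hb
    congr 1
    funext x
    have h5 : (fun j => ((MeasurableEquiv.piCongrLeft (fun _ : Idx => ℝ) eI x (eI j) : ℝ) : ℂ) +
          ((y (eI j) : ℝ) : ℂ) * Complex.I) = cplx x (fun j => y (eI j)) := by
      funext j
      unfold cplx
      congr 2
      exact Equiv.piCongrLeft_apply_apply (fun _ : Idx => ℝ) eI x j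
    rw [h5]
    norm_num

end Pool.Agent.Helper682.HU
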