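import Mathlib
import Pool.Agent.Helper682.HU.H3

set_option autoImplicit false

namespace Pool.Agent.Helper682.HU
open MeasureTheory Finset

/-- increments attached to the frequency `Ξ` (third coordinate `B^(2c)`), with coefficients in lower frequencies -/
structure Adm (D B c : ℕ) (Ξ : Fin 3 → ℤ) (d : (Fin 3 → ℝ) → ℂ) (g : (Fin 3 → ℝ) → ℝ) : Prop where
  rep : ∃ (I : Type) (_ : Fintype I) (u : I → (Fin 3 → ℝ) → ℂ) (n : I → ℤ),
    (∀ i, n i ≠ 0 ∧ |n i| ≤ D) ∧ (∀ i, BL (D * (B : ℝ) ^ (2 * (c - 1))) (u i)) ∧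
    ∀ x, d x = ∑ i, u i x * ee (n i * dr Ξ x)
  g_nonneg : ∀ x, 0 ≤ g x
  g_le : ∀ x, g x ≤ 1
  g_BL : BL (D * (B : ℝ) ^ (2 * (c - 1))) (fun x => (g x : ℂ))
  d_le : ∀ x, ‖d x‖ ≤ g x

/-- increments of the mass of the packets -/
noncomputable def dl (P : ℝ → ℝ) (B : ℕ) (S : List Bool) (x : Fin 3 → ℝ) : ℝ :=
  ∫ s in (0:ℝ)..1, (P (dr (Xi B S) x + s) - P (dr (Xi B S) x)) * GR P B (fun _ => s) S x


theorem JH_GRs_cont {N B : ℕ} {P : ℝ → ℝ} {c : ℤ → ℂ} (hP : Sel N P c) (S : List Bool)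
    (x : Fin 3 → ℝ) : Continuous fun s : ℝ => GR P B (fun _ => s) S x :=
  (GR_cont' hP B S).comp (Continuous.prodMk_right x)

theorem JH_BL {N B : ℕ} {P : ℝ → ℝ} {c : ℤ → ℂ} (hP : Sel N P c) (hB : 4 ≤ B) (S : List Bool)
    (w : ℝ → ℂ) (hw : Continuous w) :
    BL ((4 * N + 1 : ℕ) * (B : ℝ) ^ (2 * (code S - 1)))
      (fun x => ∫ s in (0:ℝ)..1, (GR P B (fun _ => s) S x : ℂ) * w s) := by
  obtain ⟨I, hI, a, ξ, m, hR, hA, hrep⟩ := GC_rep N c B S
  refine ⟨I, hI, fun i => a i * ∫ s in (0:ℝ)..1, ee (m i * s) * w s, ξ, fun i => ?_, fun x => ?_⟩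
  · obtain ⟨c', b', a', hc, _, h1, _, _⟩ := reach_form hB (hR i)
    rw [← hc]
    refine h1.trans ?_
    apply mul_le_mul_of_nonneg_right _ (by positivity)
    push_cast
    linarith
  · have hec := ee_cont
    have h1 : ∀ s : ℝ, (GR P B (fun _ => s) S x : ℂ) * w s =
        ∑ i, (a i * ee (dr (ξ i) x)) * (ee (m i * s) * w s) := by
      intro s
      rw [← GC_real hP, hrep, Finset.sum_mul]
      congr 1; funext i
      rw [dz_real, ee_add]
      ring
    simp only [h1]
    rw [intervalIntegral.integral_finsetSum]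
    · simp only [intervalIntegral.integral_const_mul]
      congr 1; funext i
      ring
    · intro i _
      apply Continuous.intervalIntegrable
      fun_prop

theorem JH_gBL {N B : ℕ} {P : ℝ → ℝ} {c : ℤ → ℂ} (hP : Sel N P c) (hB : 4 ≤ B) (S : List Bool) :
    BL ((4 * N + 1 : ℕ) * (B : ℝ) ^ (2 * (code S - 1))) (fun x => (gR P B S x : ℂ)) := by
  have h := JH_BL hP hB S (fun _ => 1) continuous_const
  have e : (fun x => ∫ s in (0:ℝ)..1, (GR P B (fun _ => s) S x : ℂ) * 1) =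
      fun x => (gR P B S x : ℂ) := by
    funext x
    simp only [mul_one]
    rw [gR, intervalIntegral.integral_ofReal]
  rwa [e] at h

theorem adm_F {N B : ℕ} {P : ℝ → ℝ} {c : ℤ → ℂ} (hP : Sel N P c) (hB : 4 ≤ B) (S : List Bool) :
    Adm (4 * N + 1) B (code S) (Xi B S) (fun x => ee (dr (Xi B S) x) * hR P B S x) (gR P B S) := by
  refine ⟨⟨Unit, inferInstance, fun _ => hR P B S, fun _ => 1, fun _ => ⟨one_ne_zero, ?_⟩,
    fun _ => ?_, fun x => ?_⟩, gR_nonneg hP B S, gR_le hP B S, JH_gBL hP hB S, fun x => ?_⟩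
  · rw [abs_one]; push_cast; omega
  · refine JH_BL hP hB S (fun s => ee (-(s:ℂ))) ?_
    have hec := ee_cont
    fun_prop
  · simp [mul_comm]
  · rw [norm_mul, ee_norm_real, one_mul]
    exact hR_le hP B S x

theorem adm_M {N B : ℕ} {P : ℝ → ℝ} {c : ℤ → ℂ} (hP : Sel N P c) (hB : 4 ≤ B) (S : List Bool) :
    Adm (4 * N + 1) B (code S) (Xi B S) (fun x => (dl P B S x : ℂ)) (gR P B S) := by
  classical
  have hec := ee_cont
  obtain ⟨J, hJ⟩ : ∃ J : Finset ℤ, J = (Icc (-(N:ℤ)) N).filter (fun n => n ≠ 0) := ⟨_, rfl⟩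
  refine ⟨⟨{n : ℤ // n ∈ J}, inferInstance,
    fun n x => ∫ s in (0:ℝ)..1, (GR P B (fun _ => s) S x : ℂ) * (c n.1 * (ee (n.1 * s) - 1)),
    fun n => n.1, fun n => ?_, fun n => ?_, fun x => ?_⟩, gR_nonneg hP B S, gR_le hP B S,
    JH_gBL hP hB S, fun x => ?_⟩
  · obtain ⟨n, hn⟩ := n
    rw [hJ, Finset.mem_filter, Finset.mem_Icc] at hn
    refine ⟨hn.2, ?_⟩
    have : |n| ≤ (N:ℤ) := abs_le.2 hn.1
    push_cast
    show |n| ≤ _
    have hN : (0:ℤ) ≤ N := by positivity
    linarith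
  · refine JH_BL hP hB S (fun s => c n.1 * (ee (n.1 * s) - 1)) ?_
    fun_prop
  · have h1 : ∀ s : ℝ, (((P (dr (Xi B S) x + s) - P (dr (Xi B S) x)) * GR P B (fun _ => s) S x : ℝ) : ℂ) =
        ∑ n ∈ Icc (-(N:ℤ)) N, ((GR P B (fun _ => s) S x : ℂ) * (c n * (ee (n * s) - 1))) *
          ee (n * dr (Xi B S) x) := by
      intro s
      push_cast
      rw [hP.rep, hP.rep, ← Finset.sum_sub_distrib, Finset.sum_mul]
      refine Finset.sum_congr rfl fun n _ => ?_
      push_cast
      rw [mul_add, ee_add]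
      ring
    have h2 : (dl P B S x : ℂ) = ∫ s in (0:ℝ)..1,
        (((P (dr (Xi B S) x + s) - P (dr (Xi B S) x)) * GR P B (fun _ => s) S x : ℝ) : ℂ) := by
      rw [dl, intervalIntegral.integral_ofReal]
    beta_reduce
    rw [h2]
    simp only [h1]
    rw [intervalIntegral.integral_finsetSum]
    · simp only [intervalIntegral.integral_mul_const]
      have h3 : ∀ n : ℤ, n = 0 → (∫ s in (0:ℝ)..1, (GR P B (fun _ => s) S x : ℂ) *
          (c n * (ee (n * s) - 1))) * ee (n * dr (Xi B S) x) = 0 := by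
        intro n hn
        rw [hn]; simp [ee_zero]
      rw [← Finset.sum_filter_add_sum_filter_not (Icc (-(N:ℤ)) N) (fun n => n ≠ 0)]
      rw [Finset.sum_eq_zero (s := (Icc (-(N:ℤ)) N).filter (fun n => ¬ n ≠ 0))
        (fun n hn => h3 n (not_not.1 (Finset.mem_filter.1 hn).2)), add_zero, ← hJ]
      exact (Finset.sum_coe_sort J (fun n =>
        (∫ s in (0:ℝ)..1, (GR P B (fun _ => s) S x : ℂ) * (c n * (ee (n * s) - 1))) *
          ee (n * dr (Xi B S) x))).symm
    · intro n _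
      apply Continuous.intervalIntegrable
      have hc := JH_GRs_cont (B := B) hP S x
      have hc' : Continuous fun s : ℝ => (GR P B (fun _ => s) S x : ℂ) :=
        Complex.continuous_ofReal.comp hc
      fun_prop
  · rw [Complex.norm_real]
    unfold dl gR
    apply intervalIntegral.norm_integral_le_of_norm_le zero_le_one
    · apply Filter.Eventually.of_forall
      intro s _
      have hg := GR_nonneg hP B (fun _ => s) S x
      rw [norm_mul, Real.norm_of_nonneg hg]
      have h1 : ‖P (dr (Xi B S) x + s) - P (dr (Xi B S) x)‖ ≤ 1 := by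
        rw [Real.norm_eq_abs, abs_le]
        have a1 := hP.nonneg (dr (Xi B S) x + s)
        have a2 := hP.nonneg (dr (Xi B S) x)
        have a3 := hP.le_one (dr (Xi B S) x + s)
        have a4 := hP.le_one (dr (Xi B S) x)
        constructor <;> linarith
      calc _ ≤ 1 * GR P B (fun _ => s) S x := mul_le_mul_of_nonneg_right h1 hg
        _ = _ := one_mul _
    · exact (JH_GRs_cont hP S x).intervalIntegrable _ _

/-- evolution of the mass -/
theorem mass_step {N B : ℕ} {P : ℝ → ℝ} {c : ℤ → ℂ} (hP : Sel N P c) (K : ℕ) (x : Fin 3 → ℝ) :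
    ∑ S ∈ Bk K, gR P B S x = 1 + ∑ k ∈ range K, ∑ S ∈ Bk k, dl P B S x := by
  induction K with
  | zero => simp [Bk, gR, GR, Wf]
  | succ K ih =>
    rw [sum_Bk_succ, Finset.sum_range_succ, ← add_assoc, ← ih, ← Finset.sum_add_distrib]
    refine Finset.sum_congr rfl fun S _ => ?_
    have hc : ∀ T, Continuous fun s : ℝ => GR P B (fun _ => s) T x := fun T => JH_GRs_cont hP T x
    have hPc := P_cont hP
    unfold gR dl
    rw [← intervalIntegral.integral_add ((hc _).intervalIntegrable _ _)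
      ((hc _).intervalIntegrable _ _), ← intervalIntegral.integral_add
      ((hc _).intervalIntegrable _ _)]
    · congr 1
      funext s
      simp only [GR, Wf, PP, sh]
      simp only [Bool.false_eq_true, if_false, if_true, add_zero]
      ring
    · apply Continuous.intervalIntegrable
      exact ((hPc.comp (continuous_const.add continuous_id)).sub continuous_const).mul (hc S)

end Pool.Agent.Helper682.HU
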