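import Mathlib
import Pool.Agent.Helper682.HU.XN
import Pool.Agent.Helper682.HU.YJ3

set_option autoImplicit false

namespace Pool.Agent.Helper682.HU

open MeasureTheory Finset

theorem code_surj (n : ℕ) (hn : 1 ≤ n) : ∃ S : List Bool, code S = n := by
  induction n using Nat.strong_induction_on with
  | _ n ih =>
    rcases Nat.lt_or_ge n 2 with h | h
    · exact ⟨[], by simp [code]; omega⟩
    · obtain ⟨S, hS⟩ := ih (n / 2) (by omega) (by omega)
      refine ⟨decide (n % 2 = 1) :: S, ?_⟩
      simp only [code, hS]
      by_cases h2 : n % 2 = 1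
      · simp [h2]; omega
      · simp [h2]; omega

noncomputable def node (n : ℕ) : List Bool := if h : 1 ≤ n then (code_surj n h).choose else []

theorem code_node {n : ℕ} (hn : 1 ≤ n) : code (node n) = n := by
  unfold node
  rw [dif_pos hn]
  exact (code_surj n hn).choose_spec

theorem node_code (S : List Bool) : node (code S) = S :=
  code_inj_aux_HN _ _ (code_node (code_pos S))

theorem node_even {n : ℕ} (hn : 1 ≤ n) : node (2 * n) = false :: node n := by
  apply code_inj_aux_HN
  rw [code_node (by omega)]
  simp [code, code_node hn]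

theorem node_odd {n : ℕ} (hn : 1 ≤ n) : node (2 * n + 1) = true :: node n := by
  apply code_inj_aux_HN
  rw [code_node (by omega)]
  simp [code, code_node hn]

theorem sum_double {M : Type*} [AddCommMonoid M] (g : ℕ → M) (a b : ℕ) (hab : a ≤ b) :
    ∑ c ∈ Ico (2 * a) (2 * b), g c = ∑ c ∈ Ico a b, (g (2 * c) + g (2 * c + 1)) := by
  induction b, hab using Nat.le_induction with
  | base => simp
  | succ b hab ih =>
    rw [Finset.sum_Ico_succ_top hab, ← ih, show 2 * (b + 1) = 2 * b + 1 + 1 by ring,
      Finset.sum_Ico_succ_top (by omega), Finset.sum_Ico_succ_top (by omega), add_assoc]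

theorem sum_level {M : Type*} [AddCommMonoid M] (f : List Bool → M) (k : ℕ) :
    ∑ S ∈ Bk k, f S = ∑ c ∈ Ico (2 ^ k) (2 ^ (k + 1)), f (node c) := by
  induction k generalizing f with
  | zero =>
    have h1 : node 1 = [] := by
      apply code_inj_aux_HN
      rw [code_node le_rfl]
      simp [code]
    simp [Bk, h1]
  | succ k ih =>
    rw [sum_Bk_succ, ih, pow_succ' 2 (k + 1), pow_succ' 2 k, sum_double _ _ _ (by
      have : 0 < 2 ^ k := by positivity
      omega)]
    · rw [← pow_succ']
      apply Finset.sum_congr rfl
      intro c hc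
      have hc1 : 1 ≤ c := by
        have h1 := (Finset.mem_Ico.1 hc).1
        have : 0 < 2 ^ k := by positivity
        omega
      rw [node_even hc1, node_odd hc1]

theorem sum_levels {M : Type*} [AddCommMonoid M] (f : List Bool → M) (K : ℕ) :
    ∑ k ∈ range K, ∑ S ∈ Bk k, f S = ∑ c ∈ Ico 1 (2 ^ K), f (node c) := by
  induction K with
  | zero => simp
  | succ K ih =>
    rw [Finset.sum_range_succ, ih, sum_level, Finset.sum_Ico_consecutive]
    · exact Nat.one_le_two_pow
    · exact Nat.pow_le_pow_right (by norm_num) (by omega)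

end Pool.Agent.Helper682.HU
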