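import Mathlib
import Pool.Agent.Helper682.HU.YJ3

set_option autoImplicit false

namespace Pool.Agent.Helper682.HU
open MeasureTheory Finset



theorem BL.add {R : ℝ} {f g : (Fin 3 → ℝ) → ℂ} (hf : BL R f) (hg : BL R g) :
    BL R (fun x => f x + g x) := by
  obtain ⟨I, hI, a, n, hn, hf⟩ := hf
  obtain ⟨J, hJ, b, m, hm, hg⟩ := hg
  refine ⟨I ⊕ J, inferInstance, Sum.elim a b, Sum.elim n m, ?_, ?_⟩
  · rintro (i | j)
    · exact hn i
    · exact hm j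
  · intro t
    beta_reduce
    rw [hf, hg, Fintype.sum_sum_type]
    rfl

theorem BL.cj {R : ℝ} {f : (Fin 3 → ℝ) → ℂ} (hf : BL R f) :
    BL R (fun x => (starRingEnd ℂ) (f x)) := by
  obtain ⟨I, hI, a, n, hn, hf⟩ := hf
  refine ⟨I, hI, fun i => (starRingEnd ℂ) (a i), fun i => (-1 : ℤ) • n i, ?_, ?_⟩
  · intro i
    simpa using hn i
  · intro x
    beta_reduce
    rw [hf, map_sum]
    congr 1; funext i
    rw [map_mul, ee_conj, dr_smul]
    push_cast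
    ring_nf

theorem BL.fsum {α : Type} {R : ℝ} (hR : 0 ≤ R) (s : Finset α) {f : α → (Fin 3 → ℝ) → ℂ}
    (h : ∀ i ∈ s, BL R (f i)) : BL R (fun x => ∑ i ∈ s, f i x) := by
  classical
  induction s using Finset.induction_on with
  | empty => simpa using BL.const hR 0
  | insert a s ha ih =>
    have h1 : (fun x => ∑ i ∈ insert a s, f i x) = fun x => f a x + ∑ i ∈ s, f i x := by
      funext x
      rw [Finset.sum_insert ha]
    rw [h1]
    exact (h a (Finset.mem_insert_self a s)).add (ih fun i hi => h i (Finset.mem_insert_of_mem hi))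

theorem BL.pw {R : ℝ} {f : (Fin 3 → ℝ) → ℂ} (hf : BL R f) (r : ℕ) :
    BL (r * R) (fun x => f x ^ r) := by
  induction r with
  | zero => simpa using BL.const (le_refl 0) 1
  | succ r ih =>
    have h1 : (fun x => f x ^ (r + 1)) = fun x => f x ^ r * f x := by
      funext x
      rw [pow_succ]
    rw [h1]
    have h2 := ih.mul hf
    have h3 : ((r + 1 : ℕ) : ℝ) * R = r * R + R := by push_cast; ring
    rw [h3]
    exact h2

/-- oscillating factor of high frequency -/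
theorem BL.osc {D : ℕ} {M : ℝ} {n : ℤ} {Ξ : Fin 3 → ℤ} (hM : 0 ≤ M) (hΞ : ((Ξ 2 : ℤ) : ℝ) = M)
    (hn : |n| ≤ D) : BL (D * M) (fun x => ee (n * dr Ξ x)) := by
  refine ⟨Unit, inferInstance, fun _ => 1, fun _ => n • Ξ, ?_, ?_⟩
  · intro _
    simp only [Pi.smul_apply, smul_eq_mul]
    push_cast
    rw [hΞ, abs_mul, abs_of_nonneg hM]
    have : (|n| : ℤ) ≤ (D : ℤ) := hn
    have h2 : |(n : ℝ)| ≤ D := by exact_mod_cast this
    exact mul_le_mul_of_nonneg_right h2 hM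
  · intro x
    simp only [Finset.univ_unique, Finset.sum_const, Finset.card_singleton, one_smul, one_mul]
    rw [dr_smul]
    push_cast
    rfl

theorem osc_int {M R : ℝ} {n : ℤ} {Ξ : Fin 3 → ℤ} (hM : 0 ≤ M) (hΞ : ((Ξ 2 : ℤ) : ℝ) = M)
    (hn : n ≠ 0) (hR : R < M) {f : (Fin 3 → ℝ) → ℂ} (hf : BL R f) :
    ∫ x in cube, f x * ee (n * dr Ξ x) = 0 := by
  obtain ⟨I, hI, a, ξ, hξ, hf⟩ := hf
  have hint : ∀ ζ : Fin 3 → ℤ, IntegrableOn (fun x => ee (dr ζ x)) cube := fun ζ => cint (by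
    have := dr_cont ζ
    have := ee_cont
    fun_prop)
  have h1 : ∀ x, f x * ee (n * dr Ξ x) = ∑ i, a i * ee (dr (ξ i + n • Ξ) x) := by
    intro x
    rw [hf, Finset.sum_mul]
    congr 1; funext i
    rw [dr_add, dr_smul]
    push_cast
    rw [ee_add]
    ring
  simp only [h1]
  rw [integral_finsetSum _ (fun i _ => (hint _).const_mul _)]
  apply Finset.sum_eq_zero
  intro i _
  rw [integral_const_mul, orth, if_neg, mul_zero]
  intro h0
  have h2 := congrFun h0 2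
  simp only [Pi.add_apply, Pi.smul_apply, smul_eq_mul, Pi.zero_apply] at h2
  have h3 : (ξ i 2 : ℝ) + n * (Ξ 2 : ℝ) = 0 := by exact_mod_cast h2
  rw [hΞ] at h3
  have h4 : (1:ℝ) ≤ |(n : ℝ)| := by
    have : (1:ℤ) ≤ |n| := Int.one_le_abs hn
    exact_mod_cast this
  have h5 : |(n : ℝ) * M| ≤ R := by
    have : (n : ℝ) * M = -(ξ i 2 : ℝ) := by linarith
    rw [this, abs_neg]; exact hξ i
  rw [abs_mul, abs_of_nonneg hM] at h5
  nlinarith

theorem Adm.d_BL {D B c : ℕ} {Ξ : Fin 3 → ℤ} {d : (Fin 3 → ℝ) → ℂ} {g : (Fin 3 → ℝ) → ℝ}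
    (hΞ : Ξ 2 = (B : ℤ) ^ (2 * c)) (h : Adm D B c Ξ d g) :
    BL (D * (B : ℝ) ^ (2 * (c - 1)) + D * (B : ℝ) ^ (2 * c)) d := by
  obtain ⟨I, hI, u, n, hn, hu, hd⟩ := h.rep
  have h1 : d = fun x => ∑ i, u i x * ee (n i * dr Ξ x) := funext hd
  rw [h1]
  apply BL.fsum (by positivity)
  intro i _
  apply (hu i).mul
  apply BL.osc (by positivity) (by rw [hΞ]; push_cast; rfl) (hn i).2

theorem Adm.ortho {D B c : ℕ} {Ξ : Fin 3 → ℤ} {d : (Fin 3 → ℝ) → ℂ} {g : (Fin 3 → ℝ) → ℝ}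
    (hΞ : Ξ 2 = (B : ℤ) ^ (2 * c)) (h : Adm D B c Ξ d g) {R : ℝ} {ψ : (Fin 3 → ℝ) → ℂ} (hψ : BL R ψ)
    (hR : R + D * (B : ℝ) ^ (2 * (c - 1)) < (B : ℝ) ^ (2 * c)) : ∫ x in cube, ψ x * d x = 0 := by
  obtain ⟨I, hI, u, n, hn, hu, hd⟩ := h.rep
  have h1 : ∀ x, ψ x * d x = ∑ i, (ψ x * u i x) * ee (n i * dr Ξ x) := by
    intro x
    rw [hd, Finset.mul_sum]
    congr 1; funext i
    ring
  simp only [h1]
  have hΞ' : ((Ξ 2 : ℤ) : ℝ) = (B : ℝ) ^ (2 * c) := by rw [hΞ]; push_cast; rfl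
  rw [integral_finsetSum]
  · apply Finset.sum_eq_zero
    intro i _
    exact osc_int (by positivity) hΞ' (hn i).1 hR (hψ.mul (hu i))
  · intro i _
    exact cint ((hψ.mul (hu i)).mul (BL.osc (by positivity) hΞ' (hn i).2)).cont

theorem real_cont_of_BL {R : ℝ} {g : (Fin 3 → ℝ) → ℝ} (h : BL R (fun x => (g x : ℂ))) :
    Continuous g := by
  have h1 := Complex.continuous_re.comp h.cont
  exact h1

/-- elementary expansion inequality -/
theorem elemB (p : ℕ) : ∃ K : ℝ, 0 ≤ K ∧ ∀ t τ h : ℝ, 0 ≤ t → 0 ≤ h → τ ^ 2 ≤ t * h → 0 ≤ t + τ →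
    τ ≤ 2 * t → (t + τ) ^ (p + 1) ≤ t ^ (p + 1) + (p + 1) * t ^ p * τ + K * t ^ p * h := by
  induction p with
  | zero =>
    refine ⟨0, le_rfl, ?_⟩
    intro t τ h _ _ _ _ _
    simp
  | succ p ih =>
    obtain ⟨K, hK, ih⟩ := ih
    refine ⟨(p + 1) + 3 * K, by positivity, ?_⟩
    intro t τ h ht hh h1 h2 h3
    have h4 := mul_le_mul_of_nonneg_right (ih t τ h ht hh h1 h2 h3) h2
    have hp : 0 ≤ t ^ p := by positivity
    have h5 : (p + 1) * t ^ p * τ ^ 2 ≤ (p + 1) * t ^ p * (t * h) :=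
      mul_le_mul_of_nonneg_left h1 (by positivity)
    have h6 : K * t ^ p * h * (t + τ) ≤ K * t ^ p * h * (3 * t) :=
      mul_le_mul_of_nonneg_left (by linarith) (by positivity)
    calc (t + τ) ^ (p + 1 + 1) = (t + τ) ^ (p + 1) * (t + τ) := by ring
      _ ≤ (t ^ (p + 1) + (p + 1) * t ^ p * τ + K * t ^ p * h) * (t + τ) := h4
      _ = t ^ (p + 1 + 1) + (p + 1 + 1) * t ^ (p + 1) * τ + (p + 1) * t ^ p * τ ^ 2
          + K * t ^ p * h * (t + τ) := by ring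
      _ ≤ t ^ (p + 1 + 1) + (p + 1 + 1) * t ^ (p + 1) * τ + (p + 1) * t ^ p * (t * h)
          + K * t ^ p * h * (3 * t) := by linarith
      _ = _ := by push_cast; ring

theorem elemA (s : ℕ) (t t' : ℝ) (ht : 0 ≤ t) (ht' : 0 ≤ t') :
    t ^ (s + 1) + (s + 1) * t ^ s * (t' - t) ≤ t' ^ (s + 1) := by
  induction s with
  | zero => simp
  | succ s ih =>
    have h1 := mul_le_mul_of_nonneg_right ih ht'
    have h2 : 0 ≤ (s + 1) * t ^ s * (t' - t) ^ 2 := by positivity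
    calc t ^ (s + 1 + 1) + ((s + 1 : ℕ) + 1) * t ^ (s + 1) * (t' - t)
        ≤ t ^ (s + 1 + 1) + ((s + 1 : ℕ) + 1) * t ^ (s + 1) * (t' - t) + (s + 1) * t ^ s * (t' - t) ^ 2 := by
          linarith
      _ = (t ^ (s + 1) + (s + 1) * t ^ s * (t' - t)) * t' := by push_cast; ring
      _ ≤ t' ^ (s + 1) * t' := h1
      _ = t' ^ (s + 1 + 1) := by ring

/-- partial sums -/
noncomputable def FS (d : ℕ → (Fin 3 → ℝ) → ℂ) (n : ℕ) (x : Fin 3 → ℝ) : ℂ := ∑ c ∈ Ico 1 n, d c x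

noncomputable def Ph (d : ℕ → (Fin 3 → ℝ) → ℂ) (n : ℕ) (x : Fin 3 → ℝ) : ℝ := 1 + ‖FS d n x‖ ^ 2

theorem FS_succ (d : ℕ → (Fin 3 → ℝ) → ℂ) {c : ℕ} (hc : 1 ≤ c) (x : Fin 3 → ℝ) :
    FS d (c + 1) x = FS d c x + d c x := by
  unfold FS
  rw [Finset.sum_Ico_succ_top hc]

theorem Ph_pos (d : ℕ → (Fin 3 → ℝ) → ℂ) (n : ℕ) (x : Fin 3 → ℝ) : 1 ≤ Ph d n x := by
  unfold Ph
  have := sq_nonneg ‖FS d n x‖
  linarith

theorem Ph_succ (d : ℕ → (Fin 3 → ℝ) → ℂ) {c : ℕ} (hc : 1 ≤ c) (x : Fin 3 → ℝ) :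
    Ph d (c + 1) x = Ph d c x + (2 * ((starRingEnd ℂ) (FS d c x) * d c x).re + ‖d c x‖ ^ 2) := by
  unfold Ph
  rw [FS_succ d hc]
  simp only [← Complex.normSq_eq_norm_sq, Complex.normSq_apply, Complex.mul_re, Complex.conj_re,
    Complex.conj_im, Complex.add_re, Complex.add_im]
  ring

section
variable {D B : ℕ} (hB : 2 ≤ B) {Ξ : ℕ → Fin 3 → ℤ} (hΞ : ∀ c, Ξ c 2 = (B : ℤ) ^ (2 * c))
  {d : ℕ → (Fin 3 → ℝ) → ℂ} {g : ℕ → (Fin 3 → ℝ) → ℝ}
  (h : ∀ c, 1 ≤ c → Adm D B c (Ξ c) (d c) (g c))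
include hB hΞ h

theorem FS_BL (c : ℕ) : BL (2 * D * (B : ℝ) ^ (2 * (c - 1))) (FS d c) := by
  have h1 : FS d c = fun x => ∑ c' ∈ Ico 1 c, d c' x := rfl
  rw [h1]
  apply BL.fsum (by positivity)
  intro c' hc'
  rw [Finset.mem_Ico] at hc'
  apply ((h c' hc'.1).d_BL (hΞ c')).mono
  have hB1 : (1 : ℝ) ≤ B := by
    have : 1 ≤ B := by omega
    exact_mod_cast this
  have e1 : (B : ℝ) ^ (2 * (c' - 1)) ≤ (B : ℝ) ^ (2 * (c - 1)) := pow_le_pow_right₀ hB1 (by omega)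
  have e2 : (B : ℝ) ^ (2 * c') ≤ (B : ℝ) ^ (2 * (c - 1)) := pow_le_pow_right₀ hB1 (by omega)
  have hD : (0 : ℝ) ≤ D := Nat.cast_nonneg D
  nlinarith [mul_le_mul_of_nonneg_left e1 hD, mul_le_mul_of_nonneg_left e2 hD]

theorem Ph_BL (c : ℕ) : BL (4 * D * (B : ℝ) ^ (2 * (c - 1))) (fun x => (Ph d c x : ℂ)) := by
  have h1 := FS_BL hB hΞ h c
  have h2 := h1.mul h1.cj
  have h3 : (fun x => (Ph d c x : ℂ)) = fun x => 1 + FS d c x * (starRingEnd ℂ) (FS d c x) := by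
    funext x
    rw [Complex.mul_conj']
    unfold Ph
    push_cast
    rfl
  rw [h3]
  apply BL.add (BL.const (by positivity) 1)
  apply h2.mono
  apply le_of_eq
  ring

theorem Ph_cont (c : ℕ) : Continuous (Ph d c) := real_cont_of_BL (Ph_BL hB hΞ h c)

theorem g_cont {c : ℕ} (hc : 1 ≤ c) : Continuous (g c) := real_cont_of_BL (h c hc).g_BL

theorem lin_zero {c : ℕ} (hc : 1 ≤ c) {ψ : (Fin 3 → ℝ) → ℝ} {k : ℕ}
    (hk : (k + 3) * D < B ^ 2)
    (hψ : BL (k * D * (B : ℝ) ^ (2 * (c - 1))) (fun x => (ψ x : ℂ))) :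
    ∫ x in cube, ψ x * (2 * ((starRingEnd ℂ) (FS d c x) * d c x).re) = 0 := by
  have hF := FS_BL hB hΞ h c
  have hL : (0 : ℝ) < (B : ℝ) ^ (2 * (c - 1)) := by positivity
  have hBc : (B : ℝ) ^ (2 * c) = (B : ℝ) ^ 2 * (B : ℝ) ^ (2 * (c - 1)) := by
    rw [← pow_add]
    congr 1
    omega
  have hk' : ((k : ℝ) + 3) * D < (B : ℝ) ^ 2 := by exact_mod_cast hk
  have h1 := (h c hc).ortho (hΞ c) (hψ.mul hF.cj) (by
    rw [hBc]
    have := mul_lt_mul_of_pos_right hk' hL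
    linarith)
  have h2 : ∀ x, ψ x * (2 * ((starRingEnd ℂ) (FS d c x) * d c x).re) =
      2 * Complex.reCLM ((ψ x : ℂ) * (starRingEnd ℂ) (FS d c x) * d c x) := by
    intro x
    rw [Complex.reCLM_apply, mul_assoc (ψ x : ℂ), Complex.re_ofReal_mul]
    ring
  simp only [h2]
  rw [integral_const_mul, ContinuousLinearMap.integral_comp_comm]
  · rw [h1]
    simp
  · exact cint ((hψ.mul hF.cj).cont.mul ((h c hc).d_BL (hΞ c)).cont)

theorem claimA {p : ℕ} (hD : (4 * p + 5) * D < B ^ 2) {c : ℕ} (hc : 1 ≤ c) {ψ : (Fin 3 → ℝ) → ℝ}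
    (hψ0 : ∀ x, 0 ≤ ψ x)
    (hψ : BL (2 * D * (B : ℝ) ^ (2 * (c - 1))) (fun x => (ψ x : ℂ))) :
    ∫ x in cube, ψ x * Ph d c x ^ p ≤ ∫ x in cube, ψ x * Ph d (c + 1) x ^ p := by
  rcases p with _ | s
  · simp
  have hP := Ph_BL hB hΞ h c
  have hc1 := Ph_cont hB hΞ h c
  have hc2 := Ph_cont hB hΞ h (c + 1)
  have hcψ := real_cont_of_BL hψ
  have hlin : ∫ x in cube, (ψ x * Ph d c x ^ s) * (2 * ((starRingEnd ℂ) (FS d c x) * d c x).re) = 0 := by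
    apply lin_zero hB hΞ h hc (k := 4 * s + 2)
    · push_cast at hD ⊢
      refine lt_of_le_of_lt (Nat.mul_le_mul_right _ ?_) hD
      omega
    · have h2 := hψ.mul (hP.pw s)
      have h3 : (fun x => ((ψ x * Ph d c x ^ s : ℝ) : ℂ)) = fun x => (ψ x : ℂ) * (Ph d c x : ℂ) ^ s := by
        funext x
        push_cast
        rfl
      rw [h3]
      apply h2.mono
      apply le_of_eq
      push_cast
      ring
  have hcl : Continuous fun x => (ψ x * Ph d c x ^ s) * (2 * ((starRingEnd ℂ) (FS d c x) * d c x).re) := by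
    have e1 := (FS_BL hB hΞ h c).cj.cont
    have e2 := ((h c hc).d_BL (hΞ c)).cont
    have e3 := Complex.continuous_re.comp (e1.mul e2)
    exact (hcψ.mul (hc1.pow s)).mul (continuous_const.mul e3)
  have i1 : IntegrableOn (fun x => ψ x * Ph d c x ^ (s + 1)) cube := cint (hcψ.mul (hc1.pow _))
  have i2 : IntegrableOn (fun x => ((s : ℝ) + 1) * ((ψ x * Ph d c x ^ s) *
    (2 * ((starRingEnd ℂ) (FS d c x) * d c x).re))) cube := (cint hcl).const_mul _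
  have h4 : ∫ x in cube, ψ x * Ph d c x ^ (s + 1) =
      ∫ x in cube, (ψ x * Ph d c x ^ (s + 1) +
        (s + 1) * ((ψ x * Ph d c x ^ s) * (2 * ((starRingEnd ℂ) (FS d c x) * d c x).re))) := by
    rw [integral_add i1 i2, integral_const_mul, hlin]
    simp
  rw [h4]
  apply integral_mono
  · exact (cint (hcψ.mul (hc1.pow _))).add ((cint hcl).const_mul _)
  · exact cint (hcψ.mul (hc2.pow _))
  · intro x
    dsimp only
    have h5 := elemA s (Ph d c x) (Ph d (c + 1) x) (by linarith [Ph_pos d c x]) (by linarith [Ph_pos d (c + 1) x])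
    have h6 := Ph_succ d hc x
    have h7 : 0 ≤ ((s : ℝ) + 1) * Ph d c x ^ s * ‖d c x‖ ^ 2 := by
      have := Ph_pos d c x
      positivity
    have h8 : Ph d c x ^ (s + 1) + (s + 1) * Ph d c x ^ s * (2 * ((starRingEnd ℂ) (FS d c x) * d c x).re)
        ≤ Ph d (c + 1) x ^ (s + 1) := by
      have h9 : Ph d (c + 1) x - Ph d c x = 2 * ((starRingEnd ℂ) (FS d c x) * d c x).re + ‖d c x‖ ^ 2 := by
        rw [h6]; ring
      rw [h9] at h5
      linarith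
    have h10 := mul_le_mul_of_nonneg_left h8 (hψ0 x)
    linarith

theorem claimA_iter {p : ℕ} (hD : (4 * p + 5) * D < B ^ 2) {m : ℕ} (hm : 1 ≤ m) {n : ℕ} (hn : m ≤ n) :
    ∫ x in cube, g m x ^ 2 * Ph d m x ^ p ≤ ∫ x in cube, g m x ^ 2 * Ph d n x ^ p := by
  induction n, hn using Nat.le_induction with
  | base => exact le_rfl
  | succ n hn ih =>
    refine ih.trans ?_
    apply claimA hB hΞ h hD (hm.trans hn) (fun x => sq_nonneg _)
    have h1 := (h m hm).g_BL.pw 2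
    have h2 : (fun x => ((g m x ^ 2 : ℝ) : ℂ)) = fun x => (g m x : ℂ) ^ 2 := by
      funext x; push_cast; rfl
    rw [h2]
    apply h1.mono
    have hB1 : (1 : ℝ) ≤ B := by
      have : 1 ≤ B := by omega
      exact_mod_cast this
    have e1 : (B : ℝ) ^ (2 * (m - 1)) ≤ (B : ℝ) ^ (2 * (n - 1)) := pow_le_pow_right₀ hB1 (by omega)
    have hD' : (0 : ℝ) ≤ D := Nat.cast_nonneg D
    push_cast
    nlinarith [mul_le_mul_of_nonneg_left e1 hD']

theorem claimB {p : ℕ} {K : ℝ}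
    (hK : ∀ t τ h : ℝ, 0 ≤ t → 0 ≤ h → τ ^ 2 ≤ t * h → 0 ≤ t + τ →
    τ ≤ 2 * t → (t + τ) ^ (p + 1) ≤ t ^ (p + 1) + (p + 1) * t ^ p * τ + K * t ^ p * h)
    {c : ℕ} (hc : 1 ≤ c) (x : Fin 3 → ℝ) :
    Ph d (c + 1) x ^ (p + 1) ≤ Ph d c x ^ (p + 1) +
      (p + 1) * (Ph d c x ^ p * (2 * ((starRingEnd ℂ) (FS d c x) * d c x).re)) +
      ((p + 1) + 5 * K) * (g c x ^ 2 * Ph d c x ^ p) := by
  have hA := h c hc
  have hg0 := hA.g_nonneg x
  have hg1 := hA.g_le x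
  have hd := hA.d_le x
  have hd0 := norm_nonneg (d c x)
  have hF0 := norm_nonneg (FS d c x)
  have hre : |((starRingEnd ℂ) (FS d c x) * d c x).re| ≤ ‖FS d c x‖ * ‖d c x‖ := by
    refine (Complex.abs_re_le_norm _).trans ?_
    rw [norm_mul, RCLike.norm_conj]
  rw [Ph_succ d hc x]
  obtain ⟨T, hT⟩ : ∃ T, T = ((starRingEnd ℂ) (FS d c x) * d c x).re := ⟨_, rfl⟩
  rw [← hT] at hre ⊢
  have hPp := Ph_pos d c x
  have hPdef : Ph d c x = 1 + ‖FS d c x‖ ^ 2 := rfl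
  obtain ⟨F, hF⟩ : ∃ F, F = ‖FS d c x‖ := ⟨_, rfl⟩
  obtain ⟨e, he⟩ : ∃ e, e = ‖d c x‖ := ⟨_, rfl⟩
  obtain ⟨G, hG⟩ : ∃ G, G = g c x := ⟨_, rfl⟩
  have hsucc := Ph_pos d (c + 1) x
  rw [Ph_succ d hc x, ← hT] at hsucc
  rw [← hF, ← he] at hre
  rw [← hF] at hPdef hF0
  rw [← he] at hd hd0 hsucc ⊢
  rw [← hG] at hg0 hg1 hd ⊢
  obtain ⟨t, ht⟩ : ∃ t, t = Ph d c x := ⟨_, rfl⟩
  rw [← ht] at hPp hPdef hsucc ⊢
  have habs : |2 * T + e ^ 2| ≤ G * (2 * F + 1) := by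
    have a1 := abs_le.mp hre
    rw [abs_le]
    constructor
    · nlinarith [mul_le_mul_of_nonneg_left hd hF0, sq_nonneg e]
    · have a2 : e ^ 2 ≤ G * 1 := by nlinarith
      nlinarith [mul_le_mul_of_nonneg_left hd hF0]
  have h1 : (2 * T + e ^ 2) ^ 2 ≤ t * (5 * G ^ 2) := by
    rw [← sq_abs]
    have a1 := abs_nonneg (2 * T + e ^ 2)
    calc |2 * T + e ^ 2| ^ 2 ≤ (G * (2 * F + 1)) ^ 2 := pow_le_pow_left₀ a1 habs 2
      _ = G ^ 2 * (2 * F + 1) ^ 2 := by ring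
      _ ≤ G ^ 2 * (5 * (1 + F ^ 2)) := by
          apply mul_le_mul_of_nonneg_left _ (sq_nonneg G)
          nlinarith [sq_nonneg (F - 2)]
      _ = t * (5 * G ^ 2) := by rw [hPdef]; ring
  have h2 : 2 * T + e ^ 2 ≤ 2 * t := by
    have a1 := (abs_le.mp habs).2
    have a2 : G * (2 * F + 1) ≤ 1 * (2 * F + 1) := mul_le_mul_of_nonneg_right hg1 (by linarith)
    rw [hPdef]
    nlinarith [sq_nonneg (F - 1)]
  have h3 := hK t (2 * T + e ^ 2) (5 * G ^ 2) (by linarith) (by positivity) h1 (by linarith) h2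
  have h4 : 0 ≤ t ^ p := by positivity
  have h5 : e ^ 2 ≤ G ^ 2 := pow_le_pow_left₀ hd0 hd 2
  have h6 : ((p : ℝ) + 1) * t ^ p * e ^ 2 ≤ (p + 1) * t ^ p * G ^ 2 :=
    mul_le_mul_of_nonneg_left h5 (by positivity)
  refine h3.trans ?_
  nlinarith [h6]

theorem claimB_int {p : ℕ} (hD : (4 * p + 5) * D < B ^ 2) {K : ℝ}
    (hK : ∀ t τ h : ℝ, 0 ≤ t → 0 ≤ h → τ ^ 2 ≤ t * h → 0 ≤ t + τ →
    τ ≤ 2 * t → (t + τ) ^ (p + 1) ≤ t ^ (p + 1) + (p + 1) * t ^ p * τ + K * t ^ p * h)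
    {c : ℕ} (hc : 1 ≤ c) :
    ∫ x in cube, Ph d (c + 1) x ^ (p + 1) ≤ (∫ x in cube, Ph d c x ^ (p + 1)) +
      ((p + 1) + 5 * K) * ∫ x in cube, g c x ^ 2 * Ph d c x ^ p := by
  have hP := Ph_BL hB hΞ h c
  have hc1 := Ph_cont hB hΞ h c
  have hc2 := Ph_cont hB hΞ h (c + 1)
  have hcg := g_cont hB hΞ h hc
  have hlin : ∫ x in cube, (Ph d c x ^ p) * (2 * ((starRingEnd ℂ) (FS d c x) * d c x).re) = 0 := by
    apply lin_zero hB hΞ h hc (k := 4 * p)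
    · refine lt_of_le_of_lt (Nat.mul_le_mul_right _ ?_) hD
      omega
    · have h2 := hP.pw p
      have h3 : (fun x => ((Ph d c x ^ p : ℝ) : ℂ)) = fun x => (Ph d c x : ℂ) ^ p := by
        funext x
        push_cast
        rfl
      rw [h3]
      apply h2.mono
      apply le_of_eq
      push_cast
      ring
  have hcl : Continuous fun x => (Ph d c x ^ p) * (2 * ((starRingEnd ℂ) (FS d c x) * d c x).re) := by
    have e1 := (FS_BL hB hΞ h c).cj.cont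
    have e2 := ((h c hc).d_BL (hΞ c)).cont
    have e3 := Complex.continuous_re.comp (e1.mul e2)
    exact (hc1.pow p).mul (continuous_const.mul e3)
  have i1 : IntegrableOn (fun x => Ph d c x ^ (p + 1)) cube := cint (hc1.pow _)
  have i2 : IntegrableOn (fun x => ((p : ℝ) + 1) * (Ph d c x ^ p *
    (2 * ((starRingEnd ℂ) (FS d c x) * d c x).re))) cube := (cint hcl).const_mul ((p : ℝ) + 1)
  have i12 : IntegrableOn (fun x => Ph d c x ^ (p + 1) + ((p : ℝ) + 1) * (Ph d c x ^ p *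
    (2 * ((starRingEnd ℂ) (FS d c x) * d c x).re))) cube := by
      have := hc1.pow (p + 1)
      have := (cint (continuous_const.mul hcl : Continuous fun x => ((p : ℝ) + 1) * (Ph d c x ^ p *
        (2 * ((starRingEnd ℂ) (FS d c x) * d c x).re))))
      exact i1.add i2
  have i3 : IntegrableOn (fun x => g c x ^ 2 * Ph d c x ^ p) cube := cint ((hcg.pow 2).mul (hc1.pow _))
  have i4 : IntegrableOn (fun x => (((p : ℝ) + 1) + 5 * K) * (g c x ^ 2 * Ph d c x ^ p)) cube := i3.const_mul _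
  have h1 : ∫ x in cube, Ph d (c + 1) x ^ (p + 1) ≤ ∫ x in cube, (Ph d c x ^ (p + 1) +
      (p + 1) * (Ph d c x ^ p * (2 * ((starRingEnd ℂ) (FS d c x) * d c x).re)) +
      ((p + 1) + 5 * K) * (g c x ^ 2 * Ph d c x ^ p)) := by
    apply integral_mono (cint (hc2.pow _)) (i12.add i4)
    intro x
    exact claimB hB hΞ h hK hc x
  refine h1.trans (le_of_eq ?_)
  rw [integral_add i12 i4, integral_add i1 i2, integral_const_mul, hlin,
    integral_const_mul]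
  simp

theorem total {p : ℕ} (hD : (4 * p + 5) * D < B ^ 2) {K : ℝ} (hK0 : 0 ≤ K)
    (hK : ∀ t τ h : ℝ, 0 ≤ t → 0 ≤ h → τ ^ 2 ≤ t * h → 0 ≤ t + τ →
    τ ≤ 2 * t → (t + τ) ^ (p + 1) ≤ t ^ (p + 1) + (p + 1) * t ^ p * τ + K * t ^ p * h)
    {n : ℕ} (hn : 1 ≤ n) :
    ∫ x in cube, Ph d n x ^ (p + 1) ≤ 1 +
      ((p + 1) + 5 * K) * ∑ c ∈ Ico 1 n, ∫ x in cube, g c x ^ 2 * Ph d c x ^ p := by
  induction n, hn using Nat.le_induction with
  | base =>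
    have h1 : ∀ x, Ph d 1 x = 1 := by
      intro x
      unfold Ph FS
      simp
    simp only [h1, one_pow]
    rw [setIntegral_const, Measure.real, cube_vol]
    simp
  | succ n hn ih =>
    rw [Finset.sum_Ico_succ_top hn, mul_add, ← add_assoc]
    refine (claimB_int hB hΞ h hD hK hn).trans ?_
    linarith

theorem total2 {p : ℕ} (hD : (4 * p + 5) * D < B ^ 2) {K : ℝ} (hK0 : 0 ≤ K)
    (hK : ∀ t τ h : ℝ, 0 ≤ t → 0 ≤ h → τ ^ 2 ≤ t * h → 0 ≤ t + τ →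
    τ ≤ 2 * t → (t + τ) ^ (p + 1) ≤ t ^ (p + 1) + (p + 1) * t ^ p * τ + K * t ^ p * h)
    {n : ℕ} (hn : 1 ≤ n) :
    ∫ x in cube, Ph d n x ^ (p + 1) ≤ 1 +
      ((p + 1) + 5 * K) * ∫ x in cube, (∑ c ∈ Ico 1 n, g c x ^ 2) * Ph d n x ^ p := by
  refine (total hB hΞ h hD hK0 hK hn).trans ?_
  have h1 : ∑ c ∈ Ico 1 n, ∫ x in cube, g c x ^ 2 * Ph d c x ^ p ≤
      ∫ x in cube, (∑ c ∈ Ico 1 n, g c x ^ 2) * Ph d n x ^ p := by
    simp only [Finset.sum_mul]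
    rw [integral_finsetSum]
    · apply Finset.sum_le_sum
      intro c hc
      rw [Finset.mem_Ico] at hc
      exact claimA_iter hB hΞ h hD hc.1 hc.2.le
    · intro c hc
      rw [Finset.mem_Ico] at hc
      exact cint (((g_cont hB hΞ h hc.1).pow 2).mul ((Ph_cont hB hΞ h n).pow _))
  have h2 : (0 : ℝ) ≤ (p + 1) + 5 * K := by positivity
  have := mul_le_mul_of_nonneg_left h1 h2
  linarith

end

theorem young (p : ℕ) {C P Q : ℝ} (hC : 0 < C) (hP : 0 ≤ P) (hQ : 0 ≤ Q) :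
    C * (Q * P ^ p) ≤ 1 / 2 * P ^ (p + 1) + C * ((2 * C) ^ p * Q ^ (p + 1)) := by
  rcases le_total (2 * C * Q) P with h1 | h1
  · have h2 : 0 ≤ C * ((2 * C) ^ p * Q ^ (p + 1)) := by positivity
    have h3 : C * Q ≤ P / 2 := by linarith
    have h4 : (C * Q) * P ^ p ≤ P / 2 * P ^ p := mul_le_mul_of_nonneg_right h3 (by positivity)
    calc C * (Q * P ^ p) = (C * Q) * P ^ p := by ring
      _ ≤ P / 2 * P ^ p := h4
      _ = 1 / 2 * P ^ (p + 1) := by ring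
      _ ≤ _ := by linarith
  · have h2 : P ^ p ≤ (2 * C * Q) ^ p := pow_le_pow_left₀ hP h1 p
    have h3 : 0 ≤ 1 / 2 * P ^ (p + 1) := by positivity
    calc C * (Q * P ^ p) ≤ C * (Q * (2 * C * Q) ^ p) := by gcongr
      _ = C * ((2 * C) ^ p * Q ^ (p + 1)) := by rw [mul_pow]; ring
      _ ≤ _ := by linarith

/-- a square function inequality for sums of increments with very lacunary frequencies -/
theorem bdg (q : ℕ) (hq : 1 ≤ q) : ∃ A : ℝ, 0 < A ∧ ∀ (D B : ℕ), 2 ≤ B → 8 * (q + 3) * (D + 1) < B ^ 2 →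
    ∀ (Ξ : ℕ → Fin 3 → ℤ), (∀ c, Ξ c 2 = (B : ℤ) ^ (2 * c)) →
    ∀ (d : ℕ → (Fin 3 → ℝ) → ℂ) (g : ℕ → (Fin 3 → ℝ) → ℝ), (∀ c, 1 ≤ c → Adm D B c (Ξ c) (d c) (g c)) → ∀ n : ℕ,
      ∫ x in cube, (1 + ‖∑ c ∈ Ico 1 n, d c x‖ ^ 2) ^ q ≤
        A * (1 + ∫ x in cube, (∑ c ∈ Ico 1 n, g c x ^ 2) ^ q) := by
  obtain ⟨p, rfl⟩ : ∃ p, q = p + 1 := ⟨q - 1, by omega⟩
  obtain ⟨K, hK0, hK⟩ := elemB p
  obtain ⟨C, hC⟩ : ∃ C : ℝ, C = (p + 1) + 5 * K := ⟨_, rfl⟩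
  have hC0 : 0 < C := by rw [hC]; positivity
  refine ⟨2 + 2 * (C * (2 * C) ^ p), by positivity, ?_⟩
  intro D B hB hDB Ξ hΞ d g h n
  have hD : (4 * p + 5) * D < B ^ 2 := by
    refine lt_of_le_of_lt ?_ hDB
    nlinarith [Nat.zero_le p, Nat.zero_le D, Nat.zero_le (p * D)]
  have hQ0 : ∀ n x, 0 ≤ ∑ c ∈ Ico 1 n, g c x ^ 2 := fun n x => Finset.sum_nonneg fun _ _ => sq_nonneg _
  have hmain : ∀ n, 1 ≤ n → ∫ x in cube, Ph d n x ^ (p + 1) ≤ (2 + 2 * (C * (2 * C) ^ p)) *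
      (1 + ∫ x in cube, (∑ c ∈ Ico 1 n, g c x ^ 2) ^ (p + 1)) := by
    intro n hn
    have h1 := total2 hB hΞ h hD hK0 hK hn
    rw [← hC] at h1
    have hcP := Ph_cont hB hΞ h n
    have hcQ : Continuous fun x => ∑ c ∈ Ico 1 n, g c x ^ 2 := by
      apply continuous_finsetSum
      intro c hc
      rw [Finset.mem_Ico] at hc
      exact (g_cont hB hΞ h hc.1).pow 2
    have i1 : IntegrableOn (fun x => Ph d n x ^ (p + 1)) cube := cint (hcP.pow _)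
    have i2 : IntegrableOn (fun x => (∑ c ∈ Ico 1 n, g c x ^ 2) ^ (p + 1)) cube := cint (hcQ.pow _)
    have i3 : IntegrableOn (fun x => (∑ c ∈ Ico 1 n, g c x ^ 2) * Ph d n x ^ p) cube :=
      cint (hcQ.mul (hcP.pow _))
    have h2 : C * ∫ x in cube, (∑ c ∈ Ico 1 n, g c x ^ 2) * Ph d n x ^ p ≤
        1 / 2 * (∫ x in cube, Ph d n x ^ (p + 1)) +
        C * ((2 * C) ^ p * ∫ x in cube, (∑ c ∈ Ico 1 n, g c x ^ 2) ^ (p + 1)) := by
      rw [← integral_const_mul, ← integral_const_mul, ← integral_const_mul, ← integral_const_mul,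
        ← integral_add (i1.const_mul _) ((i2.const_mul _).const_mul _)]
      apply integral_mono (i3.const_mul _) ((i1.const_mul _).add ((i2.const_mul _).const_mul _))
      intro x
      exact young p hC0 (by linarith [Ph_pos d n x]) (hQ0 n x)
    have h3 : 0 ≤ ∫ x in cube, (∑ c ∈ Ico 1 n, g c x ^ 2) ^ (p + 1) :=
      integral_nonneg fun x => pow_nonneg (hQ0 n x) _
    have h4 : 0 ≤ C * (2 * C) ^ p := by positivity
    nlinarith
  rcases Nat.eq_zero_or_pos n with hn | hn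
  · have h1 := hmain 1 le_rfl
    have e1 : Ico 1 n = Ico 1 1 := by rw [hn]; rfl
    rw [e1]
    exact h1
  · exact hmain n hn

end Pool.Agent.Helper682.HU
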