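import Mathlib
import Pool.Agent.Helper682.HU.H3

set_option autoImplicit false

namespace Pool.Agent.Helper682.HU
open MeasureTheory Finset

noncomputable def WL (P : ℝ → ℝ) (B : ℕ) (L : List ℝ) (S : List Bool) (x : Fin 3 → ℝ) : ℝ :=
  (L.map (fun s => GR P B (fun _ => s) S x)).prod

noncomputable def wL (P : ℝ → ℝ) (s0 : ℝ) (L : List ℝ) (d : Bool) (t : ℝ) : ℝ :=
  PP P d (t + sh d s0) * (L.map (fun s => PP P d (t + sh d s))).prod

theorem WL_eq (P : ℝ → ℝ) (B : ℕ) (s0 : ℝ) (L : List ℝ) (S : List Bool) (x : Fin 3 → ℝ) :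
    GR P B (fun _ => s0) S x * WL P B L S x = Wf B (fun _ d t => wL P s0 L d t) S x := by
  induction S with
  | nil => simp [GR, WL, Wf]
  | cons d S ih =>
    have h1 : WL P B L (d :: S) x = WL P B L S x *
        (L.map (fun s => PP P d (dr (Xi B S) x + sh d s))).prod := by
      unfold WL
      rw [← List.prod_map_mul]
      rfl
    have h2 : GR P B (fun _ => s0) (d :: S) x =
        GR P B (fun _ => s0) S x * PP P d (dr (Xi B S) x + sh d s0) := rfl
    have h3 : Wf B (fun _ d t => wL P s0 L d t) (d :: S) x =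
        Wf B (fun _ d t => wL P s0 L d t) S x * wL P s0 L d (dr (Xi B S) x) := rfl
    rw [h1, h2, h3, ← ih]
    unfold wL
    ring

section
variable {N : ℕ} {P : ℝ → ℝ} {c : ℤ → ℂ} (hP : Sel N P c)
include hP

theorem wL_TP (s0 : ℝ) (L : List ℝ) (d : Bool) :
    TP ((L.length + 1) * N) (fun t => (wL P s0 L d t : ℂ)) := by
  induction L with
  | nil =>
    have h := (PP_TP hP d).shift (sh d s0)
    have e : (fun t => (wL P s0 [] d t : ℂ)) = fun t => ((PP P d (t + sh d s0) : ℝ) : ℂ) := by
      funext t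
      simp [wL]
    rw [e]
    simpa using h
  | cons s L ih =>
    have h := ih.mul ((PP_TP hP d).shift (sh d s))
    have e : (fun t => (wL P s0 (s :: L) d t : ℂ)) =
        fun t => (wL P s0 L d t : ℂ) * ((PP P d (t + sh d s) : ℝ) : ℂ) := by
      funext t
      simp only [wL, List.map_cons, List.prod_cons]
      push_cast
      ring
    rw [e]
    have e2 : ((s :: L).length + 1) * N = (L.length + 1) * N + N := by
      rw [List.length_cons]; ring
    rw [e2]
    exact h

theorem wL_cont (s0 : ℝ) (L : List ℝ) (d : Bool) : Continuous (wL P s0 L d) := by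
  have h := (wL_TP hP s0 L d).cont
  have : wL P s0 L d = fun t => (((wL P s0 L d t : ℝ) : ℂ)).re := by funext t; simp
  rw [this]
  exact Complex.continuous_re.comp h

omit hP in
theorem prod01 (L : List ℝ) (f : ℝ → ℝ) (h0 : ∀ s, 0 ≤ f s) (h1 : ∀ s, f s ≤ 1) :
    0 ≤ (L.map f).prod ∧ (L.map f).prod ≤ 1 ∧ ∀ s ∈ L, (L.map f).prod ≤ f s := by
  induction L with
  | nil => simp
  | cons a L ih =>
    obtain ⟨h2, h3, h4⟩ := ih
    simp only [List.map_cons, List.prod_cons]
    refine ⟨mul_nonneg (h0 a) h2, mul_le_one₀ (h1 a) h2 h3, ?_⟩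
    intro s hs
    rcases List.mem_cons.1 hs with rfl | hs
    · exact mul_le_of_le_one_right (h0 _) h3
    · exact (mul_le_of_le_one_left h2 (h1 a)).trans (h4 s hs)

theorem wL_nonneg (s0 : ℝ) (L : List ℝ) (d : Bool) (t : ℝ) : 0 ≤ wL P s0 L d t :=
  mul_nonneg (PP_nonneg hP _ _)
    (prod01 L (fun s => PP P d (t + sh d s)) (fun _ => PP_nonneg hP _ _) (fun _ => PP_le hP _ _)).1

theorem wL_le (s0 : ℝ) (L : List ℝ) (d : Bool) (t : ℝ) {s : ℝ} (hs : s ∈ L) :
    wL P s0 L d t ≤ PP P d (t + sh d s0) * PP P d (t + sh d s) :=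
  mul_le_mul_of_nonneg_left
    ((prod01 L (fun s => PP P d (t + sh d s)) (fun _ => PP_nonneg hP _ _)
      (fun _ => PP_le hP _ _)).2.2 s hs) (PP_nonneg hP _ _)

theorem AL_le (s0 : ℝ) (L : List ℝ) {s : ℝ} (hs : s ∈ L) :
    (∫ t in (0:ℝ)..1, wL P s0 L false t) + ∫ t in (0:ℝ)..1, wL P s0 L true t ≤ aa P (s - s0) := by
  have hc := P_cont hP
  unfold aa
  apply add_le_add
  · apply intervalIntegral.integral_mono_on zero_le_one
      ((wL_cont hP s0 L false).intervalIntegrable _ _)
      (by apply Continuous.intervalIntegrable; fun_prop)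
    intro t _
    have := wL_le hP s0 L false t hs
    simpa [PP, sh] using this
  · have h1 : ∫ t in (0:ℝ)..1, wL P s0 L true t ≤ ∫ t in (0:ℝ)..1, P (t + s0) * P (t + s) := by
      apply intervalIntegral.integral_mono_on zero_le_one
        ((wL_cont hP s0 L true).intervalIntegrable _ _)
        (by apply Continuous.intervalIntegrable; fun_prop)
      intro t _
      have := wL_le hP s0 L true t hs
      simpa [PP, sh] using this
    refine h1.trans (le_of_eq ?_)
    have h2 : ∫ t in (0:ℝ)..1, P (t + s0) * P (t + s) =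
        ∫ t in (0:ℝ)..1, (fun u => P u * P (u + (s - s0))) (t + s0) := by
      congr 1; funext t
      show P (t + s0) * P (t + s) = P (t + s0) * P (t + s0 + (s - s0))
      congr 2; ring
    have h2' := intervalIntegral.integral_comp_add_right (a := (0:ℝ)) (b := 1)
      (fun u => P u * P (u + (s - s0))) s0
    rw [h2]
    refine h2'.trans ?_
    have hper : Function.Periodic (fun u => P u * P (u + (s - s0))) 1 := by
      intro u
      show P (u + 1) * P (u + 1 + (s - s0)) = P u * P (u + (s - s0))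
      have e : u + 1 + (s - s0) = (u + (s - s0)) + 1 := by ring
      rw [e, P_per hP, P_per hP]
    have h3 := hper.intervalIntegral_add_eq s0 0
    rw [zero_add (1:ℝ)] at h3
    rw [zero_add, add_comm 1 s0]
    exact h3

theorem AL_nonneg (s0 : ℝ) (L : List ℝ) :
    0 ≤ (∫ t in (0:ℝ)..1, wL P s0 L false t) + ∫ t in (0:ℝ)..1, wL P s0 L true t :=
  add_nonneg (intervalIntegral.integral_nonneg zero_le_one fun _ _ => wL_nonneg hP _ _ _ _)
    (intervalIntegral.integral_nonneg zero_le_one fun _ _ => wL_nonneg hP _ _ _ _)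

theorem aa_shift (s0 : ℝ) (m : ℕ) : ∫ s in (0:ℝ)..1, aa P (s - s0) ^ m = bb P m := by
  unfold bb
  have h1 : ∫ s in (0:ℝ)..1, aa P (s - s0) ^ m = ∫ s in (0:ℝ)..1, (fun u => aa P u ^ m) (s - s0) := rfl
  have h1' := intervalIntegral.integral_comp_sub_right (a := (0:ℝ)) (b := 1)
    (fun u => aa P u ^ m) s0
  rw [h1]
  refine h1'.trans ?_
  have hper : Function.Periodic (fun u => aa P u ^ m) 1 := by
    intro u
    show aa P (u + 1) ^ m = aa P u ^ m
    rw [aa_per hP]
  have h3 := hper.intervalIntegral_add_eq (0 - s0) 0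
  rw [zero_add] at h3
  have e : (0 - s0 + 1 : ℝ) = 1 - s0 := by ring
  rw [e] at h3
  exact h3

theorem WL_cont (B : ℕ) (L : List ℝ) (S : List Bool) : Continuous (WL P B L S) := by
  unfold WL
  induction L with
  | nil => simp only [List.map_nil, List.prod_nil]; exact continuous_const
  | cons s L ih =>
    simp only [List.map_cons, List.prod_cons]
    refine Continuous.mul ?_ ih
    exact (GR_cont' hP B S).comp (continuous_id.prodMk continuous_const)

theorem WL_nonneg (B : ℕ) (L : List ℝ) (S : List Bool) (x : Fin 3 → ℝ) : 0 ≤ WL P B L S x :=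
  (prod01 L (fun s => GR P B (fun _ => s) S x) (fun _ => GR_nonneg hP _ _ _ _)
    (fun _ => GR_le hP _ _ _ _)).1

theorem Y_base {B : ℕ} (hB2 : 2 ≤ B) {r : ℕ} (hB : 2 * ((r + 1) * N) < B ^ 2)
    (k : ℕ) (s0 : ℝ) (L : List ℝ) (hL : L.length = r) (hr : 1 ≤ r) :
    ∑ S ∈ Bk k, ∫ x in cube, GR P B (fun _ => s0) S x * WL P B L S x ≤
      (L.map (fun s => aa P (s - s0) ^ (k / r))).prod := by
  simp only [WL_eq]
  have hTP : ∀ (j : ℕ) (d : Bool), TP ((r + 1) * N)
      (fun t => (((fun (_ : ℕ) (d : Bool) (t : ℝ) => wL P s0 L d t) j d t : ℝ) : ℂ)) := by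
    intro j d
    have := wL_TP hP s0 L d
    rw [hL] at this
    exact this
  rw [prod_formula_real hB2 hB hTP k, Finset.prod_const, Finset.card_range]
  set A : ℝ := (∫ t in (0:ℝ)..1, wL P s0 L false t) + ∫ t in (0:ℝ)..1, wL P s0 L true t with hA
  have hA0 : 0 ≤ A := AL_nonneg hP s0 L
  have hAs : ∀ s ∈ L, A ≤ aa P (s - s0) := fun s hs => AL_le hP s0 L hs
  have hA1 : A ≤ 1 := by
    have hne : L ≠ [] := by
      rintro rfl
      rw [List.length_nil] at hL
      omega
    obtain ⟨s, hs⟩ := List.exists_mem_of_ne_nil L hne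
    exact (hAs s hs).trans (aa_le hP _)
  have h1 : A ^ k ≤ A ^ (k / r * L.length) := by
    apply pow_le_pow_of_le_one hA0 hA1
    rw [hL]
    exact Nat.div_mul_le_self k r
  have h2 : ∀ L' : List ℝ, (∀ s ∈ L', A ≤ aa P (s - s0)) →
      A ^ (k / r * L'.length) ≤ (L'.map (fun s => aa P (s - s0) ^ (k / r))).prod := by
    intro L'
    induction L' with
    | nil => simp
    | cons s L' ih =>
      intro h
      rw [List.length_cons, mul_add, mul_one, pow_add, List.map_cons, List.prod_cons, mul_comm]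
      apply mul_le_mul (pow_le_pow_left₀ hA0 (h s List.mem_cons_self) _)
        (ih fun s' hs' => h s' (List.mem_cons_of_mem _ hs')) (pow_nonneg hA0 _)
        (pow_nonneg (aa_nonneg hP _) _)
  exact h1.trans (h2 L hAs)

theorem Y_step {B : ℕ} {k : ℕ} (f : List Bool → (Fin 3 → ℝ) → ℝ) (hf : ∀ S, Continuous (f S))
    (hf0 : ∀ S x, 0 ≤ f S x) (g : ℝ → ℝ) (hg : Continuous g)
    (h : ∀ s, ∑ S ∈ Bk k, ∫ x in cube, f S x * GR P B (fun _ => s) S x ≤ g s) :
    ∑ S ∈ Bk k, ∫ x in cube, f S x * gR P B S x ≤ ∫ s in (0:ℝ)..1, g s := by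
  have hGc : ∀ S, Continuous (Function.uncurry fun (x : Fin 3 → ℝ) (s : ℝ) =>
      f S x * GR P B (fun _ => s) S x) := by
    intro S
    exact ((hf S).comp continuous_fst).mul (GR_cont' hP B S)
  have h1 : ∑ S ∈ Bk k, ∫ x in cube, f S x * gR P B S x =
      ∫ s in (0:ℝ)..1, ∑ S ∈ Bk k, ∫ x in cube, f S x * GR P B (fun _ => s) S x := by
    have e1 : ∀ S, ∀ x, f S x * gR P B S x =
        ∫ s in (0:ℝ)..1, f S x * GR P B (fun _ => s) S x := by
      intro S x
      unfold gR
      rw [intervalIntegral.integral_const_mul]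
    have e2 : ∑ S ∈ Bk k, ∫ x in cube, f S x * gR P B S x =
        ∫ x in cube, ∫ s in (0:ℝ)..1, ∑ S ∈ Bk k, f S x * GR P B (fun _ => s) S x := by
      rw [← integral_finsetSum]
      · congr 1; funext x
        rw [intervalIntegral.integral_finsetSum]
        · exact Finset.sum_congr rfl fun S _ => e1 S x
        · intro S _
          apply Continuous.intervalIntegrable
          exact (hGc S).comp (Continuous.prodMk_right x)
      · intro S _
        exact cint ((hf S).mul (gR_cont hP B S))
    rw [e2, swap (fun x s => ∑ S ∈ Bk k, f S x * GR P B (fun _ => s) S x)]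
    · congr 1; funext s
      rw [integral_finsetSum]
      intro S _
      exact cint ((hGc S).comp (continuous_id.prodMk continuous_const))
    · have : (Function.uncurry fun (x : Fin 3 → ℝ) (s : ℝ) =>
          ∑ S ∈ Bk k, f S x * GR P B (fun _ => s) S x) =
          fun p => ∑ S ∈ Bk k, (Function.uncurry fun (x : Fin 3 → ℝ) (s : ℝ) =>
            f S x * GR P B (fun _ => s) S x) p := by
        funext p; rfl
      rw [this]
      exact continuous_finsetSum _ fun S _ => hGc S
  rw [h1, intervalIntegral.integral_of_le zero_le_one, intervalIntegral.integral_of_le zero_le_one]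
  apply integral_mono_of_nonneg
  · apply Filter.Eventually.of_forall
    intro s
    exact Finset.sum_nonneg fun S _ => integral_nonneg fun x =>
      mul_nonneg (hf0 S x) (GR_nonneg hP _ _ _ _)
  · exact (hg.integrableOn_Icc (a := 0) (b := 1)).mono_set Set.Ioc_subset_Icc_self
  · exact Filter.Eventually.of_forall h

theorem Y_ind {B : ℕ} (hB2 : 2 ≤ B) {r : ℕ} (hB : 2 * ((r + 1) * N) < B ^ 2)
    (k : ℕ) (hr : 1 ≤ r) (s0 : ℝ) (n : ℕ) : ∀ (L : List ℝ), L.length + n = r →
    ∑ S ∈ Bk k, ∫ x in cube, GR P B (fun _ => s0) S x * WL P B L S x * gR P B S x ^ n ≤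
      (L.map (fun s => aa P (s - s0) ^ (k / r))).prod * bb P (k / r) ^ n := by
  induction n with
  | zero =>
    intro L hL
    simp only [pow_zero, mul_one]
    exact Y_base hP hB2 hB k s0 L hL hr
  | succ n ih =>
    intro L hL
    have hGR0 : ∀ S, Continuous (GR P B (fun _ => s0) S) := fun S =>
      (GR_cont' hP B S).comp (continuous_id.prodMk continuous_const)
    have h1 := Y_step (B := B) hP (k := k)
      (fun S x => GR P B (fun _ => s0) S x * WL P B L S x * gR P B S x ^ n)
      (fun S => ((hGR0 S).mul (WL_cont hP B L S)).mul ((gR_cont hP B S).pow n))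
      (fun S x => mul_nonneg (mul_nonneg (GR_nonneg hP _ _ _ _) (WL_nonneg hP _ _ _ _))
        (pow_nonneg (gR_nonneg hP _ _ _) _))
      (fun s => (L.map (fun s => aa P (s - s0) ^ (k / r))).prod * bb P (k / r) ^ n *
        aa P (s - s0) ^ (k / r))
      (continuous_const.mul (((aa_cont hP).comp (continuous_id.sub continuous_const)).pow _))
      (fun s => by
        have h2 := ih (s :: L) (by rw [List.length_cons]; omega)
        rw [List.map_cons, List.prod_cons] at h2
        refine (le_of_eq ?_).trans (h2.trans (le_of_eq (by ring)))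
        apply Finset.sum_congr rfl
        intro S _
        congr 1; funext x
        have h3 : WL P B (s :: L) S x = GR P B (fun _ => s) S x * WL P B L S x := by
          simp [WL]
        rw [h3]; ring)
    rw [intervalIntegral.integral_const_mul, aa_shift hP] at h1
    refine (le_of_eq ?_).trans (h1.trans (le_of_eq (by ring)))
    apply Finset.sum_congr rfl
    intro S _
    congr 1; funext x
    ring

end

/-- high moments of the packets -/
theorem Y_bound {N B : ℕ} {P : ℝ → ℝ} {c : ℤ → ℂ} (hP : Sel N P c) (hB2 : 2 ≤ B) (r : ℕ) (hr : 1 ≤ r)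
    (hB : 2 * ((r + 1) * N) < B ^ 2) (k : ℕ) :
    ∑ S ∈ Bk k, ∫ x in cube, gR P B S x ^ (r + 1) ≤ bb P (k / r) ^ r := by
  have h1 := Y_step (B := B) hP (k := k) (fun S x => gR P B S x ^ r)
    (fun S => (gR_cont hP B S).pow r) (fun S x => pow_nonneg (gR_nonneg hP _ _ _) _)
    (fun _ => bb P (k / r) ^ r) continuous_const
    (fun s => by
      have h2 := Y_ind hP hB2 hB k hr s r [] (by simp)
      simp only [List.map_nil, List.prod_nil, one_mul] at h2
      refine (le_of_eq ?_).trans h2
      apply Finset.sum_congr rfl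
      intro S _
      congr 1; funext x
      simp only [WL, List.map_nil, List.prod_nil, mul_one]
      ring)
  simpa [pow_succ] using h1

end Pool.Agent.Helper682.HU
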