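import Mathlib
import Pool.Agent.Helper682.HU.HB0
import Pool.Agent.Helper682.HU.YJ1
import Pool.Agent.Helper682.HU.YJ2

set_option autoImplicit false

namespace Pool.Agent.Helper682.HU

open MeasureTheory Finset

/-- frequencies along the codes -/
noncomputable def Xc (B : ℕ) (c : ℕ) : Fin 3 → ℤ := if c = 0 then ![0, 0, 1] else Xi B (node c)

theorem Xc_two (B c : ℕ) : Xc B c 2 = (B : ℤ) ^ (2 * c) := by
  unfold Xc
  split_ifs with h
  · subst h; simp
  · simp only [Xi]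
    have := code_node (Nat.one_le_iff_ne_zero.2 h)
    simp [this]

noncomputable def Qx (P : ℝ → ℝ) (B K : ℕ) (x : Fin 3 → ℝ) : ℝ := ∑ k ∈ range K, ∑ S ∈ Bk k, gR P B S x ^ 2

theorem Qx_eq (P : ℝ → ℝ) (B K : ℕ) (x : Fin 3 → ℝ) :
    Qx P B K x = ∑ c ∈ Ico 1 (2 ^ K), gR P B (node c) x ^ 2 := sum_levels (fun S => gR P B S x ^ 2) K

/-- the general application of the square function inequality -/
theorem bdg_nodes (q : ℕ) (hq : 1 ≤ q) : ∃ A : ℝ, 0 < A ∧ ∀ {N B : ℕ} {P : ℝ → ℝ} {c : ℤ → ℂ}, Sel N P c → 4 ≤ B →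
    8 * (q + 3) * (4 * N + 2) < B ^ 2 → ∀ K : ℕ,
    (∫ x in cube, (1 + ‖∑ k ∈ range K, ∑ S ∈ Bk k, ee (dr (Xi B S) x) * hR P B S x‖ ^ 2) ^ q ≤
        A * (1 + ∫ x in cube, Qx P B K x ^ q)) ∧
    (∫ x in cube, (1 + ‖((∑ k ∈ range K, ∑ S ∈ Bk k, dl P B S x : ℝ) : ℂ)‖ ^ 2) ^ q ≤
        A * (1 + ∫ x in cube, Qx P B K x ^ q)) := by
  obtain ⟨A, hA, h⟩ := bdg q hq
  refine ⟨A, hA, ?_⟩
  intro N B P c hP hB hB2 K
  have hX : ∀ n : ℕ, 1 ≤ n → Xc B n = Xi B (node n) := by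
    intro n hn
    unfold Xc
    rw [if_neg (by omega)]
  have h1 := h (4 * N + 1) B (by omega) (by omega) (Xc B) (Xc_two B)
  constructor
  · have h2 := h1 (fun n x => ee (dr (Xi B (node n)) x) * hR P B (node n) x) (fun n => gR P B (node n)) (by
      intro n hn
      rw [hX n hn]
      have := adm_F hP hB (node n)
      rwa [code_node hn] at this) (2 ^ K)
    simp only [Qx_eq]
    have h3 : ∀ x, ∑ k ∈ range K, ∑ S ∈ Bk k, ee (dr (Xi B S) x) * hR P B S x =
        ∑ c ∈ Ico 1 (2 ^ K), ee (dr (Xi B (node c)) x) * hR P B (node c) x := fun x =>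
      sum_levels (fun S => ee (dr (Xi B S) x) * hR P B S x) K
    simp only [h3]
    exact h2
  · have h2 := h1 (fun n x => (dl P B (node n) x : ℂ)) (fun n => gR P B (node n)) (by
      intro n hn
      rw [hX n hn]
      have := adm_M hP hB (node n)
      rwa [code_node hn] at this) (2 ^ K)
    simp only [Qx_eq]
    have h3 : ∀ x, ((∑ k ∈ range K, ∑ S ∈ Bk k, dl P B S x : ℝ) : ℂ) =
        ∑ c ∈ Ico 1 (2 ^ K), (dl P B (node c) x : ℂ) := by
      intro x
      rw [sum_levels (fun S => dl P B S x) K]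
      push_cast
      rfl
    simp only [h3]
    exact h2

/-- the mass -/
noncomputable def Mx (P : ℝ → ℝ) (B k : ℕ) (x : Fin 3 → ℝ) : ℝ := ∑ S ∈ Bk k, gR P B S x

section
variable {N : ℕ} {P : ℝ → ℝ} {c : ℤ → ℂ} (hP : Sel N P c)
include hP

theorem Mx_nonneg (B k : ℕ) (x : Fin 3 → ℝ) : 0 ≤ Mx P B k x := Finset.sum_nonneg fun _ _ => gR_nonneg hP _ _ _
theorem Mx_cont (B k : ℕ) : Continuous (Mx P B k) := by
  unfold Mx
  exact continuous_finset_sum _ fun S _ => gR_cont hP B S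
theorem Qx_nonneg (B K : ℕ) (x : Fin 3 → ℝ) : 0 ≤ Qx P B K x :=
  Finset.sum_nonneg fun _ _ => Finset.sum_nonneg fun _ _ => sq_nonneg _
theorem Qx_cont (B K : ℕ) : Continuous (Qx P B K) := by
  unfold Qx
  exact continuous_finset_sum _ fun k _ => continuous_finset_sum _ fun S _ => (gR_cont hP B S).pow 2
theorem Qx_mono (B : ℕ) {k K : ℕ} (hk : k ≤ K) (x : Fin 3 → ℝ) : Qx P B k x ≤ Qx P B K x := by
  unfold Qx
  apply Finset.sum_le_sum_of_subset_of_nonneg
  · intro i hi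
    rw [Finset.mem_range] at hi ⊢
    omega
  · intro _ _ _
    exact Finset.sum_nonneg fun _ _ => sq_nonneg _

/-- pointwise interpolation on one level -/
theorem level_holder (B k q : ℕ) (hq : 1 ≤ q) (x : Fin 3 → ℝ) :
    (∑ S ∈ Bk k, gR P B S x ^ 2) ^ (2 * q) ≤ (Mx P B k x) ^ (2 * q - 1) * ∑ S ∈ Bk k, gR P B S x ^ (2 * q + 1) := by
  have hg := fun S => gR_nonneg hP B S x
  rcases eq_or_lt_of_le (Mx_nonneg hP B k x) with h0 | h0
  · have h1 : ∀ S ∈ Bk k, gR P B S x = 0 := by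
      intro S hS
      have := (Finset.sum_eq_zero_iff_of_nonneg (fun S _ => hg S)).1 h0.symm S hS
      exact this
    have h2 : ∑ S ∈ Bk k, gR P B S x ^ 2 = 0 := Finset.sum_eq_zero fun S hS => by rw [h1 S hS]; norm_num
    rw [h2, zero_pow (by omega)]
    apply mul_nonneg
    · rw [← h0]; positivity
    · exact Finset.sum_nonneg fun S _ => pow_nonneg (hg S) _
  · set M := Mx P B k x with hM
    have h1 := Real.pow_arith_mean_le_arith_mean_pow (Bk k) (fun S => gR P B S x / M) (fun S => gR P B S x)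
      (fun S _ => div_nonneg (hg S) h0.le) (by rw [← Finset.sum_div]; exact div_self h0.ne') (fun S _ => hg S) (2 * q)
    have e1 : ∑ S ∈ Bk k, gR P B S x / M * gR P B S x = (∑ S ∈ Bk k, gR P B S x ^ 2) / M := by
      rw [Finset.sum_div]
      apply Finset.sum_congr rfl
      intro S _; ring
    have e2 : ∑ S ∈ Bk k, gR P B S x / M * gR P B S x ^ (2 * q) = (∑ S ∈ Bk k, gR P B S x ^ (2 * q + 1)) / M := by
      rw [Finset.sum_div]
      apply Finset.sum_congr rfl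
      intro S _; ring
    rw [e1, e2, div_pow, div_le_div_iff₀ (by positivity) h0] at h1
    have e3 : M ^ (2 * q) = M ^ (2 * q - 1) * M := by rw [← pow_succ]; congr 1; omega
    rw [e3] at h1
    have h2 : (∑ S ∈ Bk k, gR P B S x ^ 2) ^ (2 * q) * M ≤ (M ^ (2 * q - 1) * ∑ S ∈ Bk k, gR P B S x ^ (2 * q + 1)) * M := by
      calc _ ≤ (∑ S ∈ Bk k, gR P B S x ^ (2 * q + 1)) * (M ^ (2 * q - 1) * M) := h1
        _ = _ := by ring
    exact le_of_mul_le_mul_right h2 h0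

omit hP in
theorem amgm {x a b t : ℝ} (hx : 0 ≤ x) (ht : 0 < t) (hab : 0 ≤ t * a + b / t) (h : x ^ 2 ≤ a * b) : x ≤ (t * a + b / t) / 2 := by
  have h1 : x ^ 2 ≤ ((t * a + b / t) / 2) ^ 2 := by
    have h2 : ((t * a + b / t) / 2) ^ 2 - a * b = ((t * a - b / t) / 2) ^ 2 := by field_simp; ring
    nlinarith [sq_nonneg ((t * a - b / t) / 2)]
  exact le_of_sq_le_sq' h1 (by positivity)
where
  le_of_sq_le_sq' {x y : ℝ} (h : x ^ 2 ≤ y ^ 2) (hy : 0 ≤ y) : x ≤ y := by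
    by_contra hc
    push Not at hc
    nlinarith

theorem level_int (B k q : ℕ) (hq : 1 ≤ q) {D s : ℝ} (hD : 0 < D) (hs : 0 < s)
    (hY : ∑ S ∈ Bk k, ∫ x in cube, gR P B S x ^ (2 * q + 1) ≤ D ^ 2)
    (hM : ∫ x in cube, Mx P B k x ^ (2 * q - 1) ≤ s ^ 2) :
    ∫ x in cube, (∑ S ∈ Bk k, gR P B S x ^ 2) ^ q ≤ D * s := by
  have hMc := Mx_cont hP B k
  have hgc := fun S => gR_cont hP B S
  have ht : 0 < D / s := by positivity
  have hpt : ∀ x, (∑ S ∈ Bk k, gR P B S x ^ 2) ^ q ≤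
      ((D / s) * Mx P B k x ^ (2 * q - 1) + (∑ S ∈ Bk k, gR P B S x ^ (2 * q + 1)) / (D / s)) / 2 := by
    intro x
    have h1 := level_holder hP B k q hq x
    have hM0 := Mx_nonneg hP B k x
    have hY0 : 0 ≤ ∑ S ∈ Bk k, gR P B S x ^ (2 * q + 1) := Finset.sum_nonneg fun S _ => pow_nonneg (gR_nonneg hP B S x) _
    apply amgm
    · exact pow_nonneg (Finset.sum_nonneg fun _ _ => sq_nonneg _) _
    · exact ht
    · positivity
    · rw [← pow_mul, mul_comm q 2]
      exact h1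
  have hc1 : Continuous fun x => (∑ S ∈ Bk k, gR P B S x ^ 2) ^ q :=
    (continuous_finset_sum _ fun S _ => (hgc S).pow 2).pow q
  have hc2 : Continuous fun x => Mx P B k x ^ (2 * q - 1) := hMc.pow _
  have hc3 : Continuous fun x => ∑ S ∈ Bk k, gR P B S x ^ (2 * q + 1) := continuous_finset_sum _ fun S _ => (hgc S).pow _
  have h2 : ∫ x in cube, (∑ S ∈ Bk k, gR P B S x ^ 2) ^ q ≤
      ∫ x in cube, ((D / s) * Mx P B k x ^ (2 * q - 1) + (∑ S ∈ Bk k, gR P B S x ^ (2 * q + 1)) / (D / s)) / 2 := by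
    apply integral_mono (cint hc1) (cint (by fun_prop))
    exact hpt
  refine h2.trans ?_
  have e1 : ∫ x in cube, ((D / s) * Mx P B k x ^ (2 * q - 1) + (∑ S ∈ Bk k, gR P B S x ^ (2 * q + 1)) / (D / s)) / 2 =
      ((D / s) * (∫ x in cube, Mx P B k x ^ (2 * q - 1)) + (∑ S ∈ Bk k, ∫ x in cube, gR P B S x ^ (2 * q + 1)) / (D / s)) / 2 := by
    rw [integral_div, integral_add (cint (by fun_prop)) (cint (by fun_prop)), integral_const_mul, integral_div,
      integral_finsetSum]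
    intro S _
    exact cint ((hgc S).pow _)
  rw [e1]
  have h3 : (D / s) * (∫ x in cube, Mx P B k x ^ (2 * q - 1)) ≤ D * s := by
    calc _ ≤ (D / s) * s ^ 2 := mul_le_mul_of_nonneg_left hM ht.le
      _ = D * s := by field_simp
  have h4 : (∑ S ∈ Bk k, ∫ x in cube, gR P B S x ^ (2 * q + 1)) / (D / s) ≤ D * s := by
    rw [div_le_iff₀ ht]
    calc _ ≤ D ^ 2 := hY
      _ = D * s * (D / s) := by field_simp
  linarith

/-- weighted convexity over the levels -/
theorem levels_int (B K q : ℕ) (hq : 1 ≤ q) (hK : 1 ≤ K) {V : ℕ → ℝ}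
    (hV : ∀ k < K, ∫ x in cube, (∑ S ∈ Bk k, gR P B S x ^ 2) ^ q ≤ V k) :
    ∫ x in cube, Qx P B K x ^ q ≤ (∑ k ∈ range K, 1 / ((k : ℝ) + 1)) ^ (q - 1) *
      ∑ k ∈ range K, ((k : ℝ) + 1) ^ (q - 1) * V k := by
  set L := ∑ k ∈ range K, 1 / ((k : ℝ) + 1) with hL
  have hL0 : 0 < L := by
    rw [hL]
    apply Finset.sum_pos
    · intro k _; positivity
    · exact ⟨0, Finset.mem_range.2 (by omega)⟩
  have hgc := fun S => gR_cont hP B S
  have hpt : ∀ x, Qx P B K x ^ q ≤ L ^ (q - 1) * ∑ k ∈ range K, ((k : ℝ) + 1) ^ (q - 1) * (∑ S ∈ Bk k, gR P B S x ^ 2) ^ q := by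
    intro x
    have h1 := Real.pow_arith_mean_le_arith_mean_pow (range K) (fun k => (1 / ((k : ℝ) + 1)) / L)
      (fun k => L * ((k : ℝ) + 1) * ∑ S ∈ Bk k, gR P B S x ^ 2) (fun k _ => by positivity)
      (by rw [← Finset.sum_div]; exact div_self hL0.ne')
      (fun k _ => mul_nonneg (by positivity) (Finset.sum_nonneg fun _ _ => sq_nonneg _)) q
    have e1 : ∑ k ∈ range K, (1 / ((k : ℝ) + 1)) / L * (L * ((k : ℝ) + 1) * ∑ S ∈ Bk k, gR P B S x ^ 2) = Qx P B K x := by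
      unfold Qx
      apply Finset.sum_congr rfl
      intro k _
      field_simp
    have e2 : ∑ k ∈ range K, (1 / ((k : ℝ) + 1)) / L * (L * ((k : ℝ) + 1) * ∑ S ∈ Bk k, gR P B S x ^ 2) ^ q =
        L ^ (q - 1) * ∑ k ∈ range K, ((k : ℝ) + 1) ^ (q - 1) * (∑ S ∈ Bk k, gR P B S x ^ 2) ^ q := by
      rw [Finset.mul_sum]
      apply Finset.sum_congr rfl
      intro k _
      obtain ⟨r, rfl⟩ : ∃ r, q = r + 1 := ⟨q - 1, by omega⟩
      rw [mul_pow, mul_pow, Nat.add_sub_cancel, pow_succ L r, pow_succ ((k : ℝ) + 1) r]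
      field_simp
    rw [e1, e2] at h1
    exact h1
  have hQc := (Qx_cont hP B K).pow q
  have h2 : ∫ x in cube, Qx P B K x ^ q ≤
      ∫ x in cube, L ^ (q - 1) * ∑ k ∈ range K, ((k : ℝ) + 1) ^ (q - 1) * (∑ S ∈ Bk k, gR P B S x ^ 2) ^ q := by
    apply integral_mono (cint hQc) (cint ?_)
    · exact hpt
    · apply continuous_const.mul
      apply continuous_finset_sum
      intro k _
      exact continuous_const.mul ((continuous_finset_sum _ fun S _ => (hgc S).pow 2).pow q)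
  refine h2.trans ?_
  rw [integral_const_mul]
  apply mul_le_mul_of_nonneg_left _ (by positivity)
  rw [integral_finsetSum]
  · apply Finset.sum_le_sum
    intro k hk
    rw [integral_const_mul]
    exact mul_le_mul_of_nonneg_left (hV k (Finset.mem_range.1 hk)) (by positivity)
  · intro k _
    apply cint
    exact continuous_const.mul ((continuous_finset_sum _ fun S _ => (hgc S).pow 2).pow q)

end

end Pool.Agent.Helper682.HU
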