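import Mathlib
import Pool.Agent.Helper682.HU.HB1

set_option autoImplicit false

namespace Pool.Agent.Helper682.HU

open MeasureTheory Finset

theorem moment_bound (q : ℕ) (hq : 1 ≤ q) : ∃ A2 : ℝ, 0 < A2 ∧ ∀ {N B : ℕ} {P : ℝ → ℝ} {c : ℤ → ℂ}, Sel N P c → 4 ≤ B →
    8 * (q + 3) * (4 * N + 2) < B ^ 2 → 2 * ((2 * q + 1) * N) < B ^ 2 → ∀ K : ℕ, 1 ≤ K →
    (∀ k < K, bb P k ≤ 3 / ((k : ℝ) + 1)) →
    ∫ x in cube, (1 + ‖∑ k ∈ range K, ∑ S ∈ Bk k, ee (dr (Xi B S) x) * hR P B S x‖ ^ 2) ^ q ≤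
      A2 * (∑ k ∈ range K, 1 / ((k : ℝ) + 1)) ^ (2 * q) := by
  obtain ⟨A, hA, hbdg⟩ := bdg_nodes q hq
  set C1 : ℝ := 6 * q with hC1
  have hC10 : 0 < C1 := by
    have : (1:ℝ) ≤ q := by exact_mod_cast hq
    rw [hC1]; linarith
  set A' : ℝ := 1 + 2 ^ q * A + 2 ^ q * A * C1 ^ q with hA'
  have hA'0 : 0 < A' := by positivity
  refine ⟨A * (1 + 2 * A' * C1 ^ q), by positivity, ?_⟩
  intro N B P c hP hB hB2 hB3 K hK hbb
  set L := ∑ k ∈ range K, 1 / ((k : ℝ) + 1) with hL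
  have hL1 : 1 ≤ L := by
    have h1 : (1 : ℝ) / ((0 : ℕ) + 1) ≤ L := by
      rw [hL]
      exact Finset.single_le_sum (f := fun k : ℕ => (1 : ℝ) / ((k : ℝ) + 1)) (fun k _ => by positivity)
        (Finset.mem_range.2 (by omega : 0 < K))
    simpa using h1
  set I : ℝ := ∫ x in cube, Qx P B K x ^ q with hI
  have hI0 : 0 ≤ I := integral_nonneg fun x => pow_nonneg (Qx_nonneg hP B K x) q
  have hMc := Mx_cont hP B
  -- mass
  have hM : ∀ k ≤ K, ∫ x in cube, Mx P B k x ^ (2 * q) ≤ 2 ^ q * (A * (1 + I)) := by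
    intro k hk
    have h1 := (hbdg hP hB hB2 k).2
    have h2 : ∫ x in cube, Qx P B k x ^ q ≤ I := by
      apply integral_mono (cint ((Qx_cont hP B k).pow q)) (cint ((Qx_cont hP B K).pow q))
      intro x
      exact pow_le_pow_left₀ (Qx_nonneg hP B k x) (Qx_mono hP B hk x) q
    have hdl : ∀ x, (∑ j ∈ range k, ∑ S ∈ Bk j, dl P B S x) = Mx P B k x - 1 := by
      intro x
      have := mass_step hP (B := B) k x
      unfold Mx
      linarith
    have hpt : ∀ x, Mx P B k x ^ (2 * q) ≤ 2 ^ q * (1 + ‖((∑ j ∈ range k, ∑ S ∈ Bk j, dl P B S x : ℝ) : ℂ)‖ ^ 2) ^ q := by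
      intro x
      rw [hdl, Complex.norm_real, Real.norm_eq_abs, sq_abs, ← mul_pow, pow_mul]
      apply pow_le_pow_left₀ (sq_nonneg _)
      nlinarith [sq_nonneg (Mx P B k x - 2)]
    have hc : Continuous fun x => (1 + ‖((∑ j ∈ range k, ∑ S ∈ Bk j, dl P B S x : ℝ) : ℂ)‖ ^ 2) ^ q := by
      simp only [hdl]
      have := hMc k
      fun_prop
    calc ∫ x in cube, Mx P B k x ^ (2 * q) ≤ ∫ x in cube, 2 ^ q * (1 + ‖((∑ j ∈ range k, ∑ S ∈ Bk j, dl P B S x : ℝ) : ℂ)‖ ^ 2) ^ q :=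
          integral_mono (cint ((hMc k).pow _)) (cint (continuous_const.mul hc)) hpt
      _ = 2 ^ q * ∫ x in cube, (1 + ‖((∑ j ∈ range k, ∑ S ∈ Bk j, dl P B S x : ℝ) : ℂ)‖ ^ 2) ^ q := integral_const_mul _ _
      _ ≤ 2 ^ q * (A * (1 + I)) := by
          apply mul_le_mul_of_nonneg_left _ (by positivity)
          refine h1.trans ?_
          apply mul_le_mul_of_nonneg_left _ hA.le
          linarith
  set s : ℝ := Real.sqrt (1 + 2 ^ q * (A * (1 + I))) with hs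
  have hs2 : s ^ 2 = 1 + 2 ^ q * (A * (1 + I)) := Real.sq_sqrt (by positivity)
  have hs1 : 1 ≤ s := by
    rw [hs]
    apply Real.one_le_sqrt.2
    have : 0 ≤ 2 ^ q * (A * (1 + I)) := by positivity
    linarith
  have hM' : ∀ k ≤ K, ∫ x in cube, Mx P B k x ^ (2 * q - 1) ≤ s ^ 2 := by
    intro k hk
    have hpt : ∀ x, Mx P B k x ^ (2 * q - 1) ≤ 1 + Mx P B k x ^ (2 * q) := by
      intro x
      have h0 := Mx_nonneg hP B k x
      rcases le_total (Mx P B k x) 1 with h | h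
      · have h1 := pow_le_one₀ (n := 2 * q - 1) h0 h
        have h2 : 0 ≤ Mx P B k x ^ (2 * q) := by positivity
        linarith
      · have h1 := pow_le_pow_right₀ h (show 2 * q - 1 ≤ 2 * q by omega)
        linarith
    have h1 : ∫ x in cube, Mx P B k x ^ (2 * q - 1) ≤ ∫ x in cube, (1 + Mx P B k x ^ (2 * q)) :=
      integral_mono (cint ((hMc k).pow _)) (cint (continuous_const.add ((hMc k).pow _))) hpt
    have h2 : ∫ x in cube, (1 + Mx P B k x ^ (2 * q)) = 1 + ∫ x in cube, Mx P B k x ^ (2 * q) := by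
      have hc3 : Continuous fun x => Mx P B k x ^ (2 * q) := (hMc k).pow _
      rw [integral_add (cint continuous_const) (cint hc3), setIntegral_const, measureReal_def, cube_vol]
      simp
    rw [hs2]
    have h3 := hM k hk
    linarith
  -- levels
  have hlev : ∀ k < K, ∫ x in cube, (∑ S ∈ Bk k, gR P B S x ^ 2) ^ q ≤ (C1 / ((k : ℝ) + 1)) ^ q * s := by
    intro k hk
    apply level_int hP B k q hq (by positivity) (by linarith) _ (hM' k hk.le)
    have h1 := Y_bound hP (B := B) (by omega) (2 * q) (by omega) hB3 k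
    refine h1.trans ?_
    rw [← pow_mul, mul_comm q 2]
    apply pow_le_pow_left₀ (bb_nonneg hP _)
    have h2 := hbb (k / (2 * q)) (lt_of_le_of_lt (Nat.div_le_self _ _) hk)
    refine h2.trans ?_
    rw [div_le_div_iff₀ (by positivity) (by positivity), hC1]
    have h3 : k < 2 * q * (k / (2 * q) + 1) := Nat.lt_mul_div_succ k (by omega)
    have h4 : (k : ℝ) + 1 ≤ 2 * q * (((k / (2 * q) : ℕ) : ℝ) + 1) := by exact_mod_cast h3
    linarith
  have hI1 : I ≤ C1 ^ q * L ^ q * s := by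
    have h1 := levels_int hP B K q hq hK hlev
    refine h1.trans (le_of_eq ?_)
    have e1 : ∑ k ∈ range K, ((k : ℝ) + 1) ^ (q - 1) * ((C1 / ((k : ℝ) + 1)) ^ q * s) = C1 ^ q * s * L := by
      rw [hL, Finset.mul_sum]
      apply Finset.sum_congr rfl
      intro k _
      obtain ⟨r, rfl⟩ : ∃ r, q = r + 1 := ⟨q - 1, by omega⟩
      rw [Nat.add_sub_cancel, div_pow, pow_succ ((k : ℝ) + 1) r]
      field_simp
    rw [e1]
    obtain ⟨r, rfl⟩ : ∃ r, q = r + 1 := ⟨q - 1, by omega⟩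
    rw [Nat.add_sub_cancel, ← hL, pow_succ L r]
    ring
  have hLq : 1 ≤ L ^ q := one_le_pow₀ hL1
  have hs3 : s ≤ 2 * A' * L ^ q := by
    have h1 : s ^ 2 ≤ A' * (1 + L ^ q * s) := by
      rw [hs2, hA']
      have h2 : 2 ^ q * (A * (1 + I)) ≤ 2 ^ q * A + 2 ^ q * A * C1 ^ q * (L ^ q * s) := by
        have : 2 ^ q * A * I ≤ 2 ^ q * A * (C1 ^ q * L ^ q * s) := mul_le_mul_of_nonneg_left hI1 (by positivity)
        nlinarith
      have h3 : 0 ≤ 2 ^ q * A * C1 ^ q := by positivity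
      have h4 : 0 ≤ (1 + 2 ^ q * A) * (L ^ q * s) := by positivity
      nlinarith
    have h5 : 1 ≤ L ^ q * s := one_le_mul_of_one_le_of_one_le hLq hs1
    have h6 : s * s ≤ (2 * A' * L ^ q) * s := by nlinarith
    exact le_of_mul_le_mul_right h6 (by linarith)
  have hI2 : I ≤ 2 * A' * C1 ^ q * L ^ (2 * q) := by
    refine hI1.trans ?_
    have e : L ^ (2 * q) = L ^ q * L ^ q := by rw [← pow_add]; congr 1; omega
    rw [e]
    have : C1 ^ q * L ^ q * s ≤ C1 ^ q * L ^ q * (2 * A' * L ^ q) := mul_le_mul_of_nonneg_left hs3 (by positivity)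
    linarith
  have hF := (hbdg hP hB hB2 K).1
  refine hF.trans ?_
  rw [← hI]
  have hL2 : 1 ≤ L ^ (2 * q) := one_le_pow₀ hL1
  have h7 : 1 + I ≤ (1 + 2 * A' * C1 ^ q) * L ^ (2 * q) := by nlinarith
  calc A * (1 + I) ≤ A * ((1 + 2 * A' * C1 ^ q) * L ^ (2 * q)) := mul_le_mul_of_nonneg_left h7 hA.le
    _ = _ := by ring

end Pool.Agent.Helper682.HU
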