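import Mathlib
import Pool.Agent.Helper682.HU.XQ

set_option autoImplicit false

namespace Pool.Agent.Helper682.HU.XQ

open MeasureTheory Finset

theorem choose_P2
    (htrig : ∀ ε : ℝ, 0 < ε → ∃ (N : ℕ) (c : ℤ → ℂ) (P : ℝ → ℝ),
      (∀ t : ℝ, (P t : ℂ) = ∑ n ∈ Icc (-(N : ℤ)) N, c n * ee (n * t)) ∧ (∀ t, 0 ≤ P t ∧ P t ≤ 1) ∧
      ∫ t in (0 : ℝ)..1, |P t - (if t < 1 / 2 then 1 else 0)| ≤ ε)
    (helow : ∀ k : ℕ, 1 ≤ k → 1 / (16 * ((k : ℝ) + 1)) ≤
      ∫ s in (0 : ℝ)..1, (max s (1 - s)) ^ k * Real.cos (2 * Real.pi * s))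
    (hbup : ∀ k : ℕ, ∫ s in (0 : ℝ)..1, (max s (1 - s)) ^ k ≤ 2 / ((k : ℝ) + 1))
    (hcorr : ∀ s ∈ Set.Icc (0 : ℝ) 1,
      (1 / 2 : ℝ) + ∫ t in (0 : ℝ)..1, (if t < 1 / 2 then (1 : ℝ) else 0) * (if Int.fract (t + s) < 1 / 2 then 1 else 0) =
        max s (1 - s))
    (K : ℕ) (hK : 4 ≤ ∑ k ∈ range K, 1 / ((k : ℝ) + 1)) :
    ∃ (N : ℕ) (c : ℤ → ℂ) (P : ℝ → ℝ), Sel N P c ∧ (∀ k < K, bb P k ≤ 3 / ((k : ℝ) + 1)) ∧
      (wd false - wd true) / (64 * Real.pi) * (∑ k ∈ range K, 1 / ((k : ℝ) + 1)) ≤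
        ‖(Complex.I * ∫ t in (0:ℝ)..1, ee t * ((PP P false t : ℂ) * wd false + (PP P true t : ℂ) * wd true)) *
          ∑ k ∈ range K, ∫ s in (0:ℝ)..1, ee (-s) * (aa P s : ℂ) ^ k‖ :=
  by
  set L := ∑ k ∈ range K, 1 / ((k : ℝ) + 1) with hL
  set ε : ℝ := 1 / (64 * (K:ℝ) ^ 2 + 7) with hεd
  have hεpos : 0 < ε := by positivity
  have hK2 : 4 * (K:ℝ) ^ 2 * ε ≤ 1 / 16 := by
    rw [hεd]
    have : (0:ℝ) < 64 * (K:ℝ) ^ 2 + 7 := by positivity
    rw [mul_one_div, div_le_div_iff₀ this (by norm_num)]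
    linarith
  have hε7 : ε ≤ 1 / 7 := by
    rw [hεd]
    apply one_div_le_one_div_of_le (by norm_num)
    nlinarith [sq_nonneg (K:ℝ)]
  obtain ⟨N, c, P, hrep, h01, hε0⟩ := htrig ε hεpos
  have hε : ∫ t in (0 : ℝ)..1, |P t - J0 t| ≤ ε := hε0
  have haac := aa_cont (P := P) hrep
  have haa0 := aa_nonneg (P := P) hrep h01
  have haa1 := aa_le_one (P := P) hrep h01
  have hPc := P_cont hrep
  have hQ0 : ∀ s ∈ Set.Icc (0:ℝ) 1, 0 ≤ max s (1 - s) := fun s hs => le_max_of_le_left hs.1
  have hQ1 : ∀ s ∈ Set.Icc (0:ℝ) 1, max s (1 - s) ≤ 1 := fun s hs => max_le hs.2 (by linarith [hs.1])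
  have hQc : Continuous (fun s : ℝ => max s (1 - s)) := continuous_id.max (continuous_const.sub continuous_id)
  have hdiff : ∀ k : ℕ, ∀ s ∈ Set.Icc (0:ℝ) 1, |aa P s ^ k - (max s (1 - s)) ^ k| ≤ 4 * k * ε := by
    intro k s hs
    refine (pow_diff _ _ (haa0 s) (haa1 s) (hQ0 s hs) (hQ1 s hs) k).trans ?_
    have h1 := aux_aa hrep h01 hε hcorr s hs
    have : (k:ℝ) * |aa P s - max s (1 - s)| ≤ k * (4 * ε) := mul_le_mul_of_nonneg_left h1 (by positivity)
    linarith
  refine ⟨N, c, P, ⟨hrep, fun t => (h01 t).1, fun t => (h01 t).2⟩, ?_, ?_⟩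
  · have hb : ∀ k ∈ range K, bb P k ≤ 2 * (1 / ((k:ℝ) + 1)) + 4 * K * ε := by
      intro k hk
      unfold bb
      have h1 : ∫ s in (0:ℝ)..1, aa P s ^ k ≤ ∫ s in (0:ℝ)..1, ((max s (1 - s)) ^ k + 4 * k * ε) := by
        apply intervalIntegral.integral_mono_on zero_le_one
        · exact (haac.pow k).intervalIntegrable _ _
        · exact ((hQc.pow k).add continuous_const).intervalIntegrable _ _
        · intro s hs
          have := (abs_le.1 (hdiff k s hs)).2
          linarith
      have hQk : Continuous (fun s : ℝ => (max s (1 - s)) ^ k) := hQc.pow k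
      rw [intervalIntegral.integral_add (hQk.intervalIntegrable _ _) (continuous_const.intervalIntegrable _ _)] at h1
      have h2 := hbup k
      have h3 : ∫ s in (0:ℝ)..1, (4 * (k:ℝ) * ε) = 4 * k * ε := by simp
      rw [h3] at h1
      have h4 : 4 * (k:ℝ) * ε ≤ 4 * K * ε := by
        have : (k:ℝ) ≤ K := by exact_mod_cast (Finset.mem_range.1 hk).le
        apply mul_le_mul_of_nonneg_right _ hεpos.le
        linarith
      have h5 : (2:ℝ) / (k + 1) = 2 * (1 / ((k:ℝ) + 1)) := by ring
      linarith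
    intro k hk
    have h1 := hb k (Finset.mem_range.2 hk)
    have hK0 : (0:ℝ) < K := by exact_mod_cast (by omega : 0 < K)
    have hk1 : (k:ℝ) + 1 ≤ K := by exact_mod_cast hk
    have h2 : 4 * (K:ℝ) * ε ≤ 1 / ((k:ℝ) + 1) := by
      rw [le_div_iff₀ (by positivity)]
      have h3 : 4 * (K:ℝ) * ε * ((k:ℝ) + 1) ≤ 4 * (K:ℝ) * ε * K := mul_le_mul_of_nonneg_left hk1 (by positivity)
      have h4 : 4 * (K:ℝ) * ε * K = 4 * (K:ℝ) ^ 2 * ε := by ring
      linarith
    have h5 : 2 * (1 / ((k:ℝ) + 1)) + 1 / ((k:ℝ) + 1) = 3 / ((k:ℝ) + 1) := by ring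
    linarith
  · rw [norm_mul, norm_mul, Complex.norm_I, one_mul]
    have heec : Continuous (fun t : ℝ => ee (t : ℂ)) := ee_cont.comp Complex.continuous_ofReal
    have hPcc : Continuous (fun t : ℝ => (P t : ℂ)) := Complex.continuous_ofReal.comp hPc
    have hnee : ∀ t : ℝ, ‖ee (t:ℂ)‖ = 1 := by
      intro t
      unfold ee
      rw [show (2 * (Real.pi:ℂ) * Complex.I * (t:ℂ)) = ((2 * Real.pi * t : ℝ) : ℂ) * Complex.I by push_cast; ring]
      exact Complex.norm_exp_ofReal_mul_I _
    have hwd : 0 < wd false - wd true := by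
      unfold wd
      have : Real.exp (-(2 * Real.pi * (1 + if true = true then 1 else 0))) < Real.exp (-(2 * Real.pi * (1 + if false = true then 1 else 0))) := by
        apply Real.exp_lt_exp.2
        simp
        nlinarith [Real.pi_pos]
      linarith
    -- first factor
    have hfirst : (wd false - wd true) / (2 * Real.pi) ≤
        ‖∫ t in (0:ℝ)..1, ee t * ((PP P false t : ℂ) * wd false + (PP P true t : ℂ) * wd true)‖ := by
      have e1 : ∫ t in (0:ℝ)..1, ee t * ((PP P false t : ℂ) * wd false + (PP P true t : ℂ) * wd true) =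
          (wd false : ℂ) * (∫ t in (0:ℝ)..1, ee t) - ((wd false - wd true : ℝ) : ℂ) * ∫ t in (0:ℝ)..1, ee t * (P t : ℂ) := by
        rw [← intervalIntegral.integral_const_mul, ← intervalIntegral.integral_const_mul,
          ← intervalIntegral.integral_sub]
        · apply intervalIntegral.integral_congr
          intro t _
          simp only [PP]
          push_cast
          try simp
          ring
        · exact (continuous_const.mul heec).intervalIntegrable _ _
        · exact (continuous_const.mul (heec.mul hPcc)).intervalIntegrable _ _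
      rw [e1, int_ee_zero, mul_zero, zero_sub, norm_neg, norm_mul, Complex.norm_real,
        Real.norm_of_nonneg hwd.le, div_eq_mul_inv]
      apply mul_le_mul_of_nonneg_left _ hwd.le
      have e2 : ‖(∫ t in (0:ℝ)..1, ee t * (J0 t : ℂ)) - ∫ t in (0:ℝ)..1, ee t * (P t : ℂ)‖ ≤ ε := by
        rw [← intervalIntegral.integral_sub]
        · refine (intervalIntegral.norm_integral_le_integral_norm zero_le_one).trans ?_
          refine le_trans (le_of_eq ?_) hε
          apply intervalIntegral.integral_congr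
          intro t _
          change ‖ee t * (J0 t : ℂ) - ee t * (P t : ℂ)‖ = |P t - J0 t|
          rw [← mul_sub, norm_mul, hnee, one_mul, ← Complex.ofReal_sub, Complex.norm_real, Real.norm_eq_abs,
            abs_sub_comm]
        · rw [intervalIntegrable_iff]
          apply Measure.integrableOn_of_bounded (M := 1)
          · simp
          · apply Measurable.aestronglyMeasurable
            exact (heec.measurable).mul (Complex.measurable_ofReal.comp J0_meas)
          · filter_upwards with t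
            rw [norm_mul, hnee, one_mul, Complex.norm_real, Real.norm_of_nonneg (J0_nonneg t)]
            exact J0_le t
        · exact (heec.mul hPcc).intervalIntegrable _ _
      rw [int_ee_J0] at e2
      have e3 : ‖Complex.I / (Real.pi : ℂ)‖ = 1 / Real.pi := by
        rw [norm_div, Complex.norm_I, Complex.norm_real, Real.norm_of_nonneg Real.pi_pos.le]
      have e4 : ‖Complex.I / (Real.pi : ℂ)‖ - ‖∫ t in (0:ℝ)..1, ee t * (P t : ℂ)‖ ≤ ε :=
        (norm_sub_norm_le _ _).trans e2
      rw [e3] at e4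
      have e5 : (1:ℝ) / 7 ≤ 1 / (2 * Real.pi) := by
        apply one_div_le_one_div_of_le (by positivity)
        linarith [Real.pi_lt_d2]
      have e6 : (2 * Real.pi)⁻¹ + 1 / (2 * Real.pi) = 1 / Real.pi := by field_simp; norm_num
      linarith
    -- second factor
    have hsecond : L / 32 ≤ ‖∑ k ∈ range K, ∫ s in (0:ℝ)..1, ee (-s) * (aa P s : ℂ) ^ k‖ := by
      refine le_trans ?_ (Complex.re_le_norm _)
      rw [Complex.re_sum]
      have hcc : ∀ k : ℕ, Continuous (fun s : ℝ => ee (-s) * (aa P s : ℂ) ^ k) := by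
        intro k
        exact (ee_cont.comp (Complex.continuous_ofReal.neg)).mul ((Complex.continuous_ofReal.comp haac).pow k)
      have hre : ∀ k : ℕ, (∫ s in (0:ℝ)..1, ee (-s) * (aa P s : ℂ) ^ k).re =
          ∫ s in (0:ℝ)..1, aa P s ^ k * Real.cos (2 * Real.pi * s) := by
        intro k
        have h1 := intervalIntegral.intervalIntegral_eq_integral_uIoc (fun s : ℝ => ee (-s) * (aa P s : ℂ) ^ k) 0 1 volume
        have h2 := Complex.reCLM.intervalIntegral_comp_comm ((hcc k).intervalIntegrable (μ := volume) 0 1)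
        change Complex.reCLM (∫ s in (0:ℝ)..1, ee (-s) * (aa P s : ℂ) ^ k) = _
        rw [← h2]
        apply intervalIntegral.integral_congr
        intro s _
        simp only [Complex.reCLM_apply]
        rw [show (aa P s : ℂ) ^ k = ((aa P s ^ k : ℝ) : ℂ) by push_cast; rfl, mul_comm, Complex.re_ofReal_mul]
        congr 1
        unfold ee
        rw [show (2 * (Real.pi:ℂ) * Complex.I * (-(s:ℂ))) = ((-(2 * Real.pi * s) : ℝ) : ℂ) * Complex.I by push_cast; ring,
          Complex.exp_ofReal_mul_I_re, Real.cos_neg]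
      have hterm : ∀ k : ℕ, 1 ≤ k → 1 / (16 * ((k:ℝ) + 1)) - 4 * k * ε ≤
          (∫ s in (0:ℝ)..1, ee (-s) * (aa P s : ℂ) ^ k).re := by
        intro k hk
        rw [hre k]
        have h1 := helow k hk
        have h2 : (∫ s in (0 : ℝ)..1, (max s (1 - s)) ^ k * Real.cos (2 * Real.pi * s)) - 4 * k * ε ≤
            ∫ s in (0:ℝ)..1, aa P s ^ k * Real.cos (2 * Real.pi * s) := by
          have hcosc : Continuous (fun s : ℝ => Real.cos (2 * Real.pi * s)) := by fun_prop
          have h3 : (∫ s in (0 : ℝ)..1, ((max s (1 - s)) ^ k * Real.cos (2 * Real.pi * s) - 4 * k * ε)) ≤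
            ∫ s in (0:ℝ)..1, aa P s ^ k * Real.cos (2 * Real.pi * s) := by
            apply intervalIntegral.integral_mono_on zero_le_one
            · exact (((hQc.pow k).mul hcosc).sub continuous_const).intervalIntegrable _ _
            · exact ((haac.pow k).mul hcosc).intervalIntegrable _ _
            · intro s hs
              have h4 := hdiff k s hs
              have h5 : |(aa P s ^ k - (max s (1 - s)) ^ k) * Real.cos (2 * Real.pi * s)| ≤ 4 * k * ε := by
                rw [abs_mul]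
                calc _ ≤ (4 * k * ε) * 1 := mul_le_mul h4 (Real.abs_cos_le_one _) (abs_nonneg _) (by positivity)
                  _ = _ := mul_one _
              have h6 := (abs_le.1 h5).1
              linarith
          have hQkc : Continuous (fun s : ℝ => (max s (1 - s)) ^ k * Real.cos (2 * Real.pi * s)) := (hQc.pow k).mul hcosc
          rw [intervalIntegral.integral_sub (hQkc.intervalIntegrable _ _) (continuous_const.intervalIntegrable _ _)] at h3
          have h3' : ∫ s in (0:ℝ)..1, (4 * (k:ℝ) * ε) = 4 * k * ε := by simp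
          rw [h3'] at h3
          exact h3
        linarith
      have hzero : (∫ s in (0:ℝ)..1, ee (-s) * (aa P s : ℂ) ^ 0).re = 0 := by
        simp only [pow_zero, mul_one]
        rw [int_ee_neg_zero]; simp
      have hKpos : 1 ≤ K := by
        rcases Nat.eq_zero_or_pos K with h | h
        · rw [h] at hL; simp at hL; rw [hL] at hK; norm_num at hK
        · exact h
      obtain ⟨M, rfl⟩ : ∃ M, K = M + 1 := ⟨K - 1, by omega⟩
      rw [Finset.sum_range_succ', hzero, add_zero]
      have hsum : ∑ k ∈ range M, (1 / (16 * (((k + 1 : ℕ):ℝ) + 1)) - 4 * ((M + 1 : ℕ) : ℝ) * ε) ≤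
          ∑ k ∈ range M, (∫ s in (0:ℝ)..1, ee (-s) * (aa P s : ℂ) ^ (k + 1)).re := by
        apply Finset.sum_le_sum
        intro k hk
        refine le_trans ?_ (hterm (k + 1) (by omega))
        have : ((k + 1 : ℕ):ℝ) ≤ ((M + 1 : ℕ) : ℝ) := by
          exact_mod_cast (Nat.succ_le_succ (Finset.mem_range.1 hk).le)
        have h2 : 4 * ((k + 1 : ℕ):ℝ) * ε ≤ 4 * ((M + 1 : ℕ) : ℝ) * ε := by
          apply mul_le_mul_of_nonneg_right _ hεpos.le
          linarith
        linarith
      refine le_trans ?_ hsum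
      rw [Finset.sum_sub_distrib, Finset.sum_const, Finset.card_range, nsmul_eq_mul]
      have hL2 : L = 1 + ∑ k ∈ range M, 1 / (((k + 1 : ℕ):ℝ) + 1) := by
        rw [hL, Finset.sum_range_succ']
        push_cast
        norm_num
        ring
      have h16 : ∑ k ∈ range M, 1 / (16 * (((k + 1 : ℕ):ℝ) + 1)) = (1 / 16) * ∑ k ∈ range M, 1 / (((k + 1 : ℕ):ℝ) + 1) := by
        rw [Finset.mul_sum]
        apply Finset.sum_congr rfl
        intro k _
        rw [one_div_mul_one_div]
      have hM : (M:ℝ) * (4 * ((M + 1 : ℕ) : ℝ) * ε) ≤ 1 / 16 := by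
        refine le_trans ?_ hK2
        have : (M:ℝ) ≤ ((M + 1 : ℕ) : ℝ) := by push_cast; linarith
        have h3 : (M:ℝ) * (4 * ((M + 1 : ℕ) : ℝ) * ε) ≤ ((M + 1 : ℕ) : ℝ) * (4 * ((M + 1 : ℕ) : ℝ) * ε) :=
          mul_le_mul_of_nonneg_right this (by positivity)
        refine h3.trans (le_of_eq ?_)
        ring
      rw [h16]
      have : ∑ k ∈ range M, 1 / (((k + 1 : ℕ):ℝ) + 1) = L - 1 := by linarith
      rw [this]
      linarith
    have hLpos : 0 ≤ L / 32 := by linarith
    calc (wd false - wd true) / (64 * Real.pi) * L = (wd false - wd true) / (2 * Real.pi) * (L / 32) := by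
          field_simp; norm_num
      _ ≤ _ := mul_le_mul hfirst hsecond hLpos (norm_nonneg _)

end Pool.Agent.Helper682.HU.XQ
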