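import Mathlib
import Pool.Agent.Helper682.HU.HB2
import Pool.Agent.Helper682.HU.YQ
import Pool.Agent.Helper682.HU.H5

set_option autoImplicit false

namespace Pool.Agent.Helper682.HU

open MeasureTheory Finset

theorem choose_P2 (K : ℕ) (hK : 4 ≤ ∑ k ∈ range K, 1 / ((k : ℝ) + 1)) :
    ∃ (N : ℕ) (c : ℤ → ℂ) (P : ℝ → ℝ), Sel N P c ∧ (∀ k < K, bb P k ≤ 3 / ((k : ℝ) + 1)) ∧
      (wd false - wd true) / (64 * Real.pi) * (∑ k ∈ range K, 1 / ((k : ℝ) + 1)) ≤
        ‖(Complex.I * ∫ t in (0:ℝ)..1, ee t * ((PP P false t : ℂ) * wd false + (PP P true t : ℂ) * wd true)) *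
          ∑ k ∈ range K, ∫ s in (0:ℝ)..1, ee (-s) * (aa P s : ℂ) ^ k‖ :=
  XQ.choose_P2 trig_approx e_low b_up corr_half K hK

/-- slices of powers are monotone -/
theorem slice_mono_pow {n : ℕ} (q : ℕ) (ξ : Fin n → Fin 3 → ℤ) (a : Fin n → ℂ) (y : Fin 3 → ℝ) (hy : ∀ i, 0 ≤ dr (ξ i) y) :
    ∫ x in cube, ‖∑ i, a i * ee (dz (ξ i) (fun j => (x j : ℂ) + y j * Complex.I))‖ ^ (2 * q) ≤
      ∫ x in cube, ‖∑ i, a i * ee (dr (ξ i) x)‖ ^ (2 * q) := by
  classical
  -- the power as an exponential sum indexed by `Fin q → Fin n`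
  have hpow : ∀ z : Fin 3 → ℂ, (∑ i, a i * ee (dz (ξ i) z)) ^ q =
      ∑ f : Fin q → Fin n, (∏ j, a (f j)) * ee (dz (∑ j, ξ (f j)) z) := by
    intro z
    have h0 : (∑ i, a i * ee (dz (ξ i) z)) ^ q = ∏ _j : Fin q, ∑ i, a i * ee (dz (ξ i) z) := by
      rw [Finset.prod_const, Finset.card_univ, Fintype.card_fin]
    rw [h0, Finset.prod_univ_sum, Fintype.piFinset_univ]
    apply Finset.sum_congr rfl
    intro f _
    rw [Finset.prod_mul_distrib]
    congr 1
    have hee : ∀ s : Finset (Fin q), ∏ j ∈ s, ee (dz (ξ (f j)) z) = ee (dz (∑ j ∈ s, ξ (f j)) z) := by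
      intro s
      induction s using Finset.induction_on with
      | empty => simp [dz_zero, ee_zero]
      | insert b s hb ih => rw [Finset.prod_insert hb, Finset.sum_insert hb, dz_add, ee_add, ih]
    exact hee _
  have hpowr : ∀ x : Fin 3 → ℝ, (∑ i, a i * ee (dr (ξ i) x)) ^ q =
      ∑ f : Fin q → Fin n, (∏ j, a (f j)) * ee (dr (∑ j, ξ (f j)) x) := by
    intro x
    have := hpow (fun j => (x j : ℂ))
    simp only [dz_real] at this
    exact this
  let e := Fintype.equivFin (Fin q → Fin n)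
  have h1 := slice_mono (fun i => ∑ j, ξ (e.symm i j)) (fun i => ∏ j, a (e.symm i j)) y (by
    intro i
    have hdr : ∀ s : Finset (Fin q), 0 ≤ dr (∑ j ∈ s, ξ (e.symm i j)) y := by
      intro s
      induction s using Finset.induction_on with
      | empty => simp [dr_zero]
      | insert b s hb ih => rw [Finset.sum_insert hb, dr_add]; exact add_nonneg (hy _) ih
    exact hdr _)
  have e1 : ∀ x : Fin 3 → ℝ, ∑ i, (∏ j, a (e.symm i j)) * ee (dz (∑ j, ξ (e.symm i j)) (fun j => (x j : ℂ) + y j * Complex.I)) =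
      (∑ i, a i * ee (dz (ξ i) (fun j => (x j : ℂ) + y j * Complex.I))) ^ q := by
    intro x
    rw [hpow]
    exact Equiv.sum_comp e.symm (fun f : Fin q → Fin n => (∏ j, a (f j)) * ee (dz (∑ j, ξ (f j)) (fun j => (x j : ℂ) + y j * Complex.I)))
  have e2 : ∀ x : Fin 3 → ℝ, ∑ i, (∏ j, a (e.symm i j)) * ee (dr (∑ j, ξ (e.symm i j)) x) =
      (∑ i, a i * ee (dr (ξ i) x)) ^ q := by
    intro x
    rw [hpowr]
    exact Equiv.sum_comp e.symm (fun f : Fin q → Fin n => (∏ j, a (f j)) * ee (dr (∑ j, ξ (f j)) x))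
  simp only [e1, e2, norm_pow, ← pow_mul] at h1
  rw [mul_comm 2 q]
  exact h1

end Pool.Agent.Helper682.HU
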