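import Mathlib
import Pool.Agent.Helper682.HU.HB3

set_option autoImplicit false

namespace Pool.Agent.Helper682.HU

open MeasureTheory Finset

theorem hR_sum_FF {N : ℕ} {P : ℝ → ℝ} {c : ℤ → ℂ} (hP : Sel N P c) (B K : ℕ) (x : Fin 3 → ℝ) :
    ‖FF N c B K (fun j => (x j : ℂ))‖ = ‖∑ k ∈ range K, ∑ S ∈ Bk k, ee (dr (Xi B S) x) * hR P B S x‖ := by
  unfold FF
  rw [norm_mul, Complex.norm_I, one_mul]
  congr 1
  apply Finset.sum_congr rfl
  intro k _
  apply Finset.sum_congr rfl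
  intro S _
  rw [dz_real, hC_real hP]

/-- existence of the humps, exponent `2 q` -/
theorem KTq (q : ℕ) (hq : 1 ≤ q) (C : ℝ) : ∃ (n : ℕ) (ξ : Fin n → Fin 3 → ℤ) (a : Fin n → ℂ) (Y : Finset (Fin 3 → ℝ)),
      (∀ i y, cone y → 0 < dr (ξ i) y) ∧ (∀ y ∈ Y, cone y) ∧
      (∀ y, cone y → ∫ x in cube, ‖EF a ξ (cplx x y)‖ ^ (2 * q) ≤ 1) ∧
      ENNReal.ofReal (kap ^ 2 / 108) ≤ volume {x | x ∈ cube ∧ ∃ y ∈ Y, C < ‖EF a ξ (cplx x y)‖} := by
  classical
  have hk := kap_pos
  obtain ⟨A2, hA2, hmom⟩ := moment_bound (2 * q - 1) (by omega)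
  set C2 : ℝ := (3 + A2) / 2 with hC2
  have hC20 : 0 < C2 := by positivity
  set T : ℝ := C2 * ((|C| + 1) * 8 / (3 * kap)) ^ (2 * q) with hT
  have hT0 : 0 < T := by
    have : 0 ≤ |C| := abs_nonneg C
    positivity
  -- choice of K
  obtain ⟨K, hK⟩ : ∃ K : ℕ, max 4 (T ^ 2) ≤ ∑ k ∈ range K, 1 / ((k : ℝ) + 1) := by
    have h := Real.tendsto_sum_range_one_div_nat_succ_atTop
    exact (h.eventually_ge_atTop _).exists
  set L : ℝ := ∑ k ∈ range K, 1 / ((k : ℝ) + 1) with hL
  have hL4 : 4 ≤ L := (le_max_left _ _).trans hK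
  have hLT : T ^ 2 ≤ L := (le_max_right _ _).trans hK
  have hK1 : 1 ≤ K := by
    by_contra h
    have : K = 0 := by omega
    rw [this] at hL
    simp at hL
    linarith
  obtain ⟨N, c, P, hP, hbb, hmean⟩ := choose_P2 K hL4
  rw [← hL] at hmean
  have hbbs : ∑ k ∈ range K, bb P k ≤ 3 * L := by
    rw [hL, Finset.mul_sum]
    apply Finset.sum_le_sum
    intro k hk
    have := hbb k (Finset.mem_range.1 hk)
    calc bb P k ≤ 3 / ((k : ℝ) + 1) := this
      _ = 3 * (1 / ((k : ℝ) + 1)) := by ring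
  set E : ℝ := kap * L with hE
  have hE0 : 0 < E := by positivity
  obtain ⟨B1, hB1⟩ := reach_cone (N := N) (K := K)
  obtain ⟨B2, hB2⟩ := err_bound hP K (E / 16) (by positivity)
  set B := max (max B1 B2) (64 * (q * N) + 32 * q + 128 * N + 128) with hBdef
  have hBB1 : B1 ≤ B := (le_max_left _ _).trans (le_max_left _ _)
  have hBB2 : B2 ≤ B := (le_max_right _ _).trans (le_max_left _ _)
  have hBbig : 64 * (q * N) + 32 * q + 128 * N + 128 ≤ B := le_max_right _ _
  have hBsq : 64 * (q * N) + 32 * q + 128 * N + 128 ≤ B ^ 2 := by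
    have h1 : 1 ≤ B := by omega
    nlinarith
  have hc1 : 8 * (2 * q - 1 + 3) * (4 * N + 2) < B ^ 2 := by
    have e : 8 * (2 * q - 1 + 3) * (4 * N + 2) = 64 * (q * N) + 32 * q + 64 * N + 32 := by
      have : 2 * q - 1 + 3 = 2 * q + 2 := by omega
      rw [this]; ring
    omega
  have hc2 : 2 * ((2 * (2 * q - 1) + 1) * N) < B ^ 2 := by
    obtain ⟨r, rfl⟩ : ∃ r, q = r + 1 := ⟨q - 1, by omega⟩
    have e : 2 * ((2 * (2 * (r + 1) - 1) + 1) * N) = 8 * (r * N) + 6 * N := by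
      have : 2 * (2 * (r + 1) - 1) + 1 = 4 * r + 3 := by omega
      rw [this]; ring
    have e2 : (r + 1) * N = r * N + N := by ring
    rw [e2] at hBsq
    omega
  obtain ⟨n, ξ, a, hg, hrep⟩ := (FF_rep N c B K).fin
  have hcone : ∀ i y, cone y → 0 < dr (ξ i) y := by
    intro i y hy
    obtain ⟨S, ζ, hS, hR, he⟩ := hg i
    rw [he]
    exact hB1 B hBB1 S hS.le ζ hR y hy
  obtain ⟨δ, hδ, hpush⟩ := push_in a ξ hcone (E / 16) (by positivity)
  -- moments on the real space
  set R : ℝ := Real.sqrt L with hR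
  have hR0 : 0 < R := by positivity
  have hR2 : R ^ 2 = L := Real.sq_sqrt (by positivity)
  have hRT : T ≤ R := by
    rw [hR]
    exact Real.le_sqrt_of_sq_le hLT
  set f : (Fin 3 → ℝ) → ℝ := fun x => ‖∑ k ∈ range K, ∑ S ∈ Bk k, ee (dr (Xi B S) x) * Pool.Agent.Helper682.HU.hR P B S x‖ with hf
  have hfc : Continuous f := by
    apply Continuous.norm
    apply continuous_finset_sum
    intro k _
    apply continuous_finset_sum
    intro S _
    have h1 := hR_cont hP B S
    have h2 := ee_cont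
    have h3 := dr_cont (Xi B S)
    fun_prop
  have hf0 : ∀ x, 0 ≤ f x := fun x => norm_nonneg _
  have hf2 : ∫ x in cube, f x ^ 2 ≤ 3 * L := by
    have h1 := norm_bound hP (B := B) (by omega) (by omega) K
    simp only [hR_sum_FF hP] at h1
    exact h1.trans hbbs
  have hf4 : ∫ x in cube, f x ^ (4 * q - 2) ≤ A2 * L ^ (4 * q - 2) := by
    have h1 := hmom hP (B := B) (by omega) hc1 hc2 K hK1 hbb
    rw [← hL, show 2 * (2 * q - 1) = 4 * q - 2 by omega] at h1
    refine le_trans ?_ h1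
    apply integral_mono (cint (hfc.pow _)) (cint ((continuous_const.add (hfc.pow 2)).pow _))
    intro x
    show f x ^ (4 * q - 2) ≤ (1 + f x ^ 2) ^ (2 * q - 1)
    rw [show 4 * q - 2 = 2 * (2 * q - 1) by omega, pow_mul]
    apply pow_le_pow_left₀ (by positivity)
    linarith
  have hf2q : ∫ x in cube, f x ^ (2 * q) ≤ C2 * R ^ (4 * q - 1) := by
    have ht : 0 < R ^ (4 * q - 3) := by positivity
    have hpt : ∀ x, f x ^ (2 * q) ≤ (R ^ (4 * q - 3) * f x ^ 2 + f x ^ (4 * q - 2) / R ^ (4 * q - 3)) / 2 := by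
      intro x
      apply amgm
      · exact pow_nonneg (hf0 x) _
      · exact ht
      · have := hf0 x
        positivity
      · rw [← pow_mul, ← pow_add]
        apply le_of_eq
        congr 1
        omega
    have h1 : ∫ x in cube, f x ^ (2 * q) ≤ ∫ x in cube, (R ^ (4 * q - 3) * f x ^ 2 + f x ^ (4 * q - 2) / R ^ (4 * q - 3)) / 2 := by
      apply integral_mono (cint (hfc.pow _)) (cint _) hpt
      have := hfc.pow 2
      have := hfc.pow (4 * q - 2)
      fun_prop
    refine h1.trans ?_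
    have hi2 : IntegrableOn (fun x => R ^ (4 * q - 3) * f x ^ 2) cube := cint (continuous_const.mul (hfc.pow 2))
    have hi4 : IntegrableOn (fun x => f x ^ (4 * q - 2) / R ^ (4 * q - 3)) cube := cint ((hfc.pow _).div_const _)
    rw [integral_div, integral_add hi2 hi4, integral_const_mul, integral_div]
    have e1 : R ^ (4 * q - 3) * (3 * L) = 3 * R ^ (4 * q - 1) := by
      rw [← hR2, show 4 * q - 1 = (4 * q - 3) + 2 by omega, pow_add]
      ring
    have e2 : A2 * L ^ (4 * q - 2) / R ^ (4 * q - 3) = A2 * R ^ (4 * q - 1) := by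
      rw [div_eq_iff ht.ne', ← hR2, ← pow_mul, mul_assoc, ← pow_add]
      congr 2
      omega
    have h2 : R ^ (4 * q - 3) * ∫ x in cube, f x ^ 2 ≤ 3 * R ^ (4 * q - 1) := by
      rw [← e1]; exact mul_le_mul_of_nonneg_left hf2 ht.le
    have h3 : (∫ x in cube, f x ^ (4 * q - 2)) / R ^ (4 * q - 3) ≤ A2 * R ^ (4 * q - 1) := by
      rw [← e2]; exact div_le_div_of_nonneg_right hf4 ht.le
    rw [hC2]
    linarith
  -- normalisation
  have hCR : 0 < C2 * R ^ (4 * q - 1) := by positivity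
  have hq0 : (0 : ℝ) < 2 * q := by
    have : (1:ℝ) ≤ q := by exact_mod_cast hq
    linarith
  set w : ℝ := (C2 * R ^ (4 * q - 1)) ^ (-(1 / (2 * (q : ℝ)))) with hw
  have hw0 : 0 < w := Real.rpow_pos_of_pos hCR _
  have hwq : w ^ (2 * q) * (C2 * R ^ (4 * q - 1)) = 1 := by
    rw [hw, ← Real.rpow_natCast, ← Real.rpow_mul hCR.le]
    have : -(1 / (2 * (q : ℝ))) * ((2 * q : ℕ) : ℝ) = -1 := by push_cast; field_simp
    rw [this, Real.rpow_neg_one]
    exact inv_mul_cancel₀ hCR.ne'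
  have hscale : ∀ z, EF (fun i => (w : ℂ) * a i) ξ z = w * EF a ξ z := by
    intro z
    unfold EF
    rw [Finset.mul_sum]
    apply Finset.sum_congr rfl
    intro i _
    ring
  refine ⟨n, ξ, fun i => (w : ℂ) * a i, (Bk K).image (fun T => yv (th B T) + δ • e1), hcone, ?_, ?_, ?_⟩
  · intro y hy
    rw [Finset.mem_image] at hy
    obtain ⟨T, _, rfl⟩ := hy
    exact cone_yv _ _ hδ
  · intro y hy
    have h1 := slice_mono_pow q ξ a y (fun i => (hcone i y hy).le)
    have h3 : ∀ x, ‖EF (fun i => (w : ℂ) * a i) ξ (cplx x y)‖ ^ (2 * q) =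
        w ^ (2 * q) * ‖∑ i, a i * ee (dz (ξ i) (fun j => (x j : ℂ) + y j * Complex.I))‖ ^ (2 * q) := by
      intro x
      rw [hscale, norm_mul, mul_pow, Complex.norm_real, Real.norm_of_nonneg hw0.le]
      rfl
    simp only [h3]
    rw [integral_const_mul]
    have h4 : ∀ x : Fin 3 → ℝ, ‖∑ i, a i * ee (dr (ξ i) x)‖ ^ (2 * q) = f x ^ (2 * q) := by
      intro x
      congr 1
      rw [hf]
      beta_reduce
      rw [← hR_sum_FF hP, hrep]
      unfold EF
      congr 1
      apply Finset.sum_congr rfl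
      intro i _
      rw [dz_real]
    simp only [h4] at h1
    have h5 := h1.trans hf2q
    calc _ ≤ w ^ (2 * q) * (C2 * R ^ (4 * q - 1)) := mul_le_mul_of_nonneg_left h5 (by positivity)
      _ = 1 := hwq
  · have hm := mean_formula hP (B := B) (by omega) (by omega) K
    have hs := second_moment hP (B := B) (by omega) (by omega) K
    have hmean' : E ≤ ‖∑ T ∈ Bk K, ∫ x in cube, (pT P B T x : ℂ) * Ft P B T x‖ := by
      rw [hm, hE]; exact hmean
    have hbb0 : 0 ≤ ∑ k ∈ range K, bb P k := Finset.sum_nonneg fun k _ => bb_nonneg hP k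
    have hs' : ∑ T ∈ Bk K, ∫ x in cube, pT P B T x * gs P B T x ^ 2 ≤ 27 * L ^ 2 := by
      refine hs.trans ?_
      nlinarith
    have hpz := pz (Bk K) (fun T => pT P B T) (fun T => Ft P B T) (fun T => gs P B T)
      (fun T _ => pT_cont hP B T) (fun T _ => Ft_cont hP B T) (fun T _ => gs_cont hP B T)
      (fun T _ x => pT_nonneg hP B T x) (fun x => pT_sum hP B K x) (fun T _ x => Ft_le hP B T x)
      E (27 * L ^ 2) hE0 (by positivity) hmean' hs'
    have he : E ^ 2 / (4 * (27 * L ^ 2)) = kap ^ 2 / 108 := by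
      rw [hE]
      field_simp
      norm_num
    rw [he] at hpz
    refine hpz.trans (measure_mono ?_)
    rintro x ⟨hx, T', hT', hTx⟩
    refine ⟨hx, yv (th B T') + δ • e1, Finset.mem_image_of_mem _ hT', ?_⟩
    rw [hscale, norm_mul, Complex.norm_real, Real.norm_of_nonneg hw0.le]
    have h1 := hpush (th B T') x
    have h2 := hB2 B hBB2 T' (mem_Bk.1 hT') x
    rw [hrep] at h2
    have h3 : ‖Ft P B T' x‖ ≤ ‖EF a ξ (cplx x (yv (th B T') + δ • e1))‖ +
        ‖EF a ξ (cplx x (yv (th B T') + δ • e1)) - EF a ξ (cplx x (yv (th B T')))‖ +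
        ‖EF a ξ (cplx x (yv (th B T'))) - Ft P B T' x‖ := by
      have : Ft P B T' x = EF a ξ (cplx x (yv (th B T') + δ • e1)) -
        (EF a ξ (cplx x (yv (th B T') + δ • e1)) - EF a ξ (cplx x (yv (th B T')))) -
        (EF a ξ (cplx x (yv (th B T'))) - Ft P B T' x) := by ring
      calc ‖Ft P B T' x‖ = ‖EF a ξ (cplx x (yv (th B T') + δ • e1)) -
        (EF a ξ (cplx x (yv (th B T') + δ • e1)) - EF a ξ (cplx x (yv (th B T')))) -
        (EF a ξ (cplx x (yv (th B T'))) - Ft P B T' x)‖ := by rw [← this]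
        _ ≤ _ := (norm_sub_le _ _).trans (add_le_add (norm_sub_le _ _) le_rfl)
    have h4 : 3 / 8 * E < ‖EF a ξ (cplx x (yv (th B T') + δ • e1))‖ := by linarith
    -- size of w E
    have h5 : |C| + 1 ≤ w * (3 / 8 * E) := by
      have hC0 : 0 ≤ |C| := abs_nonneg C
      have hq1 : 2 * q ≠ 0 := by omega
      refine le_of_pow_le_pow_left₀ hq1 (by positivity) ?_
      have e1 : (w * (3 / 8 * E)) ^ (2 * q) * (C2 * R ^ (4 * q - 1)) = (3 / 8 * E) ^ (2 * q) := by
        rw [mul_pow]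
        calc w ^ (2 * q) * (3 / 8 * E) ^ (2 * q) * (C2 * R ^ (4 * q - 1)) =
            (w ^ (2 * q) * (C2 * R ^ (4 * q - 1))) * (3 / 8 * E) ^ (2 * q) := by ring
          _ = (3 / 8 * E) ^ (2 * q) := by rw [hwq, one_mul]
      have e2 : (3 / 8 * E) ^ (2 * q) = (3 * kap / 8) ^ (2 * q) * (R * R ^ (4 * q - 1)) := by
        rw [hE, ← hR2, show R * R ^ (4 * q - 1) = (R ^ 2) ^ (2 * q) by
          rw [← pow_mul, ← pow_succ']; congr 1; omega, ← mul_pow]
        congr 1
        ring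
      have e3 : (|C| + 1) ^ (2 * q) * C2 = (3 * kap / 8) ^ (2 * q) * T := by
        rw [hT]
        have : (|C| + 1) = (3 * kap / 8) * ((|C| + 1) * 8 / (3 * kap)) := by field_simp
        calc (|C| + 1) ^ (2 * q) * C2 = ((3 * kap / 8) * ((|C| + 1) * 8 / (3 * kap))) ^ (2 * q) * C2 := by rw [← this]
          _ = _ := by rw [mul_pow]; ring
      have h6 : (|C| + 1) ^ (2 * q) * (C2 * R ^ (4 * q - 1)) ≤ (w * (3 / 8 * E)) ^ (2 * q) * (C2 * R ^ (4 * q - 1)) := by
        rw [e1, e2, ← mul_assoc, e3, mul_assoc]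
        apply mul_le_mul_of_nonneg_left _ (by positivity)
        exact mul_le_mul_of_nonneg_right hRT (by positivity)
      exact le_of_mul_le_mul_right h6 hCR
    have h6 : w * (3 / 8 * E) < w * ‖EF a ξ (cplx x (yv (th B T') + δ • e1))‖ := mul_lt_mul_of_pos_left h4 hw0
    have h7 := le_abs_self C
    linarith

end Pool.Agent.Helper682.HU
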