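import Mathlib
import Pool.Agent.Helper682.HU.G0

set_option autoImplicit false

namespace Pool.Agent.Helper682.HU

open MeasureTheory Finset

structure Hump.OkQ (h : Hump) (q : ℕ) (ε C : ℝ) : Prop where
  pos : 0 < h.R
  cn : ∀ i y, cone y → 0 < dr (h.ξ i) y
  cY : ∀ y ∈ h.Y, cone y
  sl : ∀ y, cone y → ∫ x in cube, ‖EF h.a h.ξ (cplx x y)‖ ^ (2 * q) ≤ 1
  big : ENNReal.ofReal ε ≤ volume {x | x ∈ cube ∧ ∃ y ∈ h.Y, C < ‖EF h.a h.ξ (cplx x y)‖}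

end Pool.Agent.Helper682.HU
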