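import Mathlib
import Pool.Agent.Helper682.HU.ZG0

set_option autoImplicit false

namespace Pool.Agent.Helper682.HU.ZG2

open MeasureTheory Finset



theorem hp_term {t : ℝ} (ht : 0 < t) (A S : ℝ) :
    Filter.Tendsto (fun R : ℕ => A * (1 + 2 * Real.pi * (R : ℝ) * S) *
      Real.exp (-(2 * Real.pi * (R : ℝ) * t))) Filter.atTop (nhds 0) := by
  have hx : Filter.Tendsto (fun R : ℕ => 2 * Real.pi * (R : ℝ) * t) Filter.atTop Filter.atTop := by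
    have h1 : Filter.Tendsto (fun R : ℕ => (R : ℝ)) Filter.atTop Filter.atTop :=
      tendsto_natCast_atTop_atTop
    have h2 := h1.const_mul_atTop (show (0:ℝ) < 2 * Real.pi * t by have := Real.pi_pos; positivity)
    refine h2.congr fun R => ?_
    ring
  have h0 := (Real.tendsto_pow_mul_exp_neg_atTop_nhds_zero 0).comp hx
  have h1 := (Real.tendsto_pow_mul_exp_neg_atTop_nhds_zero 1).comp hx
  have h2 := (h0.const_mul A).add (h1.const_mul (A * (S / t)))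
  rw [mul_zero, mul_zero, add_zero] at h2
  refine h2.congr fun R => ?_
  simp only [Function.comp, pow_zero, pow_one, one_mul]
  field_simp

theorem hp_dr_pos {ξ : Fin 3 → ℤ} (h : ∀ y, cone y → 0 < dr ξ y) {y : Fin 3 → ℝ} (hy : cone y) :
    0 < dr ξ y := h y hy

theorem hp_cone_div {y : Fin 3 → ℝ} (hy : cone y) {r : ℝ} (hr : 0 < r) :
    cone (fun k => y k / r) := by
  obtain ⟨h1, h2⟩ := hy
  refine ⟨by positivity, ?_⟩
  have h3 : 0 < r ^ 2 := by positivity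
  have h4 : (y 1 / r) ^ 2 = y 1 ^ 2 / r ^ 2 := by rw [div_pow]
  have h5 : y 0 / r * (y 2 / r) = (y 0 * y 2) / r ^ 2 := by
    rw [div_mul_div_comm, sq]
  show (y 1 / r) ^ 2 < y 0 / r * (y 2 / r)
  rw [h4, h5]
  exact div_lt_div_of_pos_right h2 h3

theorem hp_cone_e1 : cone e1 := by
  refine ⟨by simp [e1], by simp [e1]⟩

theorem hp_dec {n : ℕ} (ξ : Fin n → Fin 3 → ℤ) (a : Fin n → ℂ) (Y : Finset (Fin 3 → ℝ))
    (hcn : ∀ i y, cone y → 0 < dr (ξ i) y) {z : Fin 3 → ℝ} (hz : cone z) :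
    ∀ᶠ R : ℕ in Filter.atTop, (Hump.mk n ξ a Y R).dec z ≤ 1 := by
  have h1 : Filter.Tendsto (fun R : ℕ => (Hump.mk n ξ a Y R).dec z) Filter.atTop (nhds 0) := by
    have h2 : Filter.Tendsto (fun R : ℕ => ∑ i : Fin n, ‖a i‖ *
        (1 + 2 * Real.pi * (R : ℝ) * ∑ k, |(ξ i k : ℝ)|) *
          Real.exp (-(2 * Real.pi * (R : ℝ) * dr (ξ i) z))) Filter.atTop
        (nhds (∑ i : Fin n, (0 : ℝ))) :=
      tendsto_finsetSum _ fun i _ => hp_term (hcn i z hz) _ _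
    rw [Finset.sum_const_zero] at h2
    exact h2
  exact (h1.eventually (ge_mem_nhds one_pos)) |>.mono fun R h => h

theorem hp_step (q : ℕ) (ε c : ℝ)
    (hKT : ∀ C : ℝ, ∃ (n : ℕ) (ξ : Fin n → Fin 3 → ℤ) (a : Fin n → ℂ) (Y : Finset (Fin 3 → ℝ)),
      (∀ i y, cone y → 0 < dr (ξ i) y) ∧ (∀ y ∈ Y, cone y) ∧
      (∀ y, cone y → ∫ x in cube, ‖EF a ξ (cplx x y)‖ ^ (2 * q) ≤ 1) ∧
      ENNReal.ofReal ε ≤ volume {x | x ∈ cube ∧ ∃ y ∈ Y, C < ‖EF a ξ (cplx x y)‖})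
    (j : ℕ) (A : ℝ) (Z : Finset (Fin 3 → ℝ)) (hZ : ∀ z ∈ Z, cone z) :
    ∃ h : Hump, h.OkQ q ε (2 ^ j * (j / c + A + 1)) ∧ h.dec (fun k => e1 k / (j + 1)) ≤ 1 ∧
      (∀ z ∈ Z, h.dec z ≤ 1) ∧ ∀ y ∈ h.Y, ‖y‖ ≤ h.R / (j + 1) := by
  obtain ⟨n, ξ, a, Y, hcn, hcY, hsl, hbig⟩ := hKT (2 ^ j * (j / c + A + 1))
  have hj : (0 : ℝ) < (j : ℝ) + 1 := by positivity
  have e1' := hp_dec ξ a Y hcn (hp_cone_div hp_cone_e1 hj)
  have e2 : ∀ᶠ R : ℕ in Filter.atTop, ∀ z ∈ Z, (Hump.mk n ξ a Y R).dec z ≤ 1 := by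
    rw [Filter.eventually_all_finset]
    intro z hz
    exact hp_dec ξ a Y hcn (hZ z hz)
  have e3 : ∀ᶠ R : ℕ in Filter.atTop, ∀ y ∈ Y, ‖y‖ ≤ (R : ℝ) / (j + 1) := by
    rw [Filter.eventually_all_finset]
    intro y _
    have h1 : Filter.Tendsto (fun R : ℕ => (R : ℝ)) Filter.atTop Filter.atTop :=
      tendsto_natCast_atTop_atTop
    filter_upwards [h1.eventually_ge_atTop (‖y‖ * (j + 1))] with R hR
    rw [le_div_iff₀ hj]
    exact hR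
  obtain ⟨R, ⟨⟨hR1, hR2⟩, hR3⟩, hR4⟩ := (((e1'.and e2).and e3).and
    (Filter.eventually_gt_atTop 0)).exists
  exact ⟨⟨n, ξ, a, Y, R⟩, ⟨hR4, hcn, hcY, hsl, hbig⟩, hR1, hR2, hR3⟩

/-- inductive choice of the humps -/
theorem exists_humps (q : ℕ) (ε c : ℝ) (hε : 0 < ε) (hc : 0 < c)
    (hKT : ∀ C : ℝ, ∃ (n : ℕ) (ξ : Fin n → Fin 3 → ℤ) (a : Fin n → ℂ) (Y : Finset (Fin 3 → ℝ)),
      (∀ i y, cone y → 0 < dr (ξ i) y) ∧ (∀ y ∈ Y, cone y) ∧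
      (∀ y, cone y → ∫ x in cube, ‖EF a ξ (cplx x y)‖ ^ (2 * q) ≤ 1) ∧
      ENNReal.ofReal ε ≤ volume {x | x ∈ cube ∧ ∃ y ∈ Y, C < ‖EF a ξ (cplx x y)‖}) :
    ∃ H : ℕ → Hump,
      (∀ j, (H j).OkQ q ε (2 ^ j * (j / c + (∑ i ∈ range j, (1 / 2 : ℝ) ^ i * (H i).l1) + 1))) ∧
      (∀ j : ℕ, (H j).dec (fun k => e1 k / (j + 1)) ≤ 1) ∧
      (∀ i j : ℕ, i < j → ∀ y ∈ (H i).Y, (H j).dec (fun k => y k / (H i).R) ≤ 1) ∧
      (∀ j : ℕ, ∀ y ∈ (H j).Y, ‖y‖ ≤ (H j).R / (j + 1)) := by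
  classical
  let S := {p : ℝ × Finset (Fin 3 → ℝ) // ∀ z ∈ p.2, cone z}
  have hstep := hp_step q ε c hKT
  choose F hF1 hF2 hF3 hF4 using hstep
  let nxt : ℕ → S → S := fun j s =>
    ⟨(s.1.1 + (1 / 2 : ℝ) ^ j * (F j s.1.1 s.1.2 s.2).l1,
      s.1.2 ∪ (F j s.1.1 s.1.2 s.2).Y.image (fun y k => y k / (F j s.1.1 s.1.2 s.2).R)), by
      intro z hz
      rcases Finset.mem_union.1 hz with h | h
      · exact s.2 z h
      · obtain ⟨y, hy, rfl⟩ := Finset.mem_image.1 h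
        have hok := hF1 j s.1.1 s.1.2 s.2
        exact hp_cone_div (hok.cY y hy) (by exact_mod_cast hok.pos)⟩
  let st : ℕ → S := fun j => Nat.rec (⟨(0, ∅), by simp⟩ : S) (fun j s => nxt j s) j
  let H : ℕ → Hump := fun j => F j (st j).1.1 (st j).1.2 (st j).2
  have hst : ∀ j, st (j + 1) = nxt j (st j) := fun j => rfl
  have hA : ∀ j, (st j).1.1 = ∑ i ∈ range j, (1 / 2 : ℝ) ^ i * (H i).l1 := by
    intro j
    induction j with
    | zero => rfl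
    | succ j ih =>
      rw [Finset.sum_range_succ, ← ih, hst]
  have hZ : ∀ i j, i < j → ∀ y ∈ (H i).Y, (fun k => y k / (H i).R) ∈ (st j).1.2 := by
    intro i j hij
    induction j with
    | zero => exact absurd hij (Nat.not_lt_zero _)
    | succ j ih =>
      intro y hy
      rw [hst]
      show _ ∈ _ ∪ _
      rcases Nat.lt_succ_iff_lt_or_eq.1 hij with h | h
      · exact Finset.mem_union_left _ (ih h y hy)
      · subst h
        exact Finset.mem_union_right _ (Finset.mem_image.2 ⟨y, hy, rfl⟩)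
  refine ⟨H, ?_, ?_, ?_, ?_⟩
  · intro j
    rw [← hA j]
    exact hF1 j _ _ _
  · intro j
    exact hF2 j _ _ _
  · intro i j hij y hy
    exact hF3 j _ _ (st j).2 _ (hZ i j hij y hy)
  · intro j y hy
    exact hF4 j _ _ _ y hy

end Pool.Agent.Helper682.HU.ZG2
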