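import Mathlib
import Pool.Agent.Helper682.HU.HB4
import Pool.Agent.Helper682.HU.H10
import Pool.Agent.Helper682.HU.ZG2
import Pool.Agent.Helper682.HU.ZG5
import Pool.Agent.Helper682.HU.YJ5

set_option autoImplicit false

namespace Pool.Agent.Helper682.HU

open MeasureTheory Finset Filter Topology

/-- the three dimensional construction for every finite exponent -/
theorem wild3 (p : ℝ) (hp : 0 < p) : Wild3 p := by
  obtain ⟨q, hq⟩ : ∃ q : ℕ, max 1 (p / 2) ≤ q := exists_nat_ge _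
  have hq1 : 1 ≤ q := by exact_mod_cast (le_max_left _ _).trans hq
  have hpq : p ≤ 2 * q := by have := (le_max_right _ _).trans hq; linarith
  obtain ⟨D, hDd, ⟨CD, hCD, hDb⟩, c, hc, hDc⟩ := XG1.D_exists p hp
  have hε : 0 < kap ^ 2 / 108 := by have := kap_pos; positivity
  obtain ⟨H, hok, hdec1, hdec2, hY⟩ := ZG2.exists_humps q (kap ^ 2 / 108) c hε hc (KTq q hq1)
  obtain ⟨hSd, hsum⟩ := SS_diff H (fun j => (hok j).cn) hdec1
  obtain ⟨C, hC⟩ := YJ5.hp_bound_q q hq1 H (fun j => (hok j).pos) (fun j => (hok j).sl) fract_mp period_bound hsum p hp hpq D CD hCD hDb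
  obtain ⟨E, hEm, hEc, hEv, hE⟩ := ZG5.blowup q H (kap ^ 2 / 108) c hε hc fract_mp hok hdec2 hY hsum D hDc
  refine ⟨fun z => D z * SS H z, hDd.mul hSd, ⟨C, hC⟩, E, hEm, ?_, hE⟩
  exact lt_of_lt_of_le (ENNReal.ofReal_pos.2 hε) hEv

theorem main_all (m : ℕ) (p : ℝ) (hp : 0 < p) : ∃ F : (Fin (m + 3) → ℂ) → ℂ,
    (DifferentiableOn ℂ F {z | (fun k => (z k).im) ∈ LC m} ∧
    ∃ C : ℝ, ∀ y ∈ LC m, ∫⁻ x : Fin (m + 3) → ℝ, ‖F (fun k => (x k : ℂ) + (y k : ℂ) * Complex.I)‖ₑ ^ p ≤ ENNReal.ofReal C) ∧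
    ∃ E : Set (Fin (m + 3) → ℝ), MeasurableSet E ∧ 0 < volume E ∧ ∀ x ∈ E, (∀ M δ : ℝ, 0 < δ →
      ∃ y ∈ LC m, ‖y‖ < δ ∧ M < ‖F (fun k => (x k : ℂ) + (y k : ℂ) * Complex.I)‖) ∧
      ∀ l : ℂ, ¬ Tendsto (fun y : Fin (m + 3) → ℝ => F (fun k => (x k : ℂ) + (y k : ℂ) * Complex.I)) (𝓝[LC m] 0) (𝓝 l) :=
  lift' m p hp (wild3 p hp)

end Pool.Agent.Helper682.HU
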